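import Pool.Agent.R966.CD.Blocks

/-!
A level is good unless it is spoiled by some block.
-/

set_option autoImplicit false

namespace Pool.Agent.R966.CD

open MeasureTheory ProbabilityTheory
open scoped NNReal ENNReal

namespace Par

variable (P : Par)

/-- good level of the walk -/
structure GG (n j : ℕ) (x : ℤ → E n) : Prop where
  ret : ∀ u : ℤ, |u| ≤ P.w 0 → ‖S x u‖ < 5 * P.r n j → |u| ≤ P.w j
  sep : ∀ u v : ℤ, |u| ≤ P.w j → |v| ≤ P.w j → ‖S x u - S x v‖ < 5 * P.r n (j+1) →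
    |u - v| ≤ 2 * P.sp j
  osc : ∀ u v : ℤ, |u| ≤ P.w j → |v| ≤ P.w j → P.r n j / 2 < ‖S x u - S x v‖ →
    2^(P.Hk j) ≤ |u - v|

theorem w_pos (i : ℕ) : 0 < P.w i := by unfold w; positivity

theorem loOK (i : ℕ) : LoOK (P.w i) := Or.inr ⟨_, rfl⟩

theorem w_anti {i j : ℕ} (h : i ≤ j) : P.w j ≤ P.w i := by
  unfold w
  apply Nat.pow_le_pow_right (by norm_num)
  have := Nat.mul_le_mul_left (2*P.β) h
  omega

/-- the shell of a point -/
theorem exists_shell {j : ℕ} {a : ℕ} (h1 : P.w j < a) (h0 : a ≤ P.w 0) :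
    ∃ i < j, P.w (i+1) < a ∧ a ≤ P.w i := by
  induction j with
  | zero => omega
  | succ j ih =>
    rcases Nat.lt_or_ge (P.w j) a with h | h
    · obtain ⟨i, hi, h2⟩ := ih h
      exact ⟨i, by omega, h2⟩
    · exact ⟨j, by omega, h1, h⟩

/-- the two one-sided paths -/
noncomputable def pm {n : ℕ} (x : ℤ → E n) (σ : Bool) (u : ℕ) : E n :=
  if σ then S x u else S x (-(u:ℤ))

theorem small_pm {n : ℕ} {x : ℤ → E n} {lo hi H : ℕ} {ρ : ℝ} (h : x ∉ OE n lo hi H ρ) (σ : Bool) :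
    Small (pm x σ) lo hi H ρ := by
  unfold OE at h
  simp only [Set.mem_ofPred_eq, not_or, not_not] at h
  cases σ
  · exact h.2
  · exact h.1

theorem pm_of {n : ℕ} (x : ℤ → E n) (u : ℤ) : ∃ σ : Bool, S x u = pm x σ u.natAbs ∧
    u = (if σ then (u.natAbs : ℤ) else -(u.natAbs : ℤ)) := by
  rcases le_total 0 u with h | h
  · refine ⟨true, ?_, ?_⟩
    · unfold pm
      rw [if_pos rfl]
      congr 1
      omega
    · rw [if_pos rfl]
      omega
  · refine ⟨false, ?_, ?_⟩
    · unfold pm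
      rw [if_neg (by simp)]
      congr 1
      omega
    · rw [if_neg (by simp)]
      omega

theorem pm_zero {n : ℕ} (x : ℤ → E n) (σ : Bool) : pm x σ 0 = 0 := by
  unfold pm
  split <;> simp [S_zero]

theorem anchor {n : ℕ} {x : ℤ → E n} {i H : ℕ} {ρ : ℝ} (hρ : 0 ≤ ρ) (c : ℕ)
    (hc : P.w (i+1) = c * 2^H) (h : x ∉ OE n (P.w (i+1)) (P.w i) H ρ) (u : ℤ)
    (h1 : P.w (i+1) ≤ |u|) (h2 : |u| ≤ P.w i) :
    ∃ p ∈ P.anc i H, ‖S x u - S x p‖ ≤ ρ ∧ |u - p| ≤ 2^H := by
  obtain ⟨σ, hσ, hu⟩ := pm_of x u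
  have h1' : P.w (i+1) ≤ u.natAbs := by rw [Int.abs_eq_natAbs] at h1; exact_mod_cast h1
  have h2' : u.natAbs ≤ P.w i := by rw [Int.abs_eq_natAbs] at h2; exact_mod_cast h2
  have hpos : 0 < 2^H := by positivity
  have h3 := osc_cell hρ (P.loOK (i+1)) (small_pm h σ) u.natAbs h1' h2'
  have h4 : P.w (i+1) ≤ u.natAbs / 2^H * 2^H := by
    rw [hc]
    apply Nat.mul_le_mul_right
    rw [Nat.le_div_iff_mul_le hpos, ← hc]
    exact h1'
  rw [max_eq_left h4] at h3
  have h5 := Nat.div_mul_le_self u.natAbs (2^H)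
  have h6 := Nat.lt_div_mul_add (a := u.natAbs) hpos
  refine ⟨if σ then ((u.natAbs / 2^H * 2^H : ℕ) : ℤ) else -((u.natAbs / 2^H * 2^H : ℕ) : ℤ), ?_, ?_, ?_⟩
  · rw [P.mem_anc]
    refine ⟨u.natAbs / 2^H, h4, h5.trans h2', ?_⟩
    cases σ
    · right; simp
    · left; simp
  · have e : S x (if σ then ((u.natAbs / 2^H * 2^H : ℕ) : ℤ) else -((u.natAbs / 2^H * 2^H : ℕ) : ℤ)) =
        pm x σ (u.natAbs / 2^H * 2^H) := by
      unfold pm
      cases σ <;> simp
    rw [hσ, e]
    exact h3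
  · have e : ((2^H : ℕ) : ℤ) = (2:ℤ)^H := by push_cast; rfl
    rw [← e]
    generalize hq : u.natAbs / 2^H * 2^H = q at h5 h6 ⊢
    cases σ
    · rw [if_neg (by simp)] at hu ⊢
      rw [abs_le]
      constructor <;> omega
    · rw [if_pos rfl] at hu ⊢
      rw [abs_le]
      constructor <;> omega

theorem ret_of {n j : ℕ} (hn : 1 ≤ n) (hj : j < P.k) {x : ℤ → E n}
    (h : ∀ i < j, x ∉ P.Fdown n i (j - i)) (u : ℤ) (hu : |u| ≤ P.w 0)
    (hs : ‖S x u‖ < 5 * P.r n j) : |u| ≤ P.w j := by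
  by_contra hcon
  push Not at hcon
  have e1 : |u| = (u.natAbs : ℤ) := Int.abs_eq_natAbs u
  rw [e1] at hcon hu
  obtain ⟨i, hi, h1, h2⟩ := P.exists_shell (j := j) (a := u.natAbs) (by exact_mod_cast hcon)
    (by exact_mod_cast hu)
  have h3 := h i hi
  unfold Fdown SBd at h3
  rw [Set.mem_union, not_or] at h3
  obtain ⟨h4, h5⟩ := h3
  have hij : i + (j - i) = j := by omega
  rw [hij] at h4 h5
  have hr := P.r_pos hn j
  have hexp := P.exp_le (show j ≤ P.k + 1 by omega)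
  have hmul : 2*P.β*(i+1) ≤ 2*P.β*j := Nat.mul_le_mul_left _ (by omega)
  obtain ⟨p, hp, h6, -⟩ := P.anchor hr.le (2^(P.N + 12 - 2*P.β*(i+1) - P.Hd i (j-i))) (by
    rw [← pow_add]
    unfold w Hd
    rw [hij]
    congr 1
    omega) h4 u (by rw [e1]; exact_mod_cast h1.le) (by rw [e1]; exact_mod_cast h2)
  simp only [Set.mem_iUnion, not_exists] at h5
  have h7 := h5 p hp
  simp only [Set.mem_ofPred_eq, S_zero, sub_zero, not_le] at h7
  have h8 : ‖S x p‖ ≤ ‖S x u‖ + ‖S x u - S x p‖ := by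
    have : S x p = S x u - (S x u - S x p) := by abel
    calc ‖S x p‖ = ‖S x u - (S x u - S x p)‖ := by rw [← this]
      _ ≤ _ := norm_sub_le _ _
  linarith

theorem big_ratio : (2:ℝ)^20 ≤ 2^P.β := pow_le_pow_right₀ (by norm_num) P.hβ

/-- the cells close to the centre -/
theorem inner {n j : ℕ} (hn : 1 ≤ n) {x : ℤ → E n}
    (hup : ∀ i, j < i → i < P.k → x ∉ P.Fup n i (i - j)) (hc : x ∉ P.Fcore n (P.k - j)) :
    ∀ m i, i + m = P.k → j + 1 ≤ i → ∀ u : ℕ, u ≤ P.w i → ∀ σ,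
      ‖pm x σ u‖ ≤ 6144 * P.r n (j+1) * (1/2)^(i-j-1) := by
  have hr := P.r_pos hn (j+1)
  have hrad : ∀ i, j + 1 ≤ i → 3072 * P.r n i * ((2:ℝ)^P.β / 2)^(i-j-1) =
      3072 * P.r n (j+1) * (1/2)^(i-j-1) := by
    intro i hi
    have e1 : i = (j+1) + (i-j-1) := by omega
    have e2 := P.r_shift n (j+1) (i-j-1)
    rw [← e1] at e2
    rw [e2, div_pow, ← pow_mul]
    field_simp
    rw [← mul_pow]
    norm_num
  intro m
  induction m with
  | zero =>
    intro i hi hji u hu σ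
    have hik : i = P.k := by omega
    subst hik
    unfold Fcore at hc
    have hr2 := P.r_pos hn P.k
    have h3 := osc_cell (by positivity) (Or.inl rfl) (small_pm hc σ) u (Nat.zero_le _) hu
    have hexp := P.exp_le (show P.k ≤ P.k + 1 by omega)
    have h4 : u / 2^(P.N + 13 - 2*P.β*P.k) = 0 := by
      apply Nat.div_eq_of_lt
      refine lt_of_le_of_lt hu ?_
      unfold w
      exact Nat.pow_lt_pow_right (by norm_num) (by omega)
    rw [h4, zero_mul, max_self, pm_zero, sub_zero, hrad P.k hji] at h3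
    have : (0:ℝ) ≤ P.r n (j+1) * (1/2)^(P.k-j-1) := by positivity
    linarith
  | succ m ih =>
    intro i hi hji u hu σ
    have h1 := ih (i+1) (by omega) (by omega)
    rcases Nat.lt_or_ge (P.w (i+1)) u with h2 | h2
    · have h5 := hup i (by omega) (by omega)
      unfold Fup at h5
      have hr2 := P.r_pos hn i
      have h3 := osc_cell (by positivity) (P.loOK (i+1)) (small_pm h5 σ) u h2.le hu
      have hexp := P.exp_le (show i ≤ P.k + 1 by omega)
      have h4 : u / 2^(P.N + 13 - 2*P.β*i) = 0 := by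
        apply Nat.div_eq_of_lt
        refine lt_of_le_of_lt hu ?_
        unfold w
        exact Nat.pow_lt_pow_right (by norm_num) (by omega)
      rw [h4, zero_mul, max_eq_right (Nat.zero_le _), hrad i hji] at h3
      have h6 := h1 (P.w (i+1)) le_rfl σ
      have e1 : i + 1 - j - 1 = (i - j - 1) + 1 := by omega
      rw [e1, pow_succ] at h6
      have h8 : ‖pm x σ u‖ ≤ ‖pm x σ u - pm x σ (P.w (i+1))‖ + ‖pm x σ (P.w (i+1))‖ := by
        have := norm_add_le (pm x σ u - pm x σ (P.w (i+1))) (pm x σ (P.w (i+1)))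
        rwa [sub_add_cancel] at this
      linarith
    · refine (h1 u h2 σ).trans ?_
      apply mul_le_mul_of_nonneg_left _ (by positivity)
      exact pow_le_pow_of_le_one (by norm_num) (by norm_num) (by omega)

theorem inner' {n j : ℕ} (hn : 1 ≤ n) (hj : j < P.k) {x : ℤ → E n}
    (hup : ∀ i, j < i → i < P.k → x ∉ P.Fup n i (i - j)) (hc : x ∉ P.Fcore n (P.k - j))
    (u : ℤ) (hu : |u| ≤ P.w (j+1)) : ‖S x u‖ ≤ 6144 * P.r n (j+1) := by
  obtain ⟨σ, h1, -⟩ := pm_of x u
  rw [h1]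
  have h2 := P.inner hn hup hc (P.k - (j+1)) (j+1) (by omega) le_rfl u.natAbs (by
    rw [Int.abs_eq_natAbs] at hu; exact_mod_cast hu) σ
  have e : j + 1 - j - 1 = 0 := by omega
  rwa [e, pow_zero, mul_one] at h2

theorem hd_dvd {j : ℕ} (hj : j < P.k) : P.w (j+1) = 2^(P.N + 12 - 2*P.β*(j+1) - P.Hd j 1) * 2^(P.Hd j 1) := by
  have hexp := P.exp_le (show j + 1 ≤ P.k + 1 by omega)
  rw [← pow_add]
  unfold w Hd
  congr 1
  omega

theorem sep_of {n j : ℕ} (hn : 1 ≤ n) (hj : j < P.k) {x : ℤ → E n} (hown : x ∉ P.Fown n j)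
    (hup : ∀ i, j < i → i < P.k → x ∉ P.Fup n i (i - j)) (hc : x ∉ P.Fcore n (P.k - j))
    (u v : ℤ) (hu : |u| ≤ P.w j) (hv : |v| ≤ P.w j) (hs : ‖S x u - S x v‖ < 5 * P.r n (j+1)) :
    |u - v| ≤ 2 * P.sp j := by
  have hr := P.r_pos hn (j+1)
  have hexp := P.exp_le (show j + 1 ≤ P.k + 1 by omega)
  unfold Fown at hown
  rw [Set.mem_union, Set.mem_union, Set.mem_union, not_or, not_or, not_or] at hown
  obtain ⟨⟨-, h1⟩, h2, h3⟩ := hown
  -- the scales
  have s1 : 2 * P.w (j+1) ≤ P.sp j := by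
    unfold w sp
    rw [← pow_succ']
    exact Nat.pow_le_pow_right (by norm_num) (by omega)
  have s2 : 4 * 2^(P.Hd j 1) ≤ P.sp j := by
    unfold sp Hd
    have : 4 = 2^2 := by norm_num
    rw [this, ← pow_add]
    exact Nat.pow_le_pow_right (by norm_num) (by omega)
  have s1' : 2 * (P.w (j+1) : ℤ) ≤ P.sp j := by exact_mod_cast s1
  have s2' : 4 * (2:ℤ)^(P.Hd j 1) ≤ P.sp j := by exact_mod_cast s2
  have hw0 : (0:ℤ) ≤ P.w (j+1) := Int.natCast_nonneg _
  have hH0 : (0:ℤ) ≤ (2:ℤ)^(P.Hd j 1) := by positivity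
  -- pairs in order
  have hpair : ∀ a b : ℤ, a ≤ b → |a| ≤ P.w j → |b| ≤ P.w j → ‖S x b - S x a‖ < 5 * P.r n (j+1) →
      b - a ≤ 2 * P.sp j := by
    intro a b hab ha hb hsab
    by_contra hcon
    push Not at hcon
    have h2' : ∀ p q, p ∈ P.anc j (P.Hd j 1) → q ∈ P.anc j (P.Hd j 1) → p + P.sp j ≤ q →
        7 * P.r n (j+1) < ‖S x q - S x p‖ := by
      intro p q hp hq hpq
      unfold SBp at h2
      simp only [Set.mem_iUnion, not_exists] at h2
      have := h2 (p, q) (Finset.mem_filter.mpr ⟨Finset.mem_product.mpr ⟨hp, hq⟩, hpq⟩)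
      simpa only [Set.mem_ofPred_eq, not_le] using this
    have h3' : ∀ p, p ∈ P.anc j (P.Hd j 1) → (P.sp j : ℤ) ≤ |p| → 6150 * P.r n (j+1) < ‖S x p‖ := by
      intro p hp hpp
      unfold SBc at h3
      simp only [Set.mem_iUnion, not_exists] at h3
      have := h3 p (Finset.mem_filter.mpr ⟨hp, hpp⟩)
      simpa only [Set.mem_ofPred_eq, not_le, S_zero, sub_zero] using this
    -- a point of the shell and a point of the core
    have hmix : ∀ c d : ℤ, |c| ≤ P.w (j+1) → P.w (j+1) ≤ |d| → |d| ≤ P.w j →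
        2 * (P.sp j : ℤ) ≤ |d - c| → 5 * P.r n (j+1) ≤ ‖S x d - S x c‖ := by
      intro c d hc' hd1 hd2 hcd
      obtain ⟨p, hp, h6, h7⟩ := P.anchor hr.le _ (P.hd_dvd hj) h1 d hd1 hd2
      have h8 := P.inner' hn hj hup hc c hc'
      have h9 : (P.sp j : ℤ) ≤ |p| := by
        have t1 : |d - c| ≤ |d| + |c| := abs_sub d c
        have t2 : |d| ≤ |d - p| + |p| := by
          have := abs_add_le (d - p) p
          rwa [sub_add_cancel] at this
        omega
      have h10 := h3' p hp h9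
      have h11 : ‖S x p‖ ≤ ‖S x d - S x c‖ + ‖S x c‖ + ‖S x d - S x p‖ := by
        have e : S x p = (S x d - S x c) + S x c - (S x d - S x p) := by abel
        calc ‖S x p‖ = ‖(S x d - S x c) + S x c - (S x d - S x p)‖ := by rw [← e]
          _ ≤ ‖(S x d - S x c) + S x c‖ + ‖S x d - S x p‖ := norm_sub_le _ _
          _ ≤ _ := by have := norm_add_le (S x d - S x c) (S x c); linarith
      linarith
    rcases le_total |a| (P.w (j+1) : ℤ) with ca | ca
    · rcases le_total |b| (P.w (j+1) : ℤ) with cb | cb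
      · rw [abs_le] at ca cb
        omega
      · have := hmix a b ca cb hb (by rw [abs_of_nonneg (by omega)]; omega)
        linarith
    · rcases le_total |b| (P.w (j+1) : ℤ) with cb | cb
      · have := hmix b a cb ca ha (by rw [abs_sub_comm, abs_of_nonneg (by omega)]; omega)
        rw [norm_sub_rev] at this
        linarith
      · obtain ⟨p, hp, h6, h7⟩ := P.anchor hr.le _ (P.hd_dvd hj) h1 a ca ha
        obtain ⟨q, hq, h8, h9⟩ := P.anchor hr.le _ (P.hd_dvd hj) h1 b cb hb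
        have h10 := h2' p q hp hq (by
          rw [abs_le] at h7 h9
          omega)
        have h11 : ‖S x q - S x p‖ ≤ ‖S x b - S x a‖ + ‖S x a - S x p‖ + ‖S x b - S x q‖ := by
          have e : S x q - S x p = (S x b - S x a) + (S x a - S x p) - (S x b - S x q) := by abel
          calc ‖S x q - S x p‖ = ‖(S x b - S x a) + (S x a - S x p) - (S x b - S x q)‖ := by rw [← e]
            _ ≤ ‖(S x b - S x a) + (S x a - S x p)‖ + ‖S x b - S x q‖ := norm_sub_le _ _
            _ ≤ _ := by have := norm_add_le (S x b - S x a) (S x a - S x p); linarith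
        linarith
  rcases le_total u v with huv | huv
  · have := hpair u v huv hu hv (by rwa [norm_sub_rev])
    rw [abs_sub_comm, abs_of_nonneg (by omega)]
    exact this
  · have := hpair v u huv hv hu hs
    rw [abs_of_nonneg (by omega)]
    exact this

theorem osc_of {n j : ℕ} (hn : 1 ≤ n) (hj : j < P.k) {x : ℤ → E n} (hown : x ∉ P.Fown n j)
    (hup : ∀ i, j < i → i < P.k → x ∉ P.Fup n i (i - j)) (hc : x ∉ P.Fcore n (P.k - j))
    (u v : ℤ) (hu : |u| ≤ P.w j) (hv : |v| ≤ P.w j) (hs : P.r n j / 2 < ‖S x u - S x v‖) :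
    2^(P.Hk j) ≤ |u - v| := by
  by_contra hcon
  push Not at hcon
  have hr := P.r_pos hn (j+1)
  have hr0 := P.r_pos hn j
  have hexp := P.exp_le (show j + 1 ≤ P.k + 1 by omega)
  unfold Fown at hown
  rw [Set.mem_union, Set.mem_union, Set.mem_union, not_or, not_or, not_or] at hown
  obtain ⟨⟨h1, -⟩, -, -⟩ := hown
  have hH1 : 1 ≤ P.Hk j := by
    unfold Hk
    have := P.exp_le (show j ≤ P.k + 1 by omega)
    omega
  have hratio : P.r n (j+1) * 2^20 ≤ P.r n j := by
    rw [P.r_shift n j 1, mul_one]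
    have := P.big_ratio
    rw [div_mul_eq_mul_div, div_le_iff₀ (by positivity)]
    exact mul_le_mul_of_nonneg_left this hr0.le
  -- points close to the edge of the core
  have hedge : ∀ (σ : Bool) (a : ℕ), a ≤ P.w j → a ≤ P.w (j+1) + 2^(P.Hk j) →
      ‖pm x σ a‖ ≤ 3 * (P.r n j / 32) + 6144 * P.r n (j+1) := by
    intro σ a ha1 ha2
    rcases Nat.lt_or_ge (P.w (j+1)) a with h2 | h2
    · have h3 := near (by positivity) (P.loOK (j+1)) hH1 (small_pm h1 σ) (P.w (j+1)) a le_rfl h2.le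
        ha1 ha2
      have h4 := P.inner hn hup hc (P.k - (j+1)) (j+1) (by omega) le_rfl (P.w (j+1)) le_rfl σ
      have e : j + 1 - j - 1 = 0 := by omega
      rw [e, pow_zero, mul_one] at h4
      have h8 : ‖pm x σ a‖ ≤ ‖pm x σ a - pm x σ (P.w (j+1))‖ + ‖pm x σ (P.w (j+1))‖ := by
        have := norm_add_le (pm x σ a - pm x σ (P.w (j+1))) (pm x σ (P.w (j+1)))
        rwa [sub_add_cancel] at this
      linarith
    · have h4 := P.inner hn hup hc (P.k - (j+1)) (j+1) (by omega) le_rfl a h2 σ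
      have e : j + 1 - j - 1 = 0 := by omega
      rw [e, pow_zero, mul_one] at h4
      linarith
  obtain ⟨σ, hσ, hu'⟩ := pm_of x u
  obtain ⟨τ, hτ, hv'⟩ := pm_of x v
  have hua : u.natAbs ≤ P.w j := by rw [Int.abs_eq_natAbs] at hu; exact_mod_cast hu
  have hva : v.natAbs ≤ P.w j := by rw [Int.abs_eq_natAbs] at hv; exact_mod_cast hv
  have hcast : ((2^(P.Hk j) : ℕ) : ℤ) = (2:ℤ)^(P.Hk j) := by push_cast; rfl
  rw [← hcast] at hcon
  -- same sign, both in the shell
  by_cases hsame : σ = τ ∧ P.w (j+1) ≤ u.natAbs ∧ P.w (j+1) ≤ v.natAbs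
  · obtain ⟨rfl, hu1, hv1⟩ := hsame
    have hd : u.natAbs ≤ v.natAbs + 2^(P.Hk j) ∧ v.natAbs ≤ u.natAbs + 2^(P.Hk j) := by
      rw [abs_lt] at hcon
      cases σ
      · rw [if_neg (by simp)] at hu' hv'
        omega
      · rw [if_pos rfl] at hu' hv'
        omega
    have h5 : ‖S x u - S x v‖ ≤ 3 * (P.r n j / 32) := by
      rw [hσ, hτ]
      rcases le_total u.natAbs v.natAbs with h | h
      · rw [norm_sub_rev]
        exact near (by positivity) (P.loOK (j+1)) hH1 (small_pm h1 σ) _ _ hu1 h hva hd.2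
      · exact near (by positivity) (P.loOK (j+1)) hH1 (small_pm h1 σ) _ _ hv1 h hua hd.1
    linarith
  · have hd : u.natAbs ≤ P.w (j+1) + 2^(P.Hk j) ∧ v.natAbs ≤ P.w (j+1) + 2^(P.Hk j) := by
      rw [abs_lt] at hcon
      by_contra hcc
      apply hsame
      have hcast2 : (0:ℤ) ≤ ((2^(P.Hk j) : ℕ) : ℤ) := Int.natCast_nonneg _
      generalize (2^(P.Hk j) : ℕ) = q at hcon hcc hcast2
      generalize u.natAbs = a at hu' hcc ⊢
      generalize v.natAbs = b at hv' hcc ⊢
      cases σ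
      · cases τ
        · rw [if_neg (by simp)] at hu' hv'
          exact ⟨rfl, by omega, by omega⟩
        · rw [if_neg (by simp)] at hu'
          rw [if_pos rfl] at hv'
          exfalso
          omega
      · cases τ
        · rw [if_neg (by simp)] at hv'
          rw [if_pos rfl] at hu'
          exfalso
          omega
        · rw [if_pos rfl] at hu' hv'
          exact ⟨rfl, by omega, by omega⟩
    have h5 := hedge σ u.natAbs hua hd.1
    have h6 := hedge τ v.natAbs hva hd.2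
    have h7 := norm_sub_le (S x u) (S x v)
    rw [hσ, hτ] at h7
    rw [hσ, hτ] at hs
    have : (2:ℝ)^20 = 1048576 := by norm_num
    rw [this] at hratio
    linarith

/-- **attribution** -/
theorem good_of {n j : ℕ} (hn : 1 ≤ n) (hj : j < P.k) {x : ℤ → E n}
    (hdown : ∀ i < j, x ∉ P.Fdown n i (j - i)) (hown : x ∉ P.Fown n j)
    (hup : ∀ i, j < i → i < P.k → x ∉ P.Fup n i (i - j)) (hc : x ∉ P.Fcore n (P.k - j)) :
    P.GG n j x where
  ret u hu hs := P.ret_of hn hj hdown u hu hs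
  sep u v hu hv hs := P.sep_of hn hj hown hup hc u v hu hv hs
  osc u v hu hv hs := P.osc_of hn hj hown hup hc u v hu hv hs

end Par

end Pool.Agent.R966.CD
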