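import Pool.Agent.R966.CD.Limit

/-!
Brownian motion: the law of the increments, and a majorant of the weight of the bad levels.
-/

set_option autoImplicit false

namespace Pool.Agent.R966.CD

open MeasureTheory ProbabilityTheory Filter Topology
open scoped NNReal ENNReal

/-- Standard Brownian motion in `ℝ^n` started at `0`: measurable, with almost surely continuous
paths, independent increments, and centred Gaussian increments with covariance `(t - s)` times the
identity. -/
structure IsBM {n : ℕ} {Ω : Type*} [MeasurableSpace Ω] (P : Measure Ω)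
    (B : ℝ≥0 → Ω → E n) : Prop where
  measurable : ∀ t, Measurable (B t)
  zero : ∀ᵐ ω ∂P, B 0 ω = 0
  cont : ∀ᵐ ω ∂P, Continuous fun t => B t ω
  indep : HasIndepIncrements B P
  law : ∀ s t : ℝ≥0, s ≤ t → P.map (fun ω => B t ω - B s ω) = gam n (t - s)

/-- the path, with real times -/
def path {n : ℕ} {Ω : Type*} (B : ℝ≥0 → Ω → E n) (ω : Ω) (t : ℝ) : E n := B t.toNNReal ω

variable {n : ℕ} {Ω : Type*} [MeasurableSpace Ω] {P : Measure Ω} {B : ℝ≥0 → Ω → E n}

omit [MeasurableSpace Ω] in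
theorem continuous_path {ω : Ω} (h : Continuous fun t => B t ω) : Continuous (path B ω) :=
  h.comp continuous_real_toNNReal

/-- cells of `[0,1]` around the centre -/
noncomputable def cells (N c : ℕ) : Finset ℤ := Finset.Ico (-(c:ℤ)) ((2^N : ℕ) - (c:ℤ))

/-- the increments -/
noncomputable def X (B : ℝ≥0 → Ω → E n) (N c : ℕ) (ω : Ω) (j : cells N c) : E n :=
  B ((((c + j.1).toNat + 1 : ℕ) : ℝ≥0) / 2^N) ω - B ((((c + j.1).toNat : ℕ) : ℝ≥0) / 2^N) ω

theorem measurable_X (hB : IsBM P B) (N c : ℕ) : Measurable (X B N c) := by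
  unfold X
  exact measurable_pi_lambda _ fun j => (hB.measurable _).sub (hB.measurable _)

theorem law_X [IsProbabilityMeasure P] (hB : IsBM P B) (N c : ℕ) :
    P.map (X B N c) = Measure.pi (fun _ : cells N c => gam n ((2:ℝ≥0)^N)⁻¹) := by
  have hpos : (0:ℝ≥0) < 2^N := by positivity
  have hmono : Monotone fun i : ℕ => (i : ℝ≥0) / 2^N := by
    intro i j hij
    show (i:ℝ≥0) / 2^N ≤ (j:ℝ≥0) / 2^N
    gcongr
  have h1 := hB.indep.nat hmono
  have hinj : Function.Injective fun j : cells N c => (c + j.1).toNat := by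
    intro j1 j2 h
    have a1 := j1.2
    have a2 := j2.2
    unfold cells at a1 a2
    rw [Finset.mem_Ico] at a1 a2
    have h' : ((c:ℤ) + j1.1).toNat = ((c:ℤ) + j2.1).toNat := h
    apply Subtype.ext
    omega
  have h2 := h1.precomp hinj
  have h3 := (iIndepFun_iff_map_fun_eq_pi_map (fun j : cells N c =>
    (((hB.measurable _).sub (hB.measurable _)).aemeasurable : AEMeasurable (fun ω =>
      B ((((c + j.1).toNat + 1 : ℕ) : ℝ≥0) / 2^N) ω - B ((((c + j.1).toNat : ℕ) : ℝ≥0) / 2^N) ω) P))).mp h2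
  refine h3.trans ?_
  congr 1
  funext j
  refine (hB.law _ _ (hmono (Nat.le_succ _))).trans ?_
  congr 1
  rw [← NNReal.coe_inj, NNReal.coe_sub (hmono (Nat.le_succ _))]
  push_cast
  ring

/-- the walk, extended by fresh increments -/
noncomputable def ext (N c : ℕ) (T : Finset ℤ) (z : cells N c → E n) (y : T → E n) : ℤ → E n :=
  Function.updateFinset (Function.updateFinset 0 (cells N c) z) T y

omit [MeasurableSpace Ω] in
theorem S_ext {N c : ℕ} (hc : c ≤ 2^N) {T : Finset ℤ} (hT : Disjoint (cells N c) T) (ω : Ω)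
    (y : T → E n) (u : ℤ) (h1 : -(c:ℤ) ≤ u) (h2 : u ≤ (2^N : ℕ) - (c:ℤ)) :
    S (ext N c T (X B N c ω) y) u = path B ω ((c:ℝ)/2^N + u / 2^N) - path B ω ((c:ℝ)/2^N) := by
  have h3 := S_walk c (2^N) hc (fun a => B ((a:ℝ≥0)/2^N) ω) (ext N c T (X B N c ω) y) (by
    intro j hj1 hj2
    have hj : j ∈ cells N c := by
      unfold cells
      rw [Finset.mem_Ico]
      exact ⟨hj1, hj2⟩
    have hj' : j ∉ T := Finset.disjoint_left.mp hT hj
    unfold ext
    rw [Function.updateFinset, dif_neg hj', Function.updateFinset, dif_pos hj]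
    rfl) u h1 h2
  rw [h3]
  unfold path
  have e1 : ((c:ℝ)/2^N).toNNReal = (c:ℝ≥0)/2^N := by
    apply NNReal.coe_injective
    rw [Real.coe_toNNReal _ (by positivity)]
    push_cast
    rfl
  have e2 : ((c:ℝ)/2^N + u / 2^N).toNNReal = (((c + u).toNat : ℕ):ℝ≥0)/2^N := by
    have e3 : (((c + u).toNat : ℕ) : ℝ) = (c:ℝ) + u := by
      have : (((c + u).toNat : ℕ) : ℤ) = c + u := Int.toNat_of_nonneg (by omega)
      exact_mod_cast this
    apply NNReal.coe_injective
    rw [Real.coe_toNNReal]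
    · push_cast
      rw [e3]
      ring
    · rw [← add_div, ← e3]
      positivity
  rw [e1, e2]

/-- **measurable majorant of the weight of the bad levels** -/
theorem majorant [IsProbabilityMeasure P] (hB : IsBM P B) (hn : 2 ≤ n) (β k m i : ℕ) (hβ : 20 ≤ β)
    (hi : i ≤ 2^m) (c0 : ℝ≥0∞) (hc1 : 1 ≤ c0)
    (hc : c0^9 * ENNReal.ofReal (2^(57 + 4*β) * (1/4 : ℝ)^n) ≤ 2⁻¹) :
    ∃ H : Ω → ℝ≥0∞, Measurable H ∧ ∫⁻ ω, H ω ∂P ≤ 2^(k+2) ∧ ∀ ω, (Continuous fun t => B t ω) →
      c0^(badCount (path B ω) (Real.sqrt n) (2^β) (2^12) (2^33) (1/2^21) k ((i:ℝ)/2^m)) ≤ H ω := by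
  classical
  -- the data
  obtain ⟨Q, hQ⟩ : ∃ Q : ℕ → Par, Q = PP β k m hβ := ⟨_, rfl⟩
  have hQN : ∀ a, (Q a).N = NN β k m a := by intro a; rw [hQ]; rfl
  have hQk : ∀ a, (Q a).k = k := by intro a; rw [hQ]; rfl
  have hQβ : ∀ a, (Q a).β = β := by intro a; rw [hQ]; rfl
  obtain ⟨c, hcd⟩ : ∃ c : ℕ → ℕ, c = fun a => i * 2^(NN β k m a - m) := ⟨_, rfl⟩
  have hNm : ∀ a, m ≤ NN β k m a := by intro a; unfold NN; omega
  have hcle : ∀ a, c a ≤ 2^(NN β k m a) := by
    intro a
    rw [hcd]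
    calc i * 2^(NN β k m a - m) ≤ 2^m * 2^(NN β k m a - m) := Nat.mul_le_mul_right _ hi
      _ = 2^(NN β k m a) := by rw [← pow_add]; congr 1; have := hNm a; omega
  obtain ⟨T, hT⟩ : ∃ T : ℕ → Finset ℤ, T = fun a => (Q a).W 0 \ cells (NN β k m a) (c a) := ⟨_, rfl⟩
  have hdis : ∀ a, Disjoint (cells (NN β k m a) (c a)) (T a) := by
    intro a; rw [hT]; exact Finset.disjoint_sdiff
  have hsub : ∀ a, cells (NN β k m a) (c a) ⊆ (Q a).W 0 := by
    intro a u hu
    have h1 : 2^(NN β k m a) ≤ (Q a).w 0 := by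
      unfold Par.w
      rw [hQN]
      exact Nat.pow_le_pow_right (by norm_num) (by omega)
    have h2 := hcle a
    unfold cells at hu
    unfold Par.W
    rw [Finset.mem_Ico] at hu ⊢
    omega
  obtain ⟨g, hg⟩ : ∃ g : ℕ → Ω → ℝ≥0∞, g = fun a ω =>
      (∫⋯∫⁻_(T a), (Q a).Gm c0 ∂(fun _ => gam n (Q a).v))
        (Function.updateFinset 0 (cells (NN β k m a) (c a)) (X B (NN β k m a) (c a) ω)) := ⟨_, rfl⟩
  have hgm0 : ∀ a, Measurable (∫⋯∫⁻_(T a), (Q a).Gm (n := n) c0 ∂(fun _ => gam n (Q a).v)) := by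
    intro a
    exact ((Q a).measurable_Gm c0).lmarginal _
  have hgm : ∀ a, Measurable (g a) := by
    intro a
    rw [hg]
    exact ((hgm0 a).comp measurable_updateFinset).comp (measurable_X hB _ _)
  have hgint : ∀ a, ∫⁻ ω, g a ω ∂P ≤ 2^(k+2) := by
    intro a
    have h1 : ∫⁻ ω, g a ω ∂P = ∫⁻ z, (∫⋯∫⁻_(T a), (Q a).Gm c0 ∂(fun _ => gam n (Q a).v))
        (Function.updateFinset 0 (cells (NN β k m a) (c a)) z)
        ∂(P.map (X B (NN β k m a) (c a))) := by
      rw [hg]
      exact (lintegral_map ((hgm0 a).comp measurable_updateFinset) (measurable_X hB _ _)).symm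
    rw [h1, law_X hB]
    have h2 : ((2:ℝ≥0)^(NN β k m a))⁻¹ = (Q a).v := by unfold Par.v; rw [hQN]
    rw [h2]
    have h3 : (∫⋯∫⁻_(cells (NN β k m a) (c a)), (∫⋯∫⁻_(T a), (Q a).Gm c0 ∂(fun _ => gam n (Q a).v))
        ∂(fun _ => gam n (Q a).v)) (0 : ℤ → E n) ≤ 2^(k+2) := by
      rw [← lmarginal_union _ _ ((Q a).measurable_Gm c0) (hdis a)]
      have h4 : cells (NN β k m a) (c a) ∪ T a = (Q a).W 0 := by
        rw [hT]
        exact Finset.union_sdiff_of_subset (hsub a)
      rw [h4]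
      have h5 := (Q a).lmarginal_Gm hn c0 (by rw [hQβ]; exact hc) 0
      rwa [hQk] at h5
    exact h3
  refine ⟨fun ω => liminf (fun a => g a ω) atTop, Measurable.liminf hgm, ?_, ?_⟩
  · refine (lintegral_liminf_le hgm).trans ?_
    refine liminf_le_of_le (by isBoundedDefault) ?_
    intro b hb
    obtain ⟨a, ha⟩ := hb.exists
    exact ha.trans (hgint a)
  · intro ω hω
    have hγ : ContinuousOn (path B ω) (Set.Icc 0 1) := (continuous_path hω).continuousOn
    -- bad levels of the path are bad for all the walks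
    have hbad : ∀ j < k, ¬ GoodLevel (path B ω) (Real.sqrt n) (2^β) (2^12) (2^33) (1/2^21) j
        ((i:ℝ)/2^m) → ∀ᶠ a in atTop, ∀ y : T a → E n,
        ¬ (Q a).GG n j (ext (NN β k m a) (c a) (T a) (X B (NN β k m a) (c a) ω) y) := by
      intro j hj hnot
      by_contra hcon
      rw [not_eventually] at hcon
      simp only [not_forall, not_not] at hcon
      apply hnot
      have hchoice : ∀ a, ∃ y : T a → E n, (∃ y : T a → E n,
          (Q a).GG n j (ext (NN β k m a) (c a) (T a) (X B (NN β k m a) (c a) ω) y)) →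
          (Q a).GG n j (ext (NN β k m a) (c a) (T a) (X B (NN β k m a) (c a) ω) y) := by
        intro a
        by_cases h : ∃ y : T a → E n,
          (Q a).GG n j (ext (NN β k m a) (c a) (T a) (X B (NN β k m a) (c a) ω) y)
        · exact ⟨h.choose, fun _ => h.choose_spec⟩
        · exact ⟨0, fun h' => absurd h' h⟩
      choose y hy using hchoice
      refine good_of_frequently (path B ω) hγ β k m i hβ hi j hj
        (fun a => ext (NN β k m a) (c a) (T a) (X B (NN β k m a) (c a) ω) (y a)) ?_ ?_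
      · intro a u h1 h2
        have h3 := S_ext (B := B) (hcle a) (hdis a) ω (y a) u (by rw [hcd]; exact h1) (by rw [hcd]; exact h2)
        have h4 : ((c a : ℕ) : ℝ) / 2^(NN β k m a) = (i:ℝ)/2^m := by
          rw [hcd]
          push_cast
          obtain ⟨e, he⟩ : ∃ e, NN β k m a = m + e := ⟨NN β k m a - m, by have := hNm a; omega⟩
          rw [he, Nat.add_sub_cancel_left, pow_add]
          field_simp
        rw [h4] at h3
        exact h3
      · refine hcon.mono fun a ha => ?_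
        have := hy a ha
        rw [hQ] at this
        exact this
    have hall : ∀ᶠ a in atTop, ∀ j ∈ Finset.range k,
        ¬ GoodLevel (path B ω) (Real.sqrt n) (2^β) (2^12) (2^33) (1/2^21) j ((i:ℝ)/2^m) →
        ∀ y : T a → E n,
        ¬ (Q a).GG n j (ext (NN β k m a) (c a) (T a) (X B (NN β k m a) (c a) ω) y) := by
      rw [Filter.eventually_all_finset]
      intro j hj
      by_cases h : GoodLevel (path B ω) (Real.sqrt n) (2^β) (2^12) (2^33) (1/2^21) j ((i:ℝ)/2^m)
      · exact Eventually.of_forall fun a h' => absurd h h'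
      · exact (hbad j (Finset.mem_range.mp hj) h).mono fun a ha _ => ha
    refine le_liminf_of_le (by isBoundedDefault) ?_
    refine hall.mono fun a ha => ?_
    have hpt : ∀ y : T a → E n, c0^(badCount (path B ω) (Real.sqrt n) (2^β) (2^12) (2^33) (1/2^21) k
        ((i:ℝ)/2^m)) ≤ (Q a).Gm c0 (ext (NN β k m a) (c a) (T a) (X B (NN β k m a) (c a) ω) y) := by
      intro y
      refine le_trans (pow_le_pow_right₀ hc1 ?_) ((Q a).pow_NB_le (by omega) c0 hc1 _)
      unfold badCount Par.NB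
      rw [hQk]
      apply Finset.card_le_card
      intro j hj
      rw [Finset.mem_filter] at hj ⊢
      exact ⟨hj.1, ha j hj.1 hj.2 y⟩
    rw [hg]
    show _ ≤ ∫⁻ y : T a → E n, (Q a).Gm c0 (ext (NN β k m a) (c a) (T a) (X B (NN β k m a) (c a) ω) y)
      ∂Measure.pi fun _ => gam n (Q a).v
    calc _ = ∫⁻ _ : T a → E n, c0^(badCount (path B ω) (Real.sqrt n) (2^β) (2^12) (2^33) (1/2^21) k
        ((i:ℝ)/2^m)) ∂Measure.pi fun _ => gam n (Q a).v := by
          rw [lintegral_const, measure_univ, mul_one]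
      _ ≤ _ := lintegral_mono hpt

end Pool.Agent.R966.CD
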