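import Pool.Agent.R966.CD.OscProb

/-!
The events of the blocks and their conditional probabilities.
-/

set_option autoImplicit false

namespace Pool.Agent.R966.CD

open MeasureTheory ProbabilityTheory
open scoped NNReal ENNReal

/-- parameters: resolution `2 ^ (-N)`, ratio of the radii `2 ^ β`, number of levels `k` -/
structure Par where
  N : ℕ
  β : ℕ
  k : ℕ
  hβ : 20 ≤ β
  hN : 2 * β * (k + 2) + 2 * k + 100 ≤ N

namespace Par

variable (P : Par)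

/-- variance of a cell -/
noncomputable def v : ℝ≥0 := ((2:ℝ≥0)^P.N)⁻¹

theorem v_pos : 0 < P.v := by unfold v; positivity

/-- window of level `i`, in cells -/
def w (i : ℕ) : ℕ := 2^(P.N + 12 - 2*P.β*i)

/-- scale of the cells for the returns -/
def Hd (i l : ℕ) : ℕ := P.N - 2*P.β*(i+l) - 11 - l

/-- scale of the cells for the oscillations -/
def Hk (i : ℕ) : ℕ := P.N - 2*P.β*i - 21

/-- half of the separation scale -/
def sp (i : ℕ) : ℕ := 2^(P.N + 32 - 2*P.β*(i+1))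

/-- radius of level `i` -/
noncomputable def r (n : ℕ) (i : ℕ) : ℝ := Real.sqrt n / 2^(P.β*i)

theorem exp_le {i : ℕ} (h : i ≤ P.k + 1) : 2*P.β*i + 2 * P.β + 2 * P.k + 100 ≤ P.N := by
  have h1 := P.hN
  have h2 : 2*P.β*i ≤ 2*P.β*(P.k+1) := Nat.mul_le_mul_left _ h
  have h3 : 2 * P.β * (P.k + 2) = 2*P.β*(P.k+1) + 2 * P.β := by ring
  omega

theorem w_real {i : ℕ} (h : i ≤ P.k + 1) : (P.w i : ℝ) * P.v = 2^12 / 2^(2*P.β*i) := by
  unfold w v
  have h1 := P.exp_le h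
  push_cast
  obtain ⟨c, hc⟩ : ∃ c, P.N = 2*P.β*i + c := ⟨P.N - 2*P.β*i, by omega⟩
  have e1 : P.N + 12 - 2*P.β*i = c + 12 := by omega
  rw [e1, hc, pow_add, pow_add]
  field_simp

theorem w_ratio {i : ℕ} (h : i + 1 ≤ P.k + 1) : P.w i = 2^(2*P.β) * P.w (i+1) := by
  unfold w
  have h1 := P.exp_le h
  rw [← pow_add]
  congr 1
  have : 2*P.β*(i+1) = 2*P.β*i + 2*P.β := by ring
  omega

theorem four_w {i : ℕ} (h : i + 1 ≤ P.k + 1) : 4 * P.w (i+1) ≤ P.w i := by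
  rw [P.w_ratio h]
  apply Nat.mul_le_mul_right
  have h1 := P.hβ
  calc 4 = 2^2 := by norm_num
    _ ≤ 2^(2*P.β) := Nat.pow_le_pow_right (by norm_num) (by omega)

/-- window of level `i` as a set of cells -/
noncomputable def W (i : ℕ) : Finset ℤ := Finset.Ico (-(P.w i : ℤ)) (P.w i)

/-- the cells of block `i` -/
noncomputable def A (i : ℕ) : Finset ℤ := P.W i \ P.W (i+2)

/-- anchors at scale `2 ^ H` in the shell `i` -/
noncomputable def anc (i H : ℕ) : Finset ℤ :=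
  (((Finset.range (P.w i / 2^H + 1)).filter fun a => P.w (i+1) ≤ a * 2^H ∧ a * 2^H ≤ P.w i).image
    fun a : ℕ => ((a * 2^H : ℕ) : ℤ)) ∪
  (((Finset.range (P.w i / 2^H + 1)).filter fun a => P.w (i+1) ≤ a * 2^H ∧ a * 2^H ≤ P.w i).image
    fun a : ℕ => -((a * 2^H : ℕ) : ℤ))

theorem card_anc (i H : ℕ) : (P.anc i H).card ≤ 2 * (P.w i / 2^H + 1) := by
  unfold anc
  refine (Finset.card_union_le _ _).trans ?_
  have h1 : ∀ f : ℕ → ℤ, (((Finset.range (P.w i / 2^H + 1)).filter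
      fun a => P.w (i+1) ≤ a * 2^H ∧ a * 2^H ≤ P.w i).image f).card ≤ P.w i / 2^H + 1 := by
    intro f
    refine Finset.card_image_le.trans ((Finset.card_filter_le _ _).trans ?_)
    rw [Finset.card_range]
  have := h1 fun a : ℕ => ((a * 2^H : ℕ) : ℤ)
  have := h1 fun a : ℕ => -((a * 2^H : ℕ) : ℤ)
  omega

theorem mem_anc {i H : ℕ} {p : ℤ} : p ∈ P.anc i H ↔ ∃ a : ℕ, P.w (i+1) ≤ a * 2^H ∧
    a * 2^H ≤ P.w i ∧ (p = ((a * 2^H : ℕ) : ℤ) ∨ p = -((a * 2^H : ℕ) : ℤ)) := by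
  unfold anc
  rw [Finset.mem_union, Finset.mem_image, Finset.mem_image]
  have hr : ∀ a : ℕ, a * 2^H ≤ P.w i → a ∈ Finset.range (P.w i / 2^H + 1) := by
    intro a ha
    rw [Finset.mem_range]
    have : a ≤ P.w i / 2^H := by
      rw [Nat.le_div_iff_mul_le (by positivity)]; exact ha
    omega
  constructor
  · rintro (⟨a, ha, rfl⟩ | ⟨a, ha, rfl⟩)
    · rw [Finset.mem_filter] at ha
      exact ⟨a, ha.2.1, ha.2.2, Or.inl rfl⟩
    · rw [Finset.mem_filter] at ha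
      exact ⟨a, ha.2.1, ha.2.2, Or.inr rfl⟩
  · rintro ⟨a, h1, h2, h3 | h3⟩
    · left
      exact ⟨a, Finset.mem_filter.mpr ⟨hr a h2, h1, h2⟩, h3.symm⟩
    · right
      exact ⟨a, Finset.mem_filter.mpr ⟨hr a h2, h1, h2⟩, h3.symm⟩

theorem anc_abs {i H : ℕ} {p : ℤ} (h : p ∈ P.anc i H) : (P.w (i+1) : ℤ) ≤ |p| ∧ |p| ≤ P.w i := by
  obtain ⟨a, h1, h2, h3⟩ := P.mem_anc.mp h
  have h1' : (P.w (i+1) : ℤ) ≤ ((a * 2^H : ℕ) : ℤ) := by exact_mod_cast h1
  have h2' : ((a * 2^H : ℕ) : ℤ) ≤ P.w i := by exact_mod_cast h2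
  have h0 : (0:ℤ) ≤ ((a * 2^H : ℕ) : ℤ) := Int.natCast_nonneg _
  rcases h3 with rfl | rfl
  · rw [abs_of_nonneg h0]; exact ⟨h1', h2'⟩
  · rw [abs_neg, abs_of_nonneg h0]; exact ⟨h1', h2'⟩

/-- small balls: returns to the centre -/
def SBd (n i l : ℕ) : Set (ℤ → E n) :=
  ⋃ p ∈ P.anc i (P.Hd i l), {x | ‖S x p - S x 0‖ ≤ 6 * P.r n (i+l)}

/-- small balls: pairs -/
def SBp (n i : ℕ) : Set (ℤ → E n) :=
  ⋃ pq ∈ ((P.anc i (P.Hd i 1)) ×ˢ (P.anc i (P.Hd i 1))).filter fun pq : ℤ × ℤ => pq.1 + (P.sp i : ℤ) ≤ pq.2,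
    {x | ‖S x pq.2 - S x pq.1‖ ≤ 7 * P.r n (i+1)}

/-- small balls: from the centre to a far cell -/
def SBc (n i : ℕ) : Set (ℤ → E n) :=
  ⋃ p ∈ (P.anc i (P.Hd i 1)).filter fun p : ℤ => (P.sp i : ℤ) ≤ |p|,
    {x | ‖S x p - S x 0‖ ≤ 6150 * P.r n (i+1)}

/-- block `i` spoils the level `i + l` -/
def Fdown (n i l : ℕ) : Set (ℤ → E n) :=
  OE n (P.w (i+1)) (P.w i) (P.Hd i l) (P.r n (i+l)) ∪ P.SBd n i l

/-- block `i` spoils the level `i - l` -/
def Fup (n i l : ℕ) : Set (ℤ → E n) :=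
  OE n (P.w (i+1)) (P.w i) (P.N + 13 - 2*P.β*i) (3072 * P.r n i * ((2:ℝ)^P.β / 2)^(l-1))

/-- block `i` spoils the level `i` -/
def Fown (n i : ℕ) : Set (ℤ → E n) :=
  (OE n (P.w (i+1)) (P.w i) (P.Hk i) (P.r n i / 32) ∪
    OE n (P.w (i+1)) (P.w i) (P.Hd i 1) (P.r n (i+1))) ∪ (P.SBp n i ∪ P.SBc n i)

/-- the core spoils the level `k - l` -/
def Fcore (n l : ℕ) : Set (ℤ → E n) :=
  OE n 0 (P.w P.k) (P.N + 13 - 2*P.β*P.k) (3072 * P.r n P.k * ((2:ℝ)^P.β / 2)^(l-1))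

/-- the event of the block `i` -/
def F (n i l : ℕ) : Set (ℤ → E n) :=
  ((if i + l ≤ P.k then P.Fdown n i l else ∅) ∪ P.Fup n i l) ∪ (if l = 1 then P.Fown n i else ∅)

theorem measurable_ball (n : ℕ) (u w : ℤ) (ρ : ℝ) : MeasurableSet {x : ℤ → E n | ‖S x u - S x w‖ ≤ ρ} :=
  measurableSet_le ((measurable_S _).sub (measurable_S _)).norm measurable_const

theorem measurable_F (n i l : ℕ) : MeasurableSet (P.F n i l) := by
  unfold F Fdown Fup Fown SBd SBp SBc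
  refine MeasurableSet.union (MeasurableSet.union ?_ (measurable_OE _ _ _ _ _)) ?_
  · split
    · refine MeasurableSet.union (measurable_OE _ _ _ _ _) ?_
      exact Finset.measurableSet_biUnion _ fun p _ => measurable_ball n _ _ _
    · exact MeasurableSet.empty
  · split
    · refine MeasurableSet.union (MeasurableSet.union (measurable_OE _ _ _ _ _)
        (measurable_OE _ _ _ _ _)) (MeasurableSet.union ?_ ?_)
      · exact Finset.measurableSet_biUnion _ fun p _ => measurable_ball n _ _ _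
      · exact Finset.measurableSet_biUnion _ fun p _ => measurable_ball n _ _ _
    · exact MeasurableSet.empty

theorem measurable_Fcore (n l : ℕ) : MeasurableSet (P.Fcore n l) := measurable_OE _ _ _ _ _

/-! ### conditional probabilities -/

theorem card_inter (i : ℕ) {u w : ℤ} (h1 : -(P.w i : ℤ) ≤ u) (h2 : w ≤ P.w i) :
    ((w - u : ℤ) : ℝ) - 2 * P.w (i+2) ≤ ((P.A i ∩ Finset.Ico u w).card : ℝ) := by
  have hsub : Finset.Ico u w ⊆ (P.A i ∩ Finset.Ico u w) ∪ P.W (i+2) := by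
    intro j hj
    rw [Finset.mem_union]
    by_cases h : j ∈ P.W (i+2)
    · exact Or.inr h
    · left
      rw [Finset.mem_inter]
      refine ⟨?_, hj⟩
      unfold A
      rw [Finset.mem_sdiff]
      refine ⟨?_, h⟩
      unfold W
      rw [Finset.mem_Ico] at hj ⊢
      omega
  have h3 := (Finset.card_le_card hsub).trans (Finset.card_union_le _ _)
  rw [Int.card_Ico] at h3
  have h4 : (P.W (i+2)).card = 2 * P.w (i+2) := by
    unfold W
    rw [Int.card_Ico]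
    omega
  rw [h4] at h3
  have h5 : (w - u : ℤ) ≤ ((w - u).toNat : ℤ) := Int.self_le_toNat _
  have h6 : (((w - u).toNat : ℕ) : ℝ) ≤ (P.A i ∩ Finset.Ico u w).card + 2 * P.w (i+2) := by
    exact_mod_cast h3
  have h7 : ((w - u : ℤ) : ℝ) ≤ (((w - u).toNat : ℕ) : ℝ) := by exact_mod_cast h5
  linarith

theorem r_pos {n : ℕ} (hn : 1 ≤ n) (i : ℕ) : 0 < P.r n i := by
  unfold r
  have : (0:ℝ) < n := by exact_mod_cast hn
  positivity

theorem r_sq (n i : ℕ) : P.r n i ^ 2 = n / 2^(2*P.β*i) := by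
  unfold r
  rw [div_pow, Real.sq_sqrt (Nat.cast_nonneg n), ← pow_mul]
  congr 2
  ring

/-- small ball estimate for a block -/
theorem Q_sb {n : ℕ} (hn : 1 ≤ n) (i : ℕ) (hi : i + 1 ≤ P.k) {u w : ℤ} (h1 : -(P.w i : ℤ) ≤ u)
    (h2 : w ≤ P.w i) (d : ℕ) (hd : P.w (i+1) ≤ d) (h3 : u + d ≤ w) (ρ m : ℝ) (hm : 0 < m)
    (hρ : 0 < ρ) (h : 6 * m^2 * ρ^2 ≤ n * (d * P.v)) (x : ℤ → E n) :
    Q n P.v (P.A i) {x | ‖S x w - S x u‖ ≤ ρ} x ≤ ENNReal.ofReal ((1/m)^n) := by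
  have hw1 := P.four_w (show i + 1 + 1 ≤ P.k + 1 by omega)
  have hv : (0:ℝ) ≤ P.v := P.v.2
  refine Q_small P.v (P.A i) (by omega) ρ ((d:ℝ)/2 * P.v) m hm hρ ?_ ?_ x
  · apply mul_le_mul_of_nonneg_right _ hv
    refine le_trans ?_ (P.card_inter i h1 h2)
    have e1 : (d : ℝ) ≤ ((w - u : ℤ) : ℝ) := by exact_mod_cast (by omega : (d : ℤ) ≤ w - u)
    have e2 : 4 * (P.w (i+2) : ℝ) ≤ P.w (i+1) := by exact_mod_cast hw1
    have e3 : (P.w (i+1) : ℝ) ≤ d := by exact_mod_cast hd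
    linarith
  · have : (n:ℝ) * ((d:ℝ)/2 * P.v) = n * (d * P.v) / 2 := by ring
    rw [this]
    linarith

theorem shell_sub (i : ℕ) (hi : i + 1 ≤ P.k) (j : ℤ)
    (h : (P.w (i+1) : ℤ) ≤ j ∧ j < P.w i ∨ -(P.w i : ℤ) ≤ j ∧ j < -(P.w (i+1) : ℤ)) : j ∈ P.A i := by
  have hw1 := P.four_w (show i + 1 + 1 ≤ P.k + 1 by omega)
  have hw2 : (4:ℤ) * P.w (i+2) ≤ P.w (i+1) := by exact_mod_cast hw1
  unfold A W
  rw [Finset.mem_sdiff, Finset.mem_Ico, Finset.mem_Ico]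
  omega

theorem scale_d {i l : ℕ} (hil : i + l ≤ P.k + 1) (hl : l ≤ P.k + 1) :
    (2:ℝ)^(P.Hd i l) * P.v = 1 / (2^(2*P.β*(i+l)) * 2^(11+l)) := by
  unfold Hd v
  have h1 := P.exp_le hil
  push_cast
  obtain ⟨c, hc⟩ : ∃ c, P.N = 2*P.β*(i+l) + (11 + l) + c := ⟨P.N - (2*P.β*(i+l) + (11 + l)), by omega⟩
  have e1 : P.N - 2*P.β*(i+l) - 11 - l = c := by omega
  rw [e1, hc, pow_add, pow_add]
  field_simp

theorem count_d {i l : ℕ} (hil : i + l ≤ P.k + 1) (hl : l ≤ P.k + 1) :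
    P.w i = 2^(23 + l + 2*P.β*l) * 2^(P.Hd i l) := by
  unfold Hd w
  have h1 := P.exp_le hil
  rw [← pow_add]
  congr 1
  have : 2*P.β*(i+l) = 2*P.β*i + 2*P.β*l := by ring
  omega

theorem exp_bound (n l : ℕ) : Real.exp (-(7 * (l:ℝ) * n)) ≤ (1/4 : ℝ)^(l*n) := by
  have h1 : Real.exp (-7) ≤ 1/4 := by
    rw [Real.exp_neg, one_div]
    apply inv_anti₀ (by norm_num)
    have := Real.add_one_le_exp (7:ℝ)
    linarith
  have h2 : Real.exp (-(7 * (l:ℝ) * n)) = (Real.exp (-7))^(l*n) := by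
    rw [← Real.exp_nat_mul]
    congr 1
    push_cast
    ring
  rw [h2]
  exact pow_le_pow_left₀ (Real.exp_pos _).le h1 _

theorem r_shift (n i j : ℕ) : P.r n (i + j) = P.r n i / 2^(P.β*j) := by
  unfold r
  rw [mul_add, pow_add, div_div]

theorem Q_OEd {n : ℕ} (hn : 2 ≤ n) (i l : ℕ) (hl : 1 ≤ l) (hil : i + l ≤ P.k) (x : ℤ → E n) :
    Q n P.v (P.A i) (OE n (P.w (i+1)) (P.w i) (P.Hd i l) (P.r n (i+l))) x ≤
      ENNReal.ofReal (2^(24 + l + 2*P.β*l) * (1/4 : ℝ)^(l*n)) := by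
  have hl' : (1:ℝ) ≤ l := by exact_mod_cast hl
  refine (Q_OE P.v_pos (P.r_pos (by omega) _).le (P.shell_sub i (by omega)) l hl' hn ?_ x).trans ?_
  · rw [P.scale_d (by omega) (by omega), P.r_sq]
    have h1 : (1152:ℝ) * l ≤ 2^(11+l) := by
      have : (l:ℝ) ≤ 2^l := by exact_mod_cast Nat.lt_two_pow_self.le
      rw [pow_add]
      norm_num
      linarith
    have h2 : (0:ℝ) < 2^(2*P.β*(i+l)) := by positivity
    have h3 : (0:ℝ) < 2^(11+l) := by positivity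
    rw [mul_one_div, div_le_div_iff₀ (by positivity) h2]
    have hn0 : (0:ℝ) ≤ n := Nat.cast_nonneg n
    calc 1152 * (l:ℝ) * n * 2^(2*P.β*(i+l)) = (1152 * l) * (n * 2^(2*P.β*(i+l))) := by ring
      _ ≤ 2^(11+l) * (n * 2^(2*P.β*(i+l))) := mul_le_mul_of_nonneg_right h1 (by positivity)
      _ = _ := by ring
  · apply ENNReal.ofReal_le_ofReal
    have h4 : (P.w i : ℝ) / 2^(P.Hd i l) = 2^(23 + l + 2*P.β*l) := by
      rw [P.count_d (show i + l ≤ P.k + 1 by omega) (by omega)]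
      push_cast
      field_simp
    rw [h4]
    have h5 := exp_bound n l
    calc 2 * (2:ℝ)^(23 + l + 2*P.β*l) * Real.exp (-(7 * (l:ℝ) * n))
        ≤ 2 * (2:ℝ)^(23 + l + 2*P.β*l) * (1/4 : ℝ)^(l*n) :=
          mul_le_mul_of_nonneg_left h5 (by positivity)
      _ = _ := by
          have : 24 + l + 2*P.β*l = (23 + l + 2*P.β*l) + 1 := by ring
          rw [this, pow_succ]
          ring

/-- anchors as endpoints -/
theorem Q_anc {n : ℕ} (hn : 1 ≤ n) (i H : ℕ) (hi : i + 1 ≤ P.k) {p : ℤ} (hp : p ∈ P.anc i H)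
    (d : ℕ) (hd : P.w (i+1) ≤ d) (hdp : (d : ℤ) ≤ |p|) (ρ m : ℝ) (hm : 0 < m)
    (hρ : 0 < ρ) (h : 6 * m^2 * ρ^2 ≤ n * (d * P.v)) (x : ℤ → E n) :
    Q n P.v (P.A i) {x | ‖S x p - S x 0‖ ≤ ρ} x ≤ ENNReal.ofReal ((1/m)^n) := by
  obtain ⟨h1, h2⟩ := P.anc_abs hp
  rcases le_total 0 p with hp0 | hp0
  · rw [abs_of_nonneg hp0] at h1 h2 hdp
    exact P.Q_sb hn i hi (by omega) h2 d hd (by omega) ρ m hm hρ h x
  · rw [abs_of_nonpos hp0] at h1 h2 hdp
    have e : {x : ℤ → E n | ‖S x p - S x 0‖ ≤ ρ} = {x | ‖S x 0 - S x p‖ ≤ ρ} := by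
      ext y
      simp only [Set.mem_ofPred_eq]
      rw [norm_sub_rev]
    rw [e]
    exact P.Q_sb hn i hi (by omega) (by omega) d hd (by omega) ρ m hm hρ h x

theorem card_anc_real {i l : ℕ} (hl : 1 ≤ l) (hil : i + l ≤ P.k) :
    ((P.anc i (P.Hd i l)).card : ℝ) ≤ 2^(25 + l + 2*P.β*l) := by
  have h1 := P.card_anc i (P.Hd i l)
  have h2 : P.w i / 2^(P.Hd i l) = 2^(23 + l + 2*P.β*l) := by
    rw [P.count_d (show i + l ≤ P.k + 1 by omega) (by omega)]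
    exact Nat.mul_div_cancel _ (by positivity)
  rw [h2] at h1
  have h3 : 1 ≤ 2^(23 + l + 2*P.β*l) := Nat.one_le_two_pow
  have h4 : (P.anc i (P.Hd i l)).card ≤ 2^(25 + l + 2*P.β*l) := by
    have : 25 + l + 2*P.β*l = (23 + l + 2*P.β*l) + 2 := by ring
    rw [this, pow_add]
    omega
  exact_mod_cast h4

theorem Q_SBd {n : ℕ} (hn : 2 ≤ n) (i l : ℕ) (hl : 1 ≤ l) (hil : i + l ≤ P.k) (x : ℤ → E n) :
    Q n P.v (P.A i) (P.SBd n i l) x ≤
      ENNReal.ofReal (2^(25 + l + 2*P.β*l) * (1/4 : ℝ)^(l*n)) := by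
  unfold SBd
  refine (Q_biUnion P.v (P.A i) _ _ x).trans ?_
  have hstep : ∀ p ∈ P.anc i (P.Hd i l), Q n P.v (P.A i)
      {x | ‖S x p - S x 0‖ ≤ 6 * P.r n (i+l)} x ≤ ENNReal.ofReal ((1/4 : ℝ)^(l*n)) := by
    intro p hp
    refine (P.Q_anc (by omega) i _ (by omega) hp (P.w (i+1)) le_rfl (P.anc_abs hp).1
      (6 * P.r n (i+l)) (4 * 2^(P.β*(l-1))) (by positivity)
      (by have := P.r_pos (show 1 ≤ n by omega) (i+l); positivity) ?_ x).trans ?_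
    · rw [P.w_real (by omega), mul_pow, mul_pow, P.r_sq]
      have e1 : 2*P.β*(i+l) = 2*P.β*(i+1) + 2*P.β*(l-1) := by
        have : i + l = i + 1 + (l-1) := by omega
        rw [this]; ring
      rw [e1, pow_add]
      have e2 : ((2:ℝ)^(P.β*(l-1)))^2 = 2^(2*P.β*(l-1)) := by rw [← pow_mul]; congr 1; ring
      rw [e2]
      have h2 : (0:ℝ) < 2^(2*P.β*(i+1)) := by positivity
      have h3 : (0:ℝ) < 2^(2*P.β*(l-1)) := by positivity
      have e3 : 6 * (4^2 * (2:ℝ)^(2*P.β*(l-1))) * (6^2 * (n / (2^(2*P.β*(i+1)) * 2^(2*P.β*(l-1))))) =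
          3456 * (n / 2^(2*P.β*(i+1))) := by
        field_simp
        norm_num
      have e4 : (n:ℝ) * (2^12 / 2^(2*P.β*(i+1))) = 4096 * (n / 2^(2*P.β*(i+1))) := by ring
      rw [e3, e4]
      apply mul_le_mul_of_nonneg_right (by norm_num)
      positivity
    · apply ENNReal.ofReal_le_ofReal
      rw [pow_mul (1/4:ℝ) l n]
      apply pow_le_pow_left₀ (by positivity)
      rw [one_div, one_div, inv_pow]
      apply inv_anti₀ (by positivity)
      have h5 : (4:ℝ)^(l-1) ≤ 2^(P.β*(l-1)) := by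
        have : (4:ℝ) = 2^2 := by norm_num
        rw [this, ← pow_mul]
        apply pow_le_pow_right₀ (by norm_num)
        exact Nat.mul_le_mul_right _ (by have := P.hβ; omega)
      calc (4:ℝ)^l = 4 * 4^(l-1) := by rw [← pow_succ']; congr 1; omega
        _ ≤ 4 * 2^(P.β*(l-1)) := by linarith
  refine (Finset.sum_le_sum hstep).trans ?_
  rw [Finset.sum_const, nsmul_eq_mul, ENNReal.ofReal_mul (by positivity)]
  apply mul_le_mul_left
  rw [← ENNReal.ofReal_natCast]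
  exact ENNReal.ofReal_le_ofReal (P.card_anc_real hl hil)

theorem Q_Fup {n : ℕ} (hn : 2 ≤ n) (i l : ℕ) (hl : 1 ≤ l) (hi : i + 1 ≤ P.k) (x : ℤ → E n) :
    Q n P.v (P.A i) (P.Fup n i l) x ≤ ENNReal.ofReal ((1/4 : ℝ)^(l*n)) := by
  unfold Fup
  have hl' : (1:ℝ) ≤ l := by exact_mod_cast hl
  have hr := P.r_pos (show 1 ≤ n by omega) i
  refine (Q_OE P.v_pos (by positivity) (P.shell_sub i (by omega)) l hl' hn ?_ x).trans ?_
  · have e1 : (2:ℝ)^(P.N + 13 - 2*P.β*i) * P.v = 2 * ((P.w i : ℝ) * P.v) := by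
      unfold w
      have h1 := P.exp_le (show i ≤ P.k + 1 by omega)
      have : P.N + 13 - 2*P.β*i = (P.N + 12 - 2*P.β*i) + 1 := by omega
      rw [this, pow_succ]
      push_cast
      ring
    rw [e1, P.w_real (by omega), mul_pow, mul_pow, P.r_sq]
    have h2 : (0:ℝ) < 2^(2*P.β*i) := by positivity
    have h3 : (l:ℝ) ≤ (((2:ℝ)^P.β / 2)^(l-1))^2 := by
      have h4 : (2:ℝ) ≤ (2:ℝ)^P.β / 2 := by
        rw [le_div_iff₀ (by norm_num)]
        have : (2:ℝ)^2 ≤ 2^P.β := pow_le_pow_right₀ (by norm_num) (by have := P.hβ; omega)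
        linarith
      have h5 : (2:ℝ)^(l-1) ≤ ((2:ℝ)^P.β / 2)^(l-1) := pow_le_pow_left₀ (by norm_num) h4 _
      have h6 : ((l - 1 : ℕ) : ℝ) + 1 ≤ 2^(l-1) := by exact_mod_cast Nat.lt_two_pow_self
      have h7 : ((l - 1 : ℕ) : ℝ) + 1 = l := by
        have : (l - 1) + 1 = l := by omega
        exact_mod_cast this
      have h8 : (1:ℝ) ≤ ((2:ℝ)^P.β / 2)^(l-1) := one_le_pow₀ (by linarith)
      nlinarith
    have e5 : 1152 * (l:ℝ) * n * (2 * (2^12 / 2^(2*P.β*i))) = l * (9437184 * (n / 2^(2*P.β*i))) := by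
      field_simp
      norm_num
    have e6 : 3072^2 * ((n:ℝ) / 2^(2*P.β*i)) * (((2:ℝ)^P.β / 2)^(l-1))^2 =
        (((2:ℝ)^P.β / 2)^(l-1))^2 * (9437184 * (n / 2^(2*P.β*i))) := by
      ring
    rw [e5, e6]
    exact mul_le_mul_of_nonneg_right h3 (by positivity)
  · apply ENNReal.ofReal_le_ofReal
    have h1 := P.exp_le (show i ≤ P.k + 1 by omega)
    have e1 : 2 * ((P.w i : ℝ) / 2^(P.N + 13 - 2*P.β*i)) = 1 := by
      unfold w
      have : P.N + 13 - 2*P.β*i = (P.N + 12 - 2*P.β*i) + 1 := by omega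
      rw [this, pow_succ]
      push_cast
      field_simp
    rw [e1, one_mul]
    exact exp_bound n l

theorem Q_Fown {n : ℕ} (hn : 2 ≤ n) (i : ℕ) (hi : i + 1 ≤ P.k) (x : ℤ → E n) :
    Q n P.v (P.A i) (P.Fown n i) x ≤ ENNReal.ofReal (2^(54 + 4*P.β) * (1/4 : ℝ)^n) := by
  unfold Fown
  have hβ := P.hβ
  -- first event
  have b1 : Q n P.v (P.A i) (OE n (P.w (i+1)) (P.w i) (P.Hk i) (P.r n i / 32)) x ≤
      ENNReal.ofReal (2^34 * (1/4 : ℝ)^n) := by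
    have hr := P.r_pos (show 1 ≤ n by omega) i
    refine (Q_OE P.v_pos (by positivity) (P.shell_sub i (by omega)) 1 le_rfl hn ?_ x).trans ?_
    · have h1 := P.exp_le (show i ≤ P.k + 1 by omega)
      have e1 : (2:ℝ)^(P.Hk i) * P.v = 1 / (2^(2*P.β*i) * 2^21) := by
        unfold Hk v
        push_cast
        obtain ⟨c, hc⟩ : ∃ c, P.N = 2*P.β*i + 21 + c := ⟨P.N - (2*P.β*i + 21), by omega⟩
        have e1 : P.N - 2*P.β*i - 21 = c := by omega
        rw [e1, hc, pow_add, pow_add]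
        field_simp
      rw [e1, div_pow, P.r_sq]
      have h2 : (0:ℝ) < 2^(2*P.β*i) := by positivity
      have e2 : 1152 * (1:ℝ) * n * (1 / (2^(2*P.β*i) * 2^21)) = (1152/2^21) * (n / 2^(2*P.β*i)) := by
        field_simp
      have e3 : (n:ℝ) / 2^(2*P.β*i) / 32^2 = (1/1024) * (n / 2^(2*P.β*i)) := by ring
      rw [e2, e3]
      apply mul_le_mul_of_nonneg_right (by norm_num)
      positivity
    · apply ENNReal.ofReal_le_ofReal
      have h1 := P.exp_le (show i ≤ P.k + 1 by omega)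
      have e1 : (P.w i : ℝ) / 2^(P.Hk i) = 2^33 := by
        unfold w Hk
        have : P.N + 12 - 2*P.β*i = (P.N - 2*P.β*i - 21) + 33 := by omega
        rw [this, pow_add]
        push_cast
        field_simp
        norm_num
      rw [e1]
      have h5 := exp_bound n 1
      rw [one_mul] at h5
      push_cast at h5
      calc _ ≤ 2 * (2:ℝ)^33 * (1/4 : ℝ)^n := mul_le_mul_of_nonneg_left h5 (by positivity)
        _ = _ := by ring
  have b2 := P.Q_OEd hn i 1 le_rfl (by omega) x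
  rw [one_mul] at b2
  have hcard := P.card_anc_real (i := i) (l := 1) le_rfl (by omega)
  have hspw : P.w (i+1) ≤ P.sp i := by
    unfold w sp
    exact Nat.pow_le_pow_right (by norm_num) (by omega)
  have hsp : (P.sp i : ℝ) * P.v = 2^32 / 2^(2*P.β*(i+1)) := by
    unfold sp v
    have h1 := P.exp_le (show i + 1 ≤ P.k + 1 by omega)
    push_cast
    obtain ⟨c, hc⟩ : ∃ c, P.N = 2*P.β*(i+1) + c := ⟨P.N - 2*P.β*(i+1), by omega⟩
    have e1 : P.N + 32 - 2*P.β*(i+1) = c + 32 := by omega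
    rw [e1, hc, pow_add, pow_add]
    field_simp
  have hr1 := P.r_pos (show 1 ≤ n by omega) (i+1)
  -- numerical condition
  have hnum : ∀ c : ℝ, 0 < c → c ≤ 6150 → 6 * (4:ℝ)^2 * (c * P.r n (i+1))^2 ≤ n * (P.sp i * P.v) := by
    intro c hc0 hc
    rw [hsp, mul_pow, P.r_sq]
    have h2 : (0:ℝ) < 2^(2*P.β*(i+1)) := by positivity
    have e4 : (n:ℝ) * (2^32 / 2^(2*P.β*(i+1))) = 4294967296 * (n / 2^(2*P.β*(i+1))) := by ring
    rw [e4]
    have e5 : 6 * (4:ℝ)^2 * (c^2 * (n / 2^(2*P.β*(i+1)))) = (96 * c^2) * (n / 2^(2*P.β*(i+1))) := by ring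
    rw [e5]
    apply mul_le_mul_of_nonneg_right _ (by positivity)
    nlinarith
  have b3 : Q n P.v (P.A i) (P.SBp n i) x ≤ ENNReal.ofReal ((2^(26 + 2*P.β))^2 * (1/4 : ℝ)^n) := by
    unfold SBp
    refine (Q_biUnion P.v (P.A i) _ _ x).trans ?_
    have hstep : ∀ pq ∈ ((P.anc i (P.Hd i 1)) ×ˢ (P.anc i (P.Hd i 1))).filter
        (fun pq : ℤ × ℤ => pq.1 + (P.sp i : ℤ) ≤ pq.2), Q n P.v (P.A i)
        {x | ‖S x pq.2 - S x pq.1‖ ≤ 7 * P.r n (i+1)} x ≤ ENNReal.ofReal ((1/4 : ℝ)^n) := by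
      intro pq hpq
      rw [Finset.mem_filter, Finset.mem_product] at hpq
      obtain ⟨⟨hp, hq⟩, hd⟩ := hpq
      have a1 := (P.anc_abs hp).2
      have a2 := (P.anc_abs hq).2
      rw [abs_le] at a1 a2
      exact P.Q_sb (by omega) i hi a1.1 a2.2 (P.sp i) hspw hd _ 4 (by norm_num) (by positivity)
        (hnum 7 (by norm_num) (by norm_num)) x
    refine (Finset.sum_le_sum hstep).trans ?_
    rw [Finset.sum_const, nsmul_eq_mul, ENNReal.ofReal_mul (by positivity)]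
    apply mul_le_mul_left
    rw [← ENNReal.ofReal_natCast]
    apply ENNReal.ofReal_le_ofReal
    have h1 : ((((P.anc i (P.Hd i 1)) ×ˢ (P.anc i (P.Hd i 1))).filter
        (fun pq : ℤ × ℤ => pq.1 + (P.sp i : ℤ) ≤ pq.2)).card : ℝ) ≤
        ((P.anc i (P.Hd i 1)).card : ℝ) * ((P.anc i (P.Hd i 1)).card : ℝ) := by
      rw [← Nat.cast_mul, ← Finset.card_product]
      exact_mod_cast Finset.card_filter_le _ _
    refine h1.trans ?_
    have e : 25 + 1 + 2*P.β*1 = 26 + 2*P.β := by ring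
    rw [e] at hcard
    rw [sq]
    exact mul_le_mul hcard hcard (Nat.cast_nonneg _) (by positivity)
  have b4 : Q n P.v (P.A i) (P.SBc n i) x ≤ ENNReal.ofReal (2^(26 + 2*P.β) * (1/4 : ℝ)^n) := by
    unfold SBc
    refine (Q_biUnion P.v (P.A i) _ _ x).trans ?_
    have hstep : ∀ p ∈ (P.anc i (P.Hd i 1)).filter (fun p : ℤ => (P.sp i : ℤ) ≤ |p|), Q n P.v (P.A i)
        {x | ‖S x p - S x 0‖ ≤ 6150 * P.r n (i+1)} x ≤ ENNReal.ofReal ((1/4 : ℝ)^n) := by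
      intro p hp
      rw [Finset.mem_filter] at hp
      exact P.Q_anc (by omega) i _ hi hp.1 (P.sp i) hspw hp.2 _ 4 (by norm_num) (by positivity)
        (hnum 6150 (by norm_num) le_rfl) x
    refine (Finset.sum_le_sum hstep).trans ?_
    rw [Finset.sum_const, nsmul_eq_mul, ENNReal.ofReal_mul (by positivity)]
    apply mul_le_mul_left
    rw [← ENNReal.ofReal_natCast]
    apply ENNReal.ofReal_le_ofReal
    have h1 : (((P.anc i (P.Hd i 1)).filter (fun p : ℤ => (P.sp i : ℤ) ≤ |p|)).card : ℝ) ≤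
        ((P.anc i (P.Hd i 1)).card : ℝ) := by
      exact_mod_cast Finset.card_filter_le _ _
    have e : 25 + 1 + 2*P.β*1 = 26 + 2*P.β := by ring
    rw [e] at hcard
    linarith
  have e2 : 24 + 1 + 2*P.β*1 = 25 + 2*P.β := by ring
  rw [e2] at b2
  refine (Q_union _ _ _ _ x).trans ?_
  refine (add_le_add ((Q_union _ _ _ _ x).trans (add_le_add b1 b2))
    ((Q_union _ _ _ _ x).trans (add_le_add b3 b4))).trans ?_
  rw [← ENNReal.ofReal_add (by positivity) (by positivity),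
    ← ENNReal.ofReal_add (by positivity) (by positivity),
    ← ENNReal.ofReal_add (by positivity) (by positivity)]
  apply ENNReal.ofReal_le_ofReal
  have hq : (0:ℝ) ≤ (1/4 : ℝ)^n := by positivity
  have e3 : (2:ℝ)^34 * (1/4 : ℝ)^n + 2^(25 + 2*P.β) * (1/4 : ℝ)^n + ((2^(26 + 2*P.β))^2 * (1/4 : ℝ)^n +
      2^(26 + 2*P.β) * (1/4 : ℝ)^n) =
      (2^34 + 2^(25 + 2*P.β) + (2^(26 + 2*P.β))^2 + 2^(26 + 2*P.β)) * (1/4 : ℝ)^n := by ring
  rw [e3]
  apply mul_le_mul_of_nonneg_right _ hq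
  have p1 : (2:ℝ)^34 ≤ 2^(52 + 4*P.β) := pow_le_pow_right₀ (by norm_num) (by omega)
  have p2 : (2:ℝ)^(25 + 2*P.β) ≤ 2^(52 + 4*P.β) := pow_le_pow_right₀ (by norm_num) (by omega)
  have p3 : ((2:ℝ)^(26 + 2*P.β))^2 = 2^(52 + 4*P.β) := by rw [← pow_mul]; congr 1; ring
  have p4 : (2:ℝ)^(26 + 2*P.β) ≤ 2^(52 + 4*P.β) := pow_le_pow_right₀ (by norm_num) (by omega)
  have p5 : (2:ℝ)^(54 + 4*P.β) = 4 * 2^(52 + 4*P.β) := by
    have : 54 + 4*P.β = (52 + 4*P.β) + 2 := by ring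
    rw [this, pow_add]; ring
  rw [p3, p5]
  linarith

/-- **conditional probabilities of the events of a block** -/
theorem Q_F {n : ℕ} (hn : 2 ≤ n) (i l : ℕ) (hl : 1 ≤ l) (hi : i + 1 ≤ P.k) (x : ℤ → E n) :
    Q n P.v (P.A i) (P.F n i l) x ≤ ENNReal.ofReal ((2^(57 + 4*P.β) * (1/4 : ℝ)^n)^l) := by
  have hβ := P.hβ
  unfold F
  have b1 : Q n P.v (P.A i) (if i + l ≤ P.k then P.Fdown n i l else ∅) x ≤
      ENNReal.ofReal (2^(24 + l + 2*P.β*l) * (1/4 : ℝ)^(l*n) +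
        2^(25 + l + 2*P.β*l) * (1/4 : ℝ)^(l*n)) := by
    split
    · rename_i hil
      unfold Fdown
      rw [ENNReal.ofReal_add (by positivity) (by positivity)]
      exact (Q_union _ _ _ _ x).trans
        (add_le_add (P.Q_OEd hn i l hl hil x) (P.Q_SBd hn i l hl hil x))
    · unfold Q
      simp
  have b3 := P.Q_Fup hn i l hl (by omega) x
  have b4 : Q n P.v (P.A i) (if l = 1 then P.Fown n i else ∅) x ≤
      ENNReal.ofReal (2^((54 + 4*P.β)*l) * (1/4 : ℝ)^(l*n)) := by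
    split
    · rename_i h
      subst h
      have := P.Q_Fown hn i (by omega) x
      rwa [mul_one, one_mul]
    · unfold Q
      simp
  refine (Q_union _ _ _ _ x).trans ?_
  refine (add_le_add ((Q_union _ _ _ _ x).trans (add_le_add b1 b3)) b4).trans ?_
  rw [← ENNReal.ofReal_add (by positivity) (by positivity),
    ← ENNReal.ofReal_add (by positivity) (by positivity)]
  apply ENNReal.ofReal_le_ofReal
  have e0 : ((2:ℝ)^(57 + 4*P.β) * (1/4 : ℝ)^n)^l = 2^((57 + 4*P.β)*l) * (1/4 : ℝ)^(l*n) := by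
    rw [mul_pow, ← pow_mul, ← pow_mul, mul_comm n l]
  rw [e0]
  have e3 : (2:ℝ)^(24 + l + 2*P.β*l) * (1/4 : ℝ)^(l*n) + 2^(25 + l + 2*P.β*l) * (1/4 : ℝ)^(l*n) +
      (1/4 : ℝ)^(l*n) + 2^((54 + 4*P.β)*l) * (1/4 : ℝ)^(l*n) =
      (2^(24 + l + 2*P.β*l) + 2^(25 + l + 2*P.β*l) + 1 + 2^((54 + 4*P.β)*l)) * (1/4 : ℝ)^(l*n) := by
    ring
  rw [e3]
  apply mul_le_mul_of_nonneg_right _ (by positivity)
  have h0 : (54 + 4*P.β)*l + 3 ≤ (57 + 4*P.β)*l := by nlinarith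
  have h1 : 25 + l + 2*P.β*l ≤ (54 + 4*P.β)*l := by nlinarith
  have p1 : (2:ℝ)^(24 + l + 2*P.β*l) ≤ 2^((54 + 4*P.β)*l) := pow_le_pow_right₀ (by norm_num) (by omega)
  have p2 : (2:ℝ)^(25 + l + 2*P.β*l) ≤ 2^((54 + 4*P.β)*l) := pow_le_pow_right₀ (by norm_num) (by omega)
  have p3 : (1:ℝ) ≤ 2^((54 + 4*P.β)*l) := one_le_pow₀ (by norm_num)
  have p4 : (2:ℝ)^((54 + 4*P.β)*l + 3) ≤ 2^((57 + 4*P.β)*l) := pow_le_pow_right₀ (by norm_num) h0
  have p5 : (2:ℝ)^((54 + 4*P.β)*l + 3) = 8 * 2^((54 + 4*P.β)*l) := by rw [pow_add]; ring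
  linarith

/-- probabilities of the events of the core -/
theorem Q_Fcore {n : ℕ} (hn : 2 ≤ n) (l : ℕ) (hl : 1 ≤ l) (x : ℤ → E n) :
    Q n P.v (P.W 0) (P.Fcore n l) x ≤ ENNReal.ofReal ((2^(57 + 4*P.β) * (1/4 : ℝ)^n)^l) := by
  unfold Fcore
  have hl' : (1:ℝ) ≤ l := by exact_mod_cast hl
  have hr := P.r_pos (show 1 ≤ n by omega) P.k
  have hsub : ∀ j : ℤ, ((0:ℕ) : ℤ) ≤ j ∧ j < P.w P.k ∨ -(P.w P.k : ℤ) ≤ j ∧ j < -((0:ℕ) : ℤ) →
      j ∈ P.W 0 := by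
    intro j hj
    have h1 : P.w P.k ≤ P.w 0 := by
      unfold w
      exact Nat.pow_le_pow_right (by norm_num) (by omega)
    have h2 : (P.w P.k : ℤ) ≤ P.w 0 := by exact_mod_cast h1
    unfold W
    rw [Finset.mem_Ico]
    push_cast at hj
    omega
  refine (Q_OE P.v_pos (by positivity) hsub l hl' hn ?_ x).trans ?_
  · have e1 : (2:ℝ)^(P.N + 13 - 2*P.β*P.k) * P.v = 2 * ((P.w P.k : ℝ) * P.v) := by
      unfold w
      have h1 := P.exp_le (show P.k ≤ P.k + 1 by omega)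
      have : P.N + 13 - 2*P.β*P.k = (P.N + 12 - 2*P.β*P.k) + 1 := by omega
      rw [this, pow_succ]
      push_cast
      ring
    rw [e1, P.w_real (by omega), mul_pow, mul_pow, P.r_sq]
    have h2 : (0:ℝ) < 2^(2*P.β*P.k) := by positivity
    have h3 : (l:ℝ) ≤ (((2:ℝ)^P.β / 2)^(l-1))^2 := by
      have h4 : (2:ℝ) ≤ (2:ℝ)^P.β / 2 := by
        rw [le_div_iff₀ (by norm_num)]
        have : (2:ℝ)^2 ≤ 2^P.β := pow_le_pow_right₀ (by norm_num) (by have := P.hβ; omega)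
        linarith
      have h5 : (2:ℝ)^(l-1) ≤ ((2:ℝ)^P.β / 2)^(l-1) := pow_le_pow_left₀ (by norm_num) h4 _
      have h6 : ((l - 1 : ℕ) : ℝ) + 1 ≤ 2^(l-1) := by exact_mod_cast Nat.lt_two_pow_self
      have h7 : ((l - 1 : ℕ) : ℝ) + 1 = l := by
        have : (l - 1) + 1 = l := by omega
        exact_mod_cast this
      have h8 : (1:ℝ) ≤ ((2:ℝ)^P.β / 2)^(l-1) := one_le_pow₀ (by linarith)
      nlinarith
    have e5 : 1152 * (l:ℝ) * n * (2 * (2^12 / 2^(2*P.β*P.k))) = l * (9437184 * (n / 2^(2*P.β*P.k))) := by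
      field_simp
      norm_num
    have e6 : 3072^2 * ((n:ℝ) / 2^(2*P.β*P.k)) * (((2:ℝ)^P.β / 2)^(l-1))^2 =
        (((2:ℝ)^P.β / 2)^(l-1))^2 * (9437184 * (n / 2^(2*P.β*P.k))) := by
      ring
    rw [e5, e6]
    exact mul_le_mul_of_nonneg_right h3 (by positivity)
  · apply ENNReal.ofReal_le_ofReal
    have h1 := P.exp_le (show P.k ≤ P.k + 1 by omega)
    have e1 : 2 * ((P.w P.k : ℝ) / 2^(P.N + 13 - 2*P.β*P.k)) = 1 := by
      unfold w
      have : P.N + 13 - 2*P.β*P.k = (P.N + 12 - 2*P.β*P.k) + 1 := by omega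
      rw [this, pow_succ]
      push_cast
      field_simp
    rw [e1, one_mul]
    refine (exp_bound n l).trans ?_
    have e0 : ((2:ℝ)^(57 + 4*P.β) * (1/4 : ℝ)^n)^l = 2^((57 + 4*P.β)*l) * (1/4 : ℝ)^(l*n) := by
      rw [mul_pow, ← pow_mul, ← pow_mul, mul_comm n l]
    rw [e0]
    have p3 : (1:ℝ) ≤ 2^((57 + 4*P.β)*l) := one_le_pow₀ (by norm_num)
    have : (0:ℝ) ≤ (1/4 : ℝ)^(l*n) := by positivity
    nlinarith

end Par

end Pool.Agent.R966.CD
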