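import Pool.Agent.R966.CD.Gauss

/-!
Conditional probabilities for the Gaussian walk with cells indexed by `ℤ`.
-/

set_option autoImplicit false

namespace Pool.Agent.R966.CD

open MeasureTheory ProbabilityTheory
open scoped NNReal ENNReal

variable {n : ℕ}

/-- the walk -/
noncomputable def S (x : ℤ → E n) (u : ℤ) : E n :=
  ∑ i ∈ Finset.Ico 0 u, x i - ∑ i ∈ Finset.Ico u 0, x i

theorem S_zero (x : ℤ → E n) : S x 0 = 0 := by simp [S]

theorem sum_Ico_add (x : ℤ → E n) {a b c : ℤ} (h1 : a ≤ b) (h2 : b ≤ c) :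
    ∑ i ∈ Finset.Ico a c, x i = ∑ i ∈ Finset.Ico a b, x i + ∑ i ∈ Finset.Ico b c, x i := by
  rw [← Finset.Ico_union_Ico_eq_Ico h1 h2, Finset.sum_union (Finset.Ico_disjoint_Ico_consecutive a b c)]

theorem S_sub (x : ℤ → E n) {u v : ℤ} (h : u ≤ v) : S x v - S x u = ∑ i ∈ Finset.Ico u v, x i := by
  unfold S
  rcases le_total 0 u with hu | hu
  · rw [Finset.Ico_eq_empty (show ¬ v < 0 by omega), Finset.Ico_eq_empty (show ¬ u < 0 by omega)]
    rw [sum_Ico_add x hu h]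
    simp
  · rcases le_total 0 v with hv | hv
    · rw [Finset.Ico_eq_empty (show ¬ v < 0 by omega), Finset.Ico_eq_empty (show ¬ 0 < u by omega)]
      rw [sum_Ico_add x hu hv]
      simp only [Finset.sum_empty, sub_zero, zero_sub, sub_neg_eq_add]
      rw [add_comm]
    · rw [Finset.Ico_eq_empty (show ¬ 0 < v by omega), Finset.Ico_eq_empty (show ¬ 0 < u by omega)]
      rw [sum_Ico_add x h hv]
      simp

theorem measurable_S (u : ℤ) : Measurable fun x : ℤ → E n => S x u := by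
  unfold S
  fun_prop

/-- the conditional probability of the event `s`, given the cells outside `A` -/
noncomputable def Q (n : ℕ) (v : ℝ≥0) (A : Finset ℤ) (s : Set (ℤ → E n)) (x : ℤ → E n) : ℝ≥0∞ :=
  Measure.pi (fun _ : A => gam n v) {y | Function.updateFinset x A y ∈ s}

theorem Q_eq (v : ℝ≥0) (A : Finset ℤ) (s : Set (ℤ → E n)) (hs : MeasurableSet s) (x : ℤ → E n) :
    (∫⋯∫⁻_A, s.indicator 1 ∂(fun _ => gam n v)) x = Q n v A s x := by
  unfold lmarginal Q
  have h1 : Measurable fun y : A → E n => Function.updateFinset x A y := measurable_updateFinset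
  exact lintegral_indicator_one (h1 hs)

theorem Q_mono (v : ℝ≥0) (A : Finset ℤ) {s t : Set (ℤ → E n)} (h : s ⊆ t) (x : ℤ → E n) :
    Q n v A s x ≤ Q n v A t x := measure_mono fun _ hy => h hy

theorem Q_union (v : ℝ≥0) (A : Finset ℤ) (s t : Set (ℤ → E n)) (x : ℤ → E n) :
    Q n v A (s ∪ t) x ≤ Q n v A s x + Q n v A t x := measure_union_le _ _

theorem Q_biUnion {ι : Type*} (v : ℝ≥0) (A : Finset ℤ) (F : Finset ι) (s : ι → Set (ℤ → E n))
    (x : ℤ → E n) : Q n v A (⋃ i ∈ F, s i) x ≤ ∑ i ∈ F, Q n v A (s i) x := by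
  unfold Q
  have : {y : A → E n | Function.updateFinset x A y ∈ ⋃ i ∈ F, s i} =
      ⋃ i ∈ F, {y | Function.updateFinset x A y ∈ s i} := by
    ext y; simp
  rw [this]
  exact measure_biUnion_finset_le F _

theorem lmarginal_const (v : ℝ≥0) (A : Finset ℤ) (c : ℝ≥0∞) (x : ℤ → E n) :
    (∫⋯∫⁻_A, (fun _ => c) ∂(fun _ => gam n v)) x = c := by
  unfold lmarginal
  rw [lintegral_const, measure_univ, mul_one]

/-- bounds for smaller sets of cells -/
theorem lmarginal_le_of_subset' (v : ℝ≥0) {A B : Finset ℤ} (h : B ⊆ A) (f : (ℤ → E n) → ℝ≥0∞)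
    (hf : Measurable f) (c : ℝ≥0∞) (hB : ∀ x, (∫⋯∫⁻_B, f ∂(fun _ => gam n v)) x ≤ c)
    (x : ℤ → E n) : (∫⋯∫⁻_A, f ∂(fun _ => gam n v)) x ≤ c := by
  have h1 := lmarginal_le_of_subset (μ := fun _ : ℤ => gam n v) h hf
    (measurable_const (a := c)) (by
      intro y
      rw [lmarginal_const]
      exact hB y)
  exact (h1 x).trans (le_of_eq (lmarginal_const v A c x))

/-- small ball estimate -/
theorem Q_small (v : ℝ≥0) (A : Finset ℤ) {u w : ℤ} (huw : u ≤ w) (ρ a m : ℝ) (hm : 0 < m)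
    (hρ : 0 < ρ) (ha : a ≤ ((A ∩ Finset.Ico u w).card : ℝ) * v) (h : 3 * m^2 * ρ^2 ≤ n * a)
    (x : ℤ → E n) : Q n v A {x | ‖S x w - S x u‖ ≤ ρ} x ≤ ENNReal.ofReal ((1/m)^n) := by
  have hmeas : MeasurableSet {x : ℤ → E n | ‖S x w - S x u‖ ≤ ρ} :=
    measurableSet_le ((measurable_S w).sub (measurable_S u)).norm measurable_const
  rw [← Q_eq v A _ hmeas]
  obtain ⟨l, hl⟩ : ∃ l : ℝ, l = n / (2 * ρ^2) := ⟨_, rfl⟩
  have hl0 : 0 ≤ l := by rw [hl]; positivity
  have hle : ({x : ℤ → E n | ‖S x w - S x u‖ ≤ ρ}.indicator 1 : (ℤ → E n) → ℝ≥0∞) ≤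
      fun x => ENNReal.ofReal (Real.exp (l * ρ^2)) * Φ l (Finset.Ico u w) 0 x := by
    intro y
    by_cases hy : ‖S y w - S y u‖ ≤ ρ
    · rw [Set.indicator_of_mem (by exact hy)]
      unfold Φ
      beta_reduce
      rw [← ENNReal.ofReal_mul (Real.exp_pos _).le, ← Real.exp_add, zero_add, ← S_sub y huw,
        Pi.one_apply, ← ENNReal.ofReal_one]
      apply ENNReal.ofReal_le_ofReal
      apply Real.one_le_exp
      have : ‖S y w - S y u‖^2 ≤ ρ^2 := pow_le_pow_left₀ (norm_nonneg _) hy 2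
      nlinarith
    · rw [Set.indicator_of_notMem (by exact hy)]
      exact zero_le
  refine (lmarginal_mono hle x).trans ?_
  refine lmarginal_le_of_subset' v (Finset.inter_subset_left (s₂ := Finset.Ico u w)) _
    ((measurable_Φ _ _ _).const_mul _) _ (fun y => ?_) x
  have h1 := lmarginal_Φ_le v (Finset.Ico u w) A l hl0 y (0 : E n)
  have h2 : (∫⋯∫⁻_(A ∩ Finset.Ico u w), (fun x => ENNReal.ofReal (Real.exp (l * ρ^2)) *
      Φ l (Finset.Ico u w) 0 x) ∂(fun _ => gam n v)) y = ENNReal.ofReal (Real.exp (l * ρ^2)) *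
      (∫⋯∫⁻_(A ∩ Finset.Ico u w), Φ l (Finset.Ico u w) 0 ∂(fun _ => gam n v)) y := by
    unfold lmarginal
    rw [lintegral_const_mul]
    exact (measurable_Φ _ _ _).comp measurable_updateFinset
  rw [h2]
  refine (mul_le_mul_right h1 _).trans ?_
  rw [← ENNReal.ofReal_mul (Real.exp_pos _).le]
  apply ENNReal.ofReal_le_ofReal
  rcases Nat.eq_zero_or_pos n with hn | hn
  · subst hn
    simp [hl]
  have hn' : (0:ℝ) < n := by exact_mod_cast hn
  have e1 : l * ρ^2 = n * (1/2) := by rw [hl]; field_simp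
  rw [e1, Real.exp_nat_mul, ← mul_pow]
  apply pow_le_pow_left₀ (by positivity)
  -- one factor
  have h3 : Real.exp (1/2) ≤ Real.sqrt 3 := by
    apply Real.le_sqrt_of_sq_le
    rw [← Real.exp_nat_mul]
    norm_num
    exact Real.exp_one_lt_d9.le.trans (by norm_num)
  have h4 : Real.sqrt 3 * m ≤ Real.sqrt (1 + 2*l*(((A ∩ Finset.Ico u w).card : ℝ) * v)) := by
    apply Real.le_sqrt_of_sq_le
    rw [mul_pow, Real.sq_sqrt (by norm_num)]
    have h5 : 2 * l * a ≤ 2*l*(((A ∩ Finset.Ico u w).card : ℝ) * v) :=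
      mul_le_mul_of_nonneg_left ha (by positivity)
    have h6 : 3 * m^2 ≤ 2 * l * a := by
      rw [hl]
      have : 2 * (n / (2 * ρ^2)) * a = n * a / ρ^2 := by field_simp
      rw [this, le_div_iff₀ (by positivity)]
      exact h
    linarith
  rw [mul_inv_le_iff₀ (by
    have : 0 < Real.sqrt 3 * m := by positivity
    linarith)]
  have h7 : 1 / m * (Real.sqrt 3 * m) = Real.sqrt 3 := by field_simp
  calc Real.exp (1/2) ≤ Real.sqrt 3 := h3
    _ = 1 / m * (Real.sqrt 3 * m) := h7.symm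
    _ ≤ _ := mul_le_mul_of_nonneg_left h4 (by positivity)

/-- large deviation estimate -/
theorem Q_large (v : ℝ≥0) (hv : 0 < v) (A : Finset ℤ) {u w : ℤ} (huw : u < w)
    (hA : Finset.Ico u w ⊆ A) (ρ : ℝ) (hρ : 0 ≤ ρ) (x : ℤ → E n) :
    Q n v A {x | ρ ≤ ‖S x w - S x u‖} x ≤
      ENNReal.ofReal (Real.exp (n/2) * Real.exp (-(ρ^2 / (4 * ((w - u : ℤ) * v))))) := by
  have hmeas : MeasurableSet {x : ℤ → E n | ρ ≤ ‖S x w - S x u‖} :=
    measurableSet_le measurable_const ((measurable_S w).sub (measurable_S u)).norm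
  rw [← Q_eq v A _ hmeas]
  have hv' : (0:ℝ) < v := hv
  have hwu : (0:ℝ) < ((w - u : ℤ) : ℝ) := by exact_mod_cast (by omega : 0 < w - u)
  obtain ⟨l, hl⟩ : ∃ l : ℝ, l = 1 / (4 * ((w - u : ℤ) * v)) := ⟨_, rfl⟩
  have hl0 : 0 ≤ l := by rw [hl]; positivity
  have hcard : ((Finset.Ico u w).card : ℝ) = ((w - u : ℤ) : ℝ) := by
    rw [Int.card_Ico]
    have : ((w - u).toNat : ℤ) = w - u := Int.toNat_of_nonneg (by omega)
    exact_mod_cast this
  have hle : ({x : ℤ → E n | ρ ≤ ‖S x w - S x u‖}.indicator 1 : (ℤ → E n) → ℝ≥0∞) ≤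
      fun x => ENNReal.ofReal (Real.exp (-(l * ρ^2))) * Φ (-l) (Finset.Ico u w) 0 x := by
    intro y
    by_cases hy : ρ ≤ ‖S y w - S y u‖
    · rw [Set.indicator_of_mem (by exact hy)]
      unfold Φ
      beta_reduce
      rw [← ENNReal.ofReal_mul (Real.exp_pos _).le, ← Real.exp_add, zero_add, ← S_sub y huw.le,
        Pi.one_apply, ← ENNReal.ofReal_one]
      apply ENNReal.ofReal_le_ofReal
      apply Real.one_le_exp
      have : ρ^2 ≤ ‖S y w - S y u‖^2 := pow_le_pow_left₀ hρ hy 2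
      nlinarith
    · rw [Set.indicator_of_notMem (by exact hy)]
      exact zero_le
  refine (lmarginal_mono hle x).trans ?_
  refine lmarginal_le_of_subset' v hA _ ((measurable_Φ _ _ _).const_mul _) _ (fun y => ?_) x
  have hcond : 1 + 2*(-l)*((Finset.Ico u w).card * v) = 1/2 := by
    rw [hcard, hl]
    field_simp
    norm_num
  have h1 := lmarginal_Φ v (Finset.Ico u w) (Finset.Ico u w) subset_rfl (-l) (by
    rw [hcond]; norm_num) y (0 : E n)
  have h2 : (∫⋯∫⁻_(Finset.Ico u w), (fun x => ENNReal.ofReal (Real.exp (-(l * ρ^2))) *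
      Φ (-l) (Finset.Ico u w) 0 x) ∂(fun _ => gam n v)) y = ENNReal.ofReal (Real.exp (-(l * ρ^2))) *
      (∫⋯∫⁻_(Finset.Ico u w), Φ (-l) (Finset.Ico u w) 0 ∂(fun _ => gam n v)) y := by
    unfold lmarginal
    rw [lintegral_const_mul]
    exact (measurable_Φ _ _ _).comp measurable_updateFinset
  rw [h2, h1, hcond, Finset.sdiff_self, Finset.sum_empty, add_zero, norm_zero]
  simp only [ne_eq, OfNat.ofNat_ne_zero, not_false_eq_true, zero_pow, mul_zero, zero_div,
    Real.exp_zero, ENNReal.ofReal_one, mul_one]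
  rw [← ENNReal.ofReal_mul (Real.exp_pos _).le, mul_comm]
  apply ENNReal.ofReal_le_ofReal
  have e2 : l * ρ^2 = ρ^2 / (4 * ((w - u : ℤ) * v)) := by rw [hl]; ring
  rw [e2]
  apply mul_le_mul_of_nonneg_right _ (Real.exp_pos _).le
  have e3 : Real.exp ((n:ℝ)/2) = (Real.exp (1/2))^n := by
    rw [← Real.exp_nat_mul]; congr 1; ring
  rw [e3]
  apply pow_le_pow_left₀ (by positivity)
  rw [one_div, Real.sqrt_inv, inv_inv, ← one_div]
  have h5 : (2:ℝ) ≤ (Real.exp (1/2))^2 := by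
    rw [← Real.exp_nat_mul]
    norm_num
    exact (by norm_num : (2:ℝ) ≤ 2.7182818283).trans Real.exp_one_gt_d9.le
  exact Real.sqrt_le_iff.mpr ⟨(Real.exp_pos _).le, h5⟩

end Pool.Agent.R966.CD
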