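import Mathlib

/-!
Chain metrics from scale weights (deterministic part).
-/

set_option autoImplicit false

namespace Pool.Agent.R966.CD

open List

variable {X : Type*} [MetricSpace X]

/-- consecutive distances at most `a` -/
def Steps (a : ℝ) : X → List X → Prop
  | _, [] => True
  | x, y :: L => dist x y ≤ a ∧ Steps a y L

/-- last element of `x :: L` -/
def lst : X → List X → X
  | x, [] => x
  | _, y :: L => lst y L

theorem steps_append {a : ℝ} (x : X) (L : List X) (z : X) (M : List X) :
    Steps a x (L ++ z :: M) ↔ Steps a x L ∧ dist (lst x L) z ≤ a ∧ Steps a z M := by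
  induction L generalizing x with
  | nil => simp [Steps, lst]
  | cons y L ih => simp only [List.cons_append, Steps, lst, ih, and_assoc]

omit [MetricSpace X] in
theorem lst_append (x : X) (L : List X) (z : X) (M : List X) :
    lst x (L ++ z :: M) = lst z M := by
  induction L generalizing x with
  | nil => rfl
  | cons y L ih => exact ih y

omit [MetricSpace X] in
theorem lst_mem (x : X) (L : List X) : lst x L = x ∨ lst x L ∈ L := by
  induction L generalizing x with
  | nil => left; rfl
  | cons y L ih =>
    right
    rcases ih y with h | h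
    · simp only [lst]; rw [h]; simp
    · simp only [lst]; exact List.mem_cons_of_mem _ h

/-- scale weights -/
structure Wt (X : Type*) [MetricSpace X] where
  R : ℝ
  b : ℝ
  p : ℕ → X → ℝ
  lo : ℝ
  hi : ℝ
  hR : 0 < R
  hb : 11 ≤ b
  hlo : 0 < lo
  hhi : hi < 1
  p0 : ∀ x, p 0 x = 1
  step_lo : ∀ k x, lo * p k x ≤ p (k+1) x
  step_hi : ∀ k x, p (k+1) x ≤ hi * p k x
  qc : ∀ k x y, dist x y ≤ 4 * (R / b^k) → p k x ≤ 2 * p k y
  ch : ∀ k x (L : List X), Steps (4 * (R/b^(k+1))) x L → (∀ z ∈ L, dist x z ≤ 2 * (R/b^k)) →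
    R/b^k ≤ dist x (lst x L) → p k x ≤ p (k+1) x + (L.map (p (k+1))).sum

namespace Wt

variable (W : Wt X)

/-- radii -/
noncomputable def r (k : ℕ) : ℝ := W.R / W.b^k

theorem b_pos : 0 < W.b := by linarith [W.hb]

theorem r_pos (k : ℕ) : 0 < W.r k := div_pos W.hR (pow_pos W.b_pos k)

theorem r_succ (k : ℕ) : W.r k = W.b * W.r (k+1) := by
  unfold r
  have := W.b_pos
  rw [pow_succ]
  field_simp

theorem r_11 (k : ℕ) : 11 * W.r (k+1) ≤ W.r k := by
  rw [W.r_succ k]
  exact mul_le_mul_of_nonneg_right W.hb (W.r_pos _).le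

theorem r_anti {k l : ℕ} (h : k ≤ l) : W.r l ≤ W.r k := by
  induction l, h using Nat.le_induction with
  | base => exact le_rfl
  | succ l _ ih => linarith [W.r_11 l, W.r_pos (l+1)]

theorem p_pos (k : ℕ) (x : X) : 0 < W.p k x := by
  induction k with
  | zero => rw [W.p0]; exact one_pos
  | succ k ih => exact lt_of_lt_of_le (mul_pos W.hlo ih) (W.step_lo k x)

theorem hi_pos [Nonempty X] : 0 < W.hi := by
  obtain ⟨x⟩ := ‹Nonempty X›
  by_contra h
  have h1 := W.step_hi 0 x
  have h2 := W.p_pos 1 x
  have h3 : W.hi * W.p 0 x ≤ 0 := mul_nonpos_of_nonpos_of_nonneg (not_lt.mp h) (W.p_pos 0 x).le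
  simp only [zero_add] at h1
  linarith

theorem p_anti {k l : ℕ} (h : k ≤ l) (x : X) : W.p l x ≤ W.p k x := by
  induction l, h using Nat.le_induction with
  | base => exact le_rfl
  | succ l _ ih =>
    have h1 := W.step_hi l x
    have h2 : W.hi * W.p l x ≤ 1 * W.p l x :=
      mul_le_mul_of_nonneg_right W.hhi.le (W.p_pos l x).le
    linarith

/-! ### generalized chains -/

/-- adjacency at resolution `K` -/
def Adj (K : ℕ) (e f : X × ℕ) : Prop := dist e.1 f.1 ≤ W.r e.2 + W.r f.2 + 2 * W.r K

/-- chains at resolution `K` -/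
def Ch (K : ℕ) : X × ℕ → List (X × ℕ) → Prop
  | _, [] => True
  | e, f :: L => W.Adj K e f ∧ Ch K f L

/-- cost -/
def cost (L : List (X × ℕ)) : ℝ := (L.map (fun e => W.p e.2 e.1)).sum

/-- last element -/
def lst2 : X × ℕ → List (X × ℕ) → X × ℕ
  | e, [] => e
  | _, f :: L => lst2 f L

omit [MetricSpace X] in
theorem lst2_append (e : X × ℕ) (L : List (X × ℕ)) (f : X × ℕ) (M : List (X × ℕ)) :
    lst2 e (L ++ f :: M) = lst2 f M := by
  induction L generalizing e with
  | nil => rfl
  | cons y L ih => exact ih y

theorem ch_append (K : ℕ) (e : X × ℕ) (L : List (X × ℕ)) (f : X × ℕ) (M : List (X × ℕ)) :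
    W.Ch K e (L ++ f :: M) ↔ W.Ch K e (L ++ [f]) ∧ W.Ch K f M := by
  induction L generalizing e with
  | nil => simp [Ch]
  | cons y L ih => simp only [List.cons_append, Ch]; rw [ih y]; tauto

theorem cost_append (L M : List (X × ℕ)) : W.cost (L ++ M) = W.cost L + W.cost M := by
  unfold cost; rw [List.map_append, List.sum_append]

theorem cost_cons (e : X × ℕ) (M : List (X × ℕ)) : W.cost (e :: M) = W.p e.2 e.1 + W.cost M := by
  unfold cost; rw [List.map_cons, List.sum_cons]

theorem cost_nonneg (L : List (X × ℕ)) : 0 ≤ W.cost L := by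
  unfold cost
  apply List.sum_nonneg
  intro a ha
  rw [List.mem_map] at ha
  obtain ⟨e, -, rfl⟩ := ha
  exact (W.p_pos _ _).le

theorem sum_p_nonneg (k : ℕ) (L : List X) : 0 ≤ (L.map (W.p k)).sum := by
  apply List.sum_nonneg
  intro a ha
  rw [List.mem_map] at ha
  obtain ⟨e, -, rfl⟩ := ha
  exact (W.p_pos _ _).le

omit [MetricSpace X] in
theorem first_exit (P : X → Prop) (L : List X) :
    (∀ z ∈ L, ¬ P z) ∨ ∃ A z B, L = A ++ z :: B ∧ (∀ w ∈ A, ¬ P w) ∧ P z := by
  induction L with
  | nil => left; simp
  | cons y L ih =>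
    by_cases hy : P y
    · right
      exact ⟨[], y, L, rfl, by simp, hy⟩
    · rcases ih with h | ⟨A, z, B, h1, h2, h3⟩
      · left
        intro z hz
        rcases List.mem_cons.mp hz with rfl | hz
        · exact hy
        · exact h z hz
      · right
        refine ⟨y :: A, z, B, by rw [h1]; rfl, ?_, h3⟩
        intro w hw
        rcases List.mem_cons.mp hw with rfl | hw
        · exact hy
        · exact h2 w hw

/-- coarse-graining of a run of level `k+1` elements -/
theorem run (k : ℕ) : ∀ (n : ℕ) (L : List X), L.length = n → ∀ (e f : X × ℕ) (y : X),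
    Steps (4 * W.r (k+1)) y L → dist e.1 y ≤ W.r e.2 + 8 * W.r (k+1) →
    dist (lst y L) f.1 ≤ W.r f.2 + 3 * W.r (k+1) →
    ∃ M : List (X × ℕ), (∀ g ∈ M, g.2 = k) ∧ W.Ch k e (M ++ [f]) ∧
      W.cost M ≤ W.p (k+1) y + (L.map (W.p (k+1))).sum := by
  intro n
  induction n using Nat.strong_induction_on with
  | _ n ih =>
    intro L hL e f y hS h1 h2
    have h11 := W.r_11 k
    have hr := W.r_pos (k+1)
    have hrk := W.r_pos k
    rcases first_exit (fun z => W.r k ≤ dist y z) L with h | ⟨A, z, B, hAB, hA, hz⟩
    · refine ⟨[], by simp, ?_, ?_⟩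
      · simp only [List.nil_append, Ch, Adj, and_true]
        have h3 : dist y (lst y L) ≤ W.r k := by
          rcases lst_mem y L with h4 | h4
          · rw [h4, dist_self]; exact hrk.le
          · exact (not_le.mp (h _ h4)).le
        have h4 := dist_triangle e.1 y f.1
        have h5 := dist_triangle y (lst y L) f.1
        linarith
      · simp only [cost, List.map_nil, List.sum_nil]
        exact add_nonneg (W.p_pos _ _).le (W.sum_p_nonneg _ _)
    · have hS' := hS
      rw [hAB, steps_append] at hS'
      obtain ⟨s1, s2, s3⟩ := hS'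
      have hlA : dist y (lst y A) ≤ W.r k := by
        rcases lst_mem y A with h4 | h4
        · rw [h4, dist_self]; exact hrk.le
        · exact (not_le.mp (hA _ h4)).le
      have hyz : dist y z ≤ W.r k + 4 * W.r (k+1) := by
        have := dist_triangle y (lst y A) z
        linarith
      have hch := W.ch k y (A ++ [z]) (by
        rw [steps_append]; exact ⟨s1, s2, trivial⟩) (by
        intro w hw
        rw [List.mem_append] at hw
        have e0 : W.R / W.b^k = W.r k := rfl
        rw [e0]
        rcases hw with hw | hw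
        · have := not_le.mp (hA w hw)
          linarith
        · rw [List.mem_singleton] at hw
          rw [hw]
          linarith) (by
        rw [lst_append]; exact hz)
      have hcost : W.p k y ≤ W.p (k+1) y + (A.map (W.p (k+1))).sum + W.p (k+1) z := by
        rw [List.map_append, List.sum_append] at hch
        simp only [List.map_cons, List.map_nil, List.sum_cons, List.sum_nil, add_zero] at hch
        linarith
      have hsumL : (L.map (W.p (k+1))).sum =
          (A.map (W.p (k+1))).sum + (W.p (k+1) z + (B.map (W.p (k+1))).sum) := by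
        rw [hAB, List.map_append, List.sum_append, List.map_cons, List.sum_cons]
      cases B with
      | nil =>
        refine ⟨[(y, k)], by simp, ?_, ?_⟩
        · simp only [List.cons_append, List.nil_append, Ch, Adj, and_true]
          have h6 : lst y L = z := by rw [hAB, lst_append]; rfl
          rw [h6] at h2
          have := dist_triangle y z f.1
          constructor
          · linarith
          · linarith
        · rw [hsumL]
          simp only [cost, List.map_cons, List.map_nil, List.sum_cons, List.sum_nil, add_zero]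
          linarith
      | cons u B =>
        have s3' : dist z u ≤ 4 * W.r (k+1) ∧ Steps (4 * W.r (k+1)) u B := s3
        obtain ⟨M, m1, m2, m3⟩ := ih B.length (by
          rw [← hL, hAB, List.length_append, List.length_cons, List.length_cons]; omega) B rfl
          (y, k) f u s3'.2 (by
            show dist y u ≤ W.r k + 8 * W.r (k+1)
            have := dist_triangle y z u
            linarith [s3'.1]) (by
            have h6 : lst y L = lst u B := by rw [hAB, lst_append]; rfl
            rw [← h6]; exact h2)
        refine ⟨(y, k) :: M, ?_, ?_, ?_⟩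
        · intro g hg
          rcases List.mem_cons.mp hg with rfl | hg
          · rfl
          · exact m1 g hg
        · simp only [List.cons_append, Ch]
          refine ⟨?_, m2⟩
          show dist e.1 y ≤ W.r e.2 + W.r k + 2 * W.r k
          linarith
        · rw [W.cost_cons, hsumL, List.map_cons, List.sum_cons]
          simp only
          linarith

omit [MetricSpace X] in
/-- split off a maximal run of level `k+1` -/
theorem split_run (k : ℕ) : ∀ (L : List (X × ℕ)) (e : X × ℕ), e.2 = k + 1 → (∀ g ∈ L, g.2 ≤ k + 1) →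
    (lst2 e L).2 ≤ k → ∃ (A : List X) (f : X × ℕ) (B : List (X × ℕ)),
      L = A.map (fun z => (z, k+1)) ++ f :: B ∧ f.2 ≤ k := by
  intro L
  induction L with
  | nil =>
    intro e he _ hl
    simp only [lst2] at hl
    omega
  | cons g L ih =>
    intro e he hg hl
    by_cases h : g.2 ≤ k
    · exact ⟨[], g, L, rfl, h⟩
    · have hg1 := hg g (List.mem_cons_self)
      have hg2 : g.2 = k + 1 := by omega
      obtain ⟨A, f, B, h1, h2⟩ := ih g hg2 (fun x hx => hg x (List.mem_cons_of_mem _ hx)) hl
      refine ⟨g.1 :: A, f, B, ?_, h2⟩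
      rw [h1]
      have : g = (g.1, k+1) := by rw [← hg2]
      simp only [List.map_cons, List.cons_append]
      rw [← this]

theorem adj_mono {k : ℕ} {e f : X × ℕ} (h : W.Adj (k+1) e f) : W.Adj k e f := by
  unfold Adj at *
  linarith [W.r_11 k, W.r_pos (k+1)]

theorem steps_of_ch (k : ℕ) (y : X) (A : List X) (f : X × ℕ) (B : List (X × ℕ))
    (h : W.Ch (k+1) (y, k+1) (A.map (fun z => (z, k+1)) ++ f :: B)) :
    Steps (4 * W.r (k+1)) y A ∧ dist (lst y A) f.1 ≤ W.r f.2 + 3 * W.r (k+1) ∧
      W.Ch (k+1) f B := by
  induction A generalizing y with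
  | nil =>
    simp only [List.map_nil, List.nil_append, Ch, Adj] at h
    refine ⟨trivial, ?_, h.2⟩
    have := h.1
    simp only [lst]
    linarith
  | cons z A ih =>
    simp only [List.map_cons, List.cons_append, Ch, Adj] at h
    obtain ⟨a1, a2, a3⟩ := ih z h.2
    refine ⟨⟨?_, a1⟩, a2, a3⟩
    linarith [h.1]

theorem step (k0 k : ℕ) : ∀ (n : ℕ) (L : List (X × ℕ)), L.length = n → ∀ (e : X × ℕ), e.2 ≤ k →
    k0 ≤ k → (∀ g ∈ L, k0 ≤ g.2 ∧ g.2 ≤ k + 1) → (lst2 e L).2 ≤ k → W.Ch (k+1) e L →
    ∃ M : List (X × ℕ), (∀ g ∈ M, k0 ≤ g.2 ∧ g.2 ≤ k) ∧ W.Ch k e M ∧ lst2 e M = lst2 e L ∧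
      W.cost M ≤ W.cost L := by
  intro n
  induction n using Nat.strong_induction_on with
  | _ n ih =>
    intro L hL e he hk0 hg hl hC
    cases L with
    | nil => exact ⟨[], by simp, trivial, rfl, le_rfl⟩
    | cons f L =>
      by_cases hf : f.2 ≤ k
      · obtain ⟨M, m1, m2, m3, m4⟩ := ih L.length (by rw [← hL]; simp) L rfl f hf hk0
          (fun g h => hg g (List.mem_cons_of_mem _ h)) hl hC.2
        refine ⟨f :: M, ?_, ⟨W.adj_mono hC.1, m2⟩, m3, ?_⟩
        · intro g hgm
          rcases List.mem_cons.mp hgm with rfl | hgm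
          · exact ⟨(hg _ (List.mem_cons_self)).1, hf⟩
          · exact m1 g hgm
        · rw [W.cost_cons, W.cost_cons]
          linarith
      · have hf1 := (hg f (List.mem_cons_self)).2
        have hf2 : f.2 = k + 1 := by omega
        obtain ⟨A, h, B, hAB, hh⟩ := split_run k L f hf2
          (fun g hgm => (hg g (List.mem_cons_of_mem _ hgm)).2) hl
        have hfe : f = (f.1, k+1) := by rw [← hf2]
        have hC2 : W.Ch (k+1) (f.1, k+1) (A.map (fun z => (z, k+1)) ++ h :: B) := by
          rw [← hfe, ← hAB]; exact hC.2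
        obtain ⟨a1, a2, a3⟩ := W.steps_of_ch k f.1 A h B hC2
        obtain ⟨M, m1, m2, m3⟩ := W.run k A.length A rfl e h f.1 a1 (by
          have h0 : dist e.1 f.1 ≤ W.r e.2 + W.r f.2 + 2 * W.r (k+1) := hC.1
          rw [hf2] at h0
          linarith [W.r_pos (k+1)]) a2
        have hlen : B.length < n := by
          rw [← hL, hAB, List.length_cons, List.length_append, List.length_cons]; omega
        obtain ⟨M', q1, q2, q3, q4⟩ := ih B.length hlen B rfl h hh hk0
          (fun g hgm => hg g (by
            rw [hAB]; apply List.mem_cons_of_mem; apply List.mem_append_right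
            exact List.mem_cons_of_mem _ hgm)) (by
            have : lst2 e (f :: L) = lst2 h B := by
              show lst2 f L = _
              rw [hAB, lst2_append]
            rw [← this]; exact hl) a3
        refine ⟨M ++ h :: M', ?_, ?_, ?_, ?_⟩
        · intro g hgm
          rw [List.mem_append] at hgm
          rcases hgm with hgm | hgm
          · rw [m1 g hgm]; exact ⟨hk0, le_rfl⟩
          · rcases List.mem_cons.mp hgm with rfl | hgm
            · refine ⟨(hg _ ?_).1, hh⟩
              rw [hAB]; apply List.mem_cons_of_mem; apply List.mem_append_right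
              exact List.mem_cons_self
            · exact q1 g hgm
        · rw [W.ch_append]; exact ⟨m2, q2⟩
        · rw [lst2_append, q3]
          show _ = lst2 f L
          rw [hAB, lst2_append]
        · rw [W.cost_append, W.cost_cons, W.cost_cons, hAB, W.cost_append, W.cost_cons]
          have e1 : W.cost (A.map (fun z => (z, k+1))) = (A.map (W.p (k+1))).sum := by
            unfold cost
            rw [List.map_map]
            rfl
          rw [e1, hf2]
          linarith

theorem steps_all (k0 : ℕ) : ∀ (m : ℕ) (L : List (X × ℕ)) (e : X × ℕ), e.2 ≤ k0 →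
    (∀ g ∈ L, k0 ≤ g.2 ∧ g.2 ≤ k0 + m) → (lst2 e L).2 ≤ k0 → W.Ch (k0 + m) e L →
    ∃ M : List (X × ℕ), (∀ g ∈ M, g.2 = k0) ∧ W.Ch k0 e M ∧ lst2 e M = lst2 e L ∧
      W.cost M ≤ W.cost L := by
  intro m
  induction m with
  | zero =>
    intro L e _ hg _ hC
    exact ⟨L, fun g h => by have := hg g h; omega, hC, rfl, le_rfl⟩
  | succ m ih =>
    intro L e he hg hl hC
    obtain ⟨M, m1, m2, m3, m4⟩ := W.step k0 (k0 + m) L.length L rfl e (by omega) (by omega)
      hg (by omega) hC
    obtain ⟨M', q1, q2, q3, q4⟩ := ih M e he m1 (by rw [m3]; exact hl) m2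
    exact ⟨M', q1, q2, q3.trans m3, q4.trans m4⟩

/-- lower bound of the cost of a chain whose levels are at least `k` -/
theorem cost_lower (k m : ℕ) (x y : X) (L : List (X × ℕ))
    (hg : ∀ g ∈ L, k ≤ g.2 ∧ g.2 ≤ k + m)
    (hC : W.Ch (k + m) (x, k) (L ++ [(y, k)])) (hd : 4 * W.r k < dist x y) :
    W.p k x ≤ 2 * W.cost L := by
  obtain ⟨M, m1, m2, m3, m4⟩ := W.steps_all k m (L ++ [(y, k)]) (x, k) le_rfl (by
    intro g h
    rw [List.mem_append, List.mem_singleton] at h
    rcases h with h | h
    · exact hg g h
    · rw [h]; exact ⟨le_rfl, by simp⟩) (by rw [lst2_append]; exact le_rfl) hC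
  rw [lst2_append] at m3
  rw [W.cost_append] at m4
  have hy : W.cost [(y, k)] = W.p k y := by simp [cost]
  rw [hy] at m4
  cases M with
  | nil =>
    simp only [lst2] at m3
    have : x = y := congrArg Prod.fst m3
    rw [this, dist_self] at hd
    linarith [W.r_pos k]
  | cons g M =>
    have hg1 := m1 g (List.mem_cons_self)
    have hadj : dist x g.1 ≤ W.r k + W.r g.2 + 2 * W.r k := m2.1
    rw [hg1] at hadj
    cases M with
    | nil =>
      simp only [lst2] at m3
      rw [m3] at hadj
      simp only at hadj
      linarith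
    | cons h M =>
      have hq := W.qc k x g.1 (by
        have e0 : W.R / W.b^k = W.r k := rfl
        rw [e0]; linarith)
      rw [W.cost_cons, hg1] at m4
      -- the last element costs at least `p k y`
      have hlast : ∀ (N : List (X × ℕ)) (h : X × ℕ), lst2 h N = (y, k) →
          W.p k y ≤ W.cost (h :: N) := by
        intro N
        induction N with
        | nil =>
          intro h hh
          simp only [lst2] at hh
          rw [hh]; simp [cost]
        | cons a N ihN =>
          intro h hh
          have := ihN a hh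
          rw [W.cost_cons]
          linarith [W.p_pos h.2 h.1]
      have hl2 := hlast M h m3
      linarith [W.p_pos k x]

end Wt

end Pool.Agent.R966.CD
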