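import Pool.Agent.R966.CD.BM

/-!
Modulus of continuity of Brownian motion.
-/

set_option autoImplicit false

namespace Pool.Agent.R966.CD

open MeasureTheory ProbabilityTheory Filter Topology
open scoped NNReal ENNReal

variable {n : ℕ} {Ω : Type*} [MeasurableSpace Ω] {P : Measure Ω} {B : ℝ≥0 → Ω → E n}

theorem floor_div (u : ℝ) (m a : ℕ) : ⌊u * 2^(m+a)⌋₊ / 2^a = ⌊u * 2^m⌋₊ := by
  have h1 : ((2^a : ℕ) : ℝ) = (2:ℝ)^a := by push_cast; rfl
  have h2 := Nat.floor_div_natCast (u * 2^(m+a)) (2^a)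
  rw [← h2, h1, pow_add]
  congr 1
  field_simp

/-- **the covering fails with small probability** -/
theorem cover_majorant [IsProbabilityMeasure P] (hB : IsBM P B) (hn : 2 ≤ n) (β k m : ℕ)
    (hk : 1 ≤ k) (hm : m = (2*β+1)*k) (hk2 : 1152 * ((2*β+1)*k) ≤ 2^k) :
    ∃ H : Ω → ℝ≥0∞, Measurable H ∧ ∫⁻ ω, H ω ∂P ≤ ENNReal.ofReal (2 * (1/2)^k) ∧
      ∀ ω, (Continuous fun t => B t ω) →
      (∃ u ∈ Set.Icc (0:ℝ) 1, Real.sqrt n / ((2:ℝ)^β)^k <
        dist (path B ω ((⌊u * 2^m⌋₊ : ℝ) / 2^m)) (path B ω u)) → 1 ≤ H ω := by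
  classical
  obtain ⟨ρ, hρ⟩ : ∃ ρ : ℝ, ρ = Real.sqrt n / ((2:ℝ)^β)^k := ⟨_, rfl⟩
  have hρ0 : 0 ≤ ρ := by rw [hρ]; positivity
  obtain ⟨A, hA⟩ : ∃ A : ℕ → Finset ℤ, A = fun a => Finset.Ico (-((2^(m+a) : ℕ) : ℤ)) ((2^(m+a) : ℕ) : ℤ) :=
    ⟨_, rfl⟩
  obtain ⟨T, hT⟩ : ∃ T : ℕ → Finset ℤ, T = fun a => A a \ cells (m+a) 0 := ⟨_, rfl⟩
  have hdis : ∀ a, Disjoint (cells (m+a) 0) (T a) := by
    intro a; rw [hT]; exact Finset.disjoint_sdiff
  have hsub : ∀ a, cells (m+a) 0 ⊆ A a := by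
    intro a u hu
    have h2 : (0:ℤ) ≤ ((2^(m+a) : ℕ) : ℤ) := Int.natCast_nonneg _
    unfold cells at hu
    rw [hA, Finset.mem_Ico]
    rw [Finset.mem_Ico] at hu
    omega
  obtain ⟨O, hO⟩ : ∃ O : ℕ → Set (ℤ → E n), O = fun a => OE n 0 (2^(m+a)) a ρ := ⟨_, rfl⟩
  have hOm : ∀ a, MeasurableSet (O a) := by intro a; rw [hO]; exact measurable_OE _ _ _ _ _
  obtain ⟨v, hv⟩ : ∃ v : ℕ → ℝ≥0, v = fun a => ((2:ℝ≥0)^(m+a))⁻¹ := ⟨_, rfl⟩
  obtain ⟨g, hg⟩ : ∃ g : ℕ → Ω → ℝ≥0∞, g = fun a ω =>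
      (∫⋯∫⁻_(T a), (O a).indicator 1 ∂(fun _ => gam n (v a)))
        (Function.updateFinset 0 (cells (m+a) 0) (X B (m+a) 0 ω)) := ⟨_, rfl⟩
  have hind : ∀ a, Measurable ((O a).indicator (1 : (ℤ → E n) → ℝ≥0∞)) := fun a =>
    measurable_one.indicator (hOm a)
  have hgm0 : ∀ a, Measurable (∫⋯∫⁻_(T a), (O a).indicator 1 ∂(fun _ => gam n (v a))) := by
    intro a
    exact (hind a).lmarginal _
  have hgm : ∀ a, Measurable (g a) := by
    intro a
    rw [hg]
    exact ((hgm0 a).comp measurable_updateFinset).comp (measurable_X hB _ _)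
  have hgint : ∀ a, ∫⁻ ω, g a ω ∂P ≤ ENNReal.ofReal (2 * (1/2)^k) := by
    intro a
    have h1 : ∫⁻ ω, g a ω ∂P = ∫⁻ z, (∫⋯∫⁻_(T a), (O a).indicator 1 ∂(fun _ => gam n (v a)))
        (Function.updateFinset 0 (cells (m+a) 0) z) ∂(P.map (X B (m+a) 0)) := by
      rw [hg]
      exact (lintegral_map ((hgm0 a).comp measurable_updateFinset) (measurable_X hB _ _)).symm
    rw [h1, law_X hB]
    have h2 : ((2:ℝ≥0)^(m+a))⁻¹ = v a := by rw [hv]
    rw [h2]
    have h3 : (∫⋯∫⁻_(cells (m+a) 0), (∫⋯∫⁻_(T a), (O a).indicator 1 ∂(fun _ => gam n (v a)))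
        ∂(fun _ => gam n (v a))) (0 : ℤ → E n) ≤ ENNReal.ofReal (2 * (1/2)^k) := by
      rw [← lmarginal_union _ _ (hind a) (hdis a)]
      have h4 : cells (m+a) 0 ∪ T a = A a := by
        rw [hT]
        exact Finset.union_sdiff_of_subset (hsub a)
      rw [h4, Q_eq _ _ _ (hOm a), hO]
      have hvpos : 0 < v a := by rw [hv]; positivity
      refine (Q_OE hvpos hρ0 (A := A a) (lo := 0) (hi := 2^(m+a)) (H := a) (by
        intro i hi
        rw [hA, Finset.mem_Ico]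
        push_cast at hi ⊢
        omega) (((2*β+1)*k : ℕ) : ℝ) (by
          have : 1 ≤ (2*β+1)*k := Nat.one_le_iff_ne_zero.mpr (by positivity)
          exact_mod_cast this) hn ?_ 0).trans ?_
      · rw [hρ, div_pow, Real.sq_sqrt (Nat.cast_nonneg n), hv, ← pow_mul, ← pow_mul]
        push_cast
        have e1 : (2:ℝ)^a * ((2:ℝ)^(m+a))⁻¹ = 1 / 2^m := by rw [pow_add]; field_simp
        rw [e1]
        have e2 : (2:ℝ)^m = 2^(β*(k*2)) * 2^k := by
          rw [hm, ← pow_add]; congr 1; ring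
        rw [e2, mul_one_div, div_le_div_iff₀ (by positivity) (by positivity)]
        have e3 : (1152:ℝ) * ((2*β+1)*k) ≤ 2^k := by exact_mod_cast hk2
        have e4 : (0:ℝ) ≤ n * 2^(β*(k*2)) := by positivity
        calc 1152 * ((2*(β:ℝ)+1)*k) * n * 2^(β*(k*2)) = (1152 * ((2*(β:ℝ)+1)*k)) * (n * 2^(β*(k*2))) := by ring
          _ ≤ 2^k * (n * 2^(β*(k*2))) := mul_le_mul_of_nonneg_right e3 e4
          _ = _ := by ring
      · apply ENNReal.ofReal_le_ofReal
        have e1 : (((2^(m+a) : ℕ) : ℝ)) / 2^a = 2^m := by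
          push_cast
          rw [pow_add]
          field_simp
        rw [e1]
        have e2 := Par.exp_bound n ((2*β+1)*k)
        have e3 : (1/4 : ℝ)^((2*β+1)*k*n) ≤ (1/4 : ℝ)^((2*β+1)*k) := by
          apply pow_le_pow_of_le_one (by norm_num) (by norm_num)
          exact Nat.le_mul_of_pos_right _ (by omega)
        have e4 : (2:ℝ)^m * (1/4 : ℝ)^((2*β+1)*k) = (1/2)^((2*β+1)*k) := by
          rw [hm, ← mul_pow]
          norm_num
        have e5 : (1/2:ℝ)^((2*β+1)*k) ≤ (1/2)^k := by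
          apply pow_le_pow_of_le_one (by norm_num) (by norm_num)
          exact Nat.le_mul_of_pos_left _ (by omega)
        calc 2 * (2:ℝ)^m * Real.exp (-(7 * (((2*β+1)*k : ℕ) : ℝ) * n))
            ≤ 2 * (2:ℝ)^m * (1/4 : ℝ)^((2*β+1)*k) :=
              mul_le_mul_of_nonneg_left (e2.trans e3) (by positivity)
          _ = 2 * ((2:ℝ)^m * (1/4 : ℝ)^((2*β+1)*k)) := by ring
          _ ≤ _ := by rw [e4]; linarith
    exact h3
  refine ⟨fun ω => liminf (fun a => g a ω) atTop, Measurable.liminf hgm, ?_, ?_⟩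
  · refine (lintegral_liminf_le hgm).trans ?_
    refine liminf_le_of_le (by isBoundedDefault) ?_
    intro b hb
    obtain ⟨a, ha⟩ := hb.exists
    exact ha.trans (hgint a)
  · rintro ω hω ⟨u, hu, hd⟩
    rw [← hρ] at hd
    have hcont := continuous_path hω
    -- the truncations of `u`
    have hlim : Tendsto (fun a : ℕ => (⌊u * 2^(m+a)⌋₊ : ℝ) / 2^(m+a)) atTop (𝓝 u) := by
      have h1 := tr_tendsto 0 u (fun a => m + a) (tendsto_atTop_mono (f := fun a => a)
        (fun a => by omega) tendsto_id)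
      rw [sub_zero] at h1
      refine h1.congr fun a => ?_
      unfold tr
      rw [if_pos hu.1, sub_zero]
      push_cast
      rfl
    have hlim2 : Tendsto (fun a : ℕ => dist (path B ω ((⌊u * 2^m⌋₊ : ℝ) / 2^m))
        (path B ω ((⌊u * 2^(m+a)⌋₊ : ℝ) / 2^(m+a)))) atTop
        (𝓝 (dist (path B ω ((⌊u * 2^m⌋₊ : ℝ) / 2^m)) (path B ω u))) :=
      (tendsto_const_nhds).dist ((hcont.tendsto u).comp hlim)
    have hev := hlim2.eventually_const_lt hd
    refine le_liminf_of_le (by isBoundedDefault) ?_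
    refine hev.mono fun a ha => ?_
    have hpt : ∀ y : T a → E n, ext (m+a) 0 (T a) (X B (m+a) 0 ω) y ∈ O a := by
      intro y
      by_contra hcon
      rw [hO] at hcon
      have h1 := Par.small_pm hcon true
      have hule : ⌊u * 2^(m+a)⌋₊ ≤ 2^(m+a) := by
        have : u * 2^(m+a) ≤ ((2^(m+a) : ℕ) : ℝ) := by
          push_cast
          have : (0:ℝ) < 2^(m+a) := by positivity
          nlinarith [hu.2]
        exact Nat.floor_le_of_le this
      have h2 := osc_cell hρ0 (Or.inl rfl) h1 _ (Nat.zero_le _) hule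
      rw [max_eq_left (Nat.zero_le _), floor_div] at h2
      have h3 : ∀ w : ℕ, w ≤ 2^(m+a) → Par.pm (ext (m+a) 0 (T a) (X B (m+a) 0 ω) y) true w =
          path B ω (w / 2^(m+a)) - path B ω 0 := by
        intro w hw
        unfold Par.pm
        rw [if_pos rfl]
        have h4 := S_ext (B := B) (Nat.zero_le (2^(m+a))) (hdis a) ω y (w:ℤ) (by omega) (by
          push_cast
          have : (w:ℤ) ≤ ((2^(m+a) : ℕ) : ℤ) := by exact_mod_cast hw
          push_cast at this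
          omega)
        rw [h4]
        push_cast
        rw [zero_div, zero_add]
      have hmul : ⌊u * 2^m⌋₊ * 2^a ≤ 2^(m+a) := by
        rw [← floor_div u m a]
        exact (Nat.div_mul_le_self _ _).trans hule
      rw [h3 _ hule, h3 _ hmul] at h2
      have h5 : (((⌊u * 2^m⌋₊ * 2^a : ℕ) : ℝ)) / 2^(m+a) = (⌊u * 2^m⌋₊ : ℝ) / 2^m := by
        push_cast
        rw [pow_add]
        field_simp
      rw [h5, sub_sub_sub_cancel_right, ← dist_eq_norm, dist_comm] at h2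
      linarith
    rw [hg]
    show 1 ≤ ∫⁻ y : T a → E n, (O a).indicator 1 (ext (m+a) 0 (T a) (X B (m+a) 0 ω) y)
      ∂Measure.pi fun _ => gam n (v a)
    calc (1 : ℝ≥0∞) = ∫⁻ _ : T a → E n, 1 ∂Measure.pi fun _ => gam n (v a) := by
          rw [lintegral_const, measure_univ, mul_one]
      _ ≤ _ := lintegral_mono fun y => by
          rw [Set.indicator_of_mem (hpt y)]
          exact le_refl _

end Pool.Agent.R966.CD
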