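import Mathlib

/-!
Finite energy implies a lower bound of the Hausdorff dimension.
-/

set_option autoImplicit false

namespace Pool.Agent.R966.CD

open MeasureTheory Filter Topology Metric
open scoped NNReal ENNReal

theorem energy_dimH {F : Type*} [MetricSpace F] [MeasurableSpace F] [BorelSpace F]
    [SecondCountableTopology F] (γ : ℝ → F) (hγ : Continuous γ) (α : ℝ≥0) (hα : 0 < α)
    (hI : ∫⁻ t in Set.Icc (0:ℝ) 1, ∫⁻ u in Set.Icc (0:ℝ) 1, edist (γ u) (γ t) ^ (-(α:ℝ)) ≠ ∞) :
    (α : ℝ≥0∞) ≤ dimH (γ '' Set.Icc (0:ℝ) 1) := by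
  have hjoint : Measurable fun p : ℝ × ℝ => edist (γ p.2) (γ p.1) ^ (-(α:ℝ)) := by
    have h1 : Continuous fun p : ℝ × ℝ => edist (γ p.2) (γ p.1) := by fun_prop
    exact h1.measurable.pow_const _
  obtain ⟨G, hG⟩ : ∃ G : ℝ → ℝ≥0∞, G = fun t => ∫⁻ u in Set.Icc (0:ℝ) 1, edist (γ u) (γ t) ^ (-(α:ℝ)) :=
    ⟨_, rfl⟩
  have hGm : Measurable G := by
    rw [hG]
    exact Measurable.lintegral_prod_right' hjoint
  have hGi : ∫⁻ t in Set.Icc (0:ℝ) 1, G t ≠ ∞ := by rw [hG]; exact hI
  have hae := ae_lt_top hGm hGi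
  -- a level set of positive measure
  obtain ⟨M, hM⟩ : ∃ M : ℕ, 0 < volume (Set.Icc (0:ℝ) 1 ∩ {t | G t ≤ M}) := by
    by_contra hcon
    push Not at hcon
    have h1 : volume (⋃ M : ℕ, Set.Icc (0:ℝ) 1 ∩ {t | G t ≤ M}) = 0 := by
      rw [measure_iUnion_null_iff]
      intro M
      exact le_antisymm (hcon M) (zero_le)
    have h2 : volume (Set.Icc (0:ℝ) 1 ∩ {t | ¬ G t < ∞}) = 0 := by
      have h3 := ae_iff.mp hae
      rwa [Measure.restrict_apply (by
        have : MeasurableSet {t | G t < ∞} := measurableSet_lt hGm measurable_const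
        exact this.compl), Set.inter_comm] at h3
    have h4 : Set.Icc (0:ℝ) 1 ⊆ (⋃ M : ℕ, Set.Icc (0:ℝ) 1 ∩ {t | G t ≤ M}) ∪
        (Set.Icc (0:ℝ) 1 ∩ {t | ¬ G t < ∞}) := by
      intro t ht
      by_cases h : G t < ∞
      · left
        obtain ⟨M, hM⟩ := ENNReal.exists_nat_gt h.ne
        exact Set.mem_iUnion.mpr ⟨M, ht, hM.le⟩
      · right
        exact ⟨ht, h⟩
    have h5 := (measure_mono (μ := (volume : Measure ℝ)) h4).trans (measure_union_le _ _)
    rw [h1, h2, Real.volume_Icc, add_zero] at h5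
    simp at h5
  obtain ⟨S, hS⟩ : ∃ S : Set ℝ, S = Set.Icc (0:ℝ) 1 ∩ {t | G t ≤ M} := ⟨_, rfl⟩
  rw [← hS] at hM
  have hSm : MeasurableSet S := by
    rw [hS]
    exact measurableSet_Icc.inter (measurableSet_le hGm measurable_const)
  obtain ⟨μ, hμ⟩ : ∃ μ : Measure F, μ = (volume.restrict S).map γ := ⟨_, rfl⟩
  have hbound : ∀ s : Set F, μ s ≤ ((M:ℝ≥0∞) + 1) * ediam s ^ (α:ℝ) := by
    intro s
    have h1 : μ s ≤ volume (S ∩ γ ⁻¹' closure s) := by
      calc μ s ≤ μ (closure s) := measure_mono subset_closure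
        _ = _ := by
          rw [hμ, Measure.map_apply hγ.measurable isClosed_closure.measurableSet,
            Measure.restrict_apply (hγ.measurable isClosed_closure.measurableSet), Set.inter_comm]
    refine h1.trans ?_
    rcases Set.eq_empty_or_nonempty (S ∩ γ ⁻¹' closure s) with he | ⟨t, ht1, ht2⟩
    · rw [he, measure_empty]
      exact zero_le
    · have hAm : MeasurableSet (S ∩ γ ⁻¹' closure s) :=
        hSm.inter (hγ.measurable isClosed_closure.measurableSet)
      have h2 : ediam s ^ (-(α:ℝ)) * volume (S ∩ γ ⁻¹' closure s) ≤ M := by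
        calc ediam s ^ (-(α:ℝ)) * volume (S ∩ γ ⁻¹' closure s) =
            ∫⁻ _ in S ∩ γ ⁻¹' closure s, ediam s ^ (-(α:ℝ)) := by
              rw [setLIntegral_const]
          _ ≤ ∫⁻ u in S ∩ γ ⁻¹' closure s, edist (γ u) (γ t) ^ (-(α:ℝ)) := by
              apply setLIntegral_mono' hAm
              intro u hu
              have h3 : edist (γ u) (γ t) ≤ ediam s := by
                rw [← ediam_closure]
                exact edist_le_ediam_of_mem hu.2 ht2
              rw [ENNReal.rpow_neg, ENNReal.rpow_neg]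
              apply ENNReal.inv_le_inv.mpr
              exact ENNReal.rpow_le_rpow h3 α.2
          _ ≤ ∫⁻ u in Set.Icc (0:ℝ) 1, edist (γ u) (γ t) ^ (-(α:ℝ)) := by
              apply lintegral_mono_set
              intro u hu
              have := hu.1
              rw [hS] at this
              exact this.1
          _ ≤ M := by
              rw [hS] at ht1
              have h4 := ht1.2
              rw [hG] at h4
              exact h4
      rcases eq_or_ne (ediam s) 0 with h0 | h0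
      · rw [h0, ENNReal.zero_rpow_of_neg (by simpa using hα)] at h2
        have h5 : volume (S ∩ γ ⁻¹' closure s) = 0 := by
          by_contra hne
          rw [ENNReal.top_mul hne] at h2
          exact absurd h2 (by simp)
        rw [h5]
        exact zero_le
      · rcases eq_or_ne (ediam s) ∞ with ht | ht
        · rw [ht, ENNReal.top_rpow_of_pos (by simpa using hα), ENNReal.mul_top (by positivity)]
          exact le_top
        · have h5 : ediam s ^ (α:ℝ) ≠ 0 := by
            rw [Ne, ENNReal.rpow_eq_zero_iff]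
            simp [h0, ht]
          have h6 : ediam s ^ (α:ℝ) ≠ ∞ := ENNReal.rpow_ne_top_of_nonneg α.2 ht
          calc volume (S ∩ γ ⁻¹' closure s) = ediam s ^ (α:ℝ) * (ediam s ^ (-(α:ℝ)) *
                volume (S ∩ γ ⁻¹' closure s)) := by
                rw [← mul_assoc, ENNReal.rpow_neg, ENNReal.mul_inv_cancel h5 h6, one_mul]
            _ ≤ ediam s ^ (α:ℝ) * M := mul_le_mul_right h2 _
            _ ≤ _ := by
                rw [mul_comm]
                exact mul_le_mul_left le_self_add _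
  have hM1 : ((M:ℝ≥0∞) + 1) ≠ 0 := by positivity
  have hM2 : ((M:ℝ≥0∞) + 1) ≠ ∞ := by
    exact ENNReal.add_ne_top.mpr ⟨ENNReal.natCast_ne_top M, ENNReal.one_ne_top⟩
  have hle : ((M:ℝ≥0∞) + 1)⁻¹ • μ ≤ μH[(α:ℝ)] := by
    refine Measure.le_hausdorffMeasure (α:ℝ) _ 1 one_pos fun s _ => ?_
    rw [Measure.smul_apply, smul_eq_mul]
    calc ((M:ℝ≥0∞) + 1)⁻¹ * μ s ≤ ((M:ℝ≥0∞) + 1)⁻¹ * (((M:ℝ≥0∞) + 1) * ediam s ^ (α:ℝ)) :=
          mul_le_mul_right (hbound s) _
      _ = _ := by rw [← mul_assoc, ENNReal.inv_mul_cancel hM1 hM2, one_mul]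
  apply le_dimH_of_hausdorffMeasure_ne_zero
  have h7 : 0 < (((M:ℝ≥0∞) + 1)⁻¹ • μ) (γ '' Set.Icc (0:ℝ) 1) := by
    rw [Measure.smul_apply, smul_eq_mul]
    apply ENNReal.mul_pos (ENNReal.inv_ne_zero.mpr hM2)
    have h8 : MeasurableSet (γ '' Set.Icc (0:ℝ) 1) :=
      (isCompact_Icc.image hγ).isClosed.measurableSet
    rw [hμ, Measure.map_apply hγ.measurable h8, Measure.restrict_apply (hγ.measurable h8)]
    have h9 : S ⊆ γ ⁻¹' (γ '' Set.Icc (0:ℝ) 1) ∩ S := by
      intro t ht
      refine ⟨⟨t, ?_, rfl⟩, ht⟩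
      rw [hS] at ht
      exact ht.1
    exact (lt_of_lt_of_le hM (measure_mono h9)).ne'
  exact (lt_of_lt_of_le h7 (hle _)).ne'

end Pool.Agent.R966.CD
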