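import Mathlib

/-!
Gaussian integrals: one cell, and marginals over finite sets of cells.
-/

set_option autoImplicit false

namespace Pool.Agent.R966.CD

open MeasureTheory ProbabilityTheory
open scoped NNReal ENNReal

/-- Euclidean space -/
abbrev E (n : ℕ) := EuclideanSpace ℝ (Fin n)

/-- The centred Gaussian law on `ℝ^n` with covariance `v` times the identity. -/
noncomputable def gam (n : ℕ) (v : ℝ≥0) : Measure (E n) :=
  (stdGaussian (E n)).map (fun z => Real.sqrt v • z)

instance (n : ℕ) (v : ℝ≥0) : IsProbabilityMeasure (gam n v) := by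
  unfold gam
  exact Measure.isProbabilityMeasure_map (by fun_prop)

theorem integral_1d (l v z : ℝ) (hv : 0 ≤ v) (h : 0 < 1 + 2*l*v) :
    ∫ x, Real.exp (-l * (z + Real.sqrt v * x)^2) ∂(gaussianReal 0 1) =
      (Real.sqrt (1+2*l*v))⁻¹ * Real.exp (-l * z^2/(1+2*l*v)) := by
  rw [integral_gaussianReal_eq_integral_smul one_ne_zero]
  obtain ⟨a, ha⟩ : ∃ a : ℝ, a = (1+2*l*v)/2 := ⟨_, rfl⟩
  have ha0 : 0 < a := by rw [ha]; linarith
  obtain ⟨c, hc⟩ : ∃ c : ℝ, c = l * Real.sqrt v * z / a := ⟨_, rfl⟩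
  have hsv : Real.sqrt v ^ 2 = v := Real.sq_sqrt hv
  have h1 : ∀ x : ℝ, gaussianPDFReal 0 1 x • Real.exp (-l * (z + Real.sqrt v * x)^2) =
      ((Real.sqrt (2 * Real.pi))⁻¹ * Real.exp (-l * z^2/(1+2*l*v))) * Real.exp (-a * (x + c)^2) := by
    intro x
    unfold gaussianPDFReal
    simp only [NNReal.coe_one, mul_one, sub_zero, smul_eq_mul]
    rw [mul_assoc, mul_assoc, ← Real.exp_add, ← Real.exp_add]
    congr 2
    have e1 : 1 + 2*l*v = 2*a := by rw [ha]; ring
    have hac : a * c = l * Real.sqrt v * z := by rw [hc]; field_simp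
    have e2 : a * (x + c)^2 = a*x^2 + 2*(l * Real.sqrt v * z)*x + (l * Real.sqrt v * z)^2/a := by
      have : (l * Real.sqrt v * z)^2/a = a*c^2 := by rw [← hac]; field_simp
      rw [this, ← hac]; ring
    have e3 : (l * Real.sqrt v * z)^2 = l^2 * v * z^2 := by
      rw [mul_pow, mul_pow, hsv]
    rw [neg_mul a, e2, e3, e1]
    have e4 : 2 * l * v = 2*a - 1 := by linarith
    have e5 : -l * z ^ 2 / (2 * a) + -(a * x ^ 2 + 2 * (l * √v * z) * x + l ^ 2 * v * z ^ 2 / a) =
        -l * z^2 * ((1 + 2*l*v)/(2*a)) - a*x^2 - 2*(l * √v * z)*x := by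
      field_simp
      ring
    rw [e5, e1, div_self (by positivity)]
    have e6 : (z + √v * x)^2 = z^2 + 2 * √v * z * x + v * x^2 := by
      rw [add_sq, mul_pow, hsv]; ring
    rw [e6]
    have : a = 1/2 + l*v := by rw [ha]; ring
    rw [this]
    ring
  simp_rw [h1]
  rw [integral_const_mul, integral_add_right_eq_self (fun x => Real.exp (-a * x^2)) c,
    integral_gaussian]
  have h2 : (Real.sqrt (1+2*l*v))⁻¹ = (Real.sqrt (2 * Real.pi))⁻¹ * Real.sqrt (Real.pi / a) := by
    rw [← Real.sqrt_inv, ← Real.sqrt_inv, ← Real.sqrt_mul (by positivity)]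
    congr 1
    rw [ha]
    field_simp
  rw [h2]
  ring

theorem integrable_1d (l v z : ℝ) (hv : 0 ≤ v) (h : 0 < 1 + 2*l*v) :
    Integrable (fun x => Real.exp (-l * (z + Real.sqrt v * x)^2)) (gaussianReal 0 1) := by
  by_contra hc
  have h1 := integral_undef hc
  rw [integral_1d l v z hv h] at h1
  have h2 : 0 < (Real.sqrt (1+2*l*v))⁻¹ * Real.exp (-l * z^2/(1+2*l*v)) :=
    mul_pos (inv_pos.mpr (Real.sqrt_pos.mpr h)) (Real.exp_pos _)
  linarith

theorem lintegral_cell (n : ℕ) (v : ℝ≥0) (l : ℝ) (h : 0 < 1 + 2*l*v) (z : E n) :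
    ∫⁻ y, ENNReal.ofReal (Real.exp (-l * ‖z + y‖^2)) ∂(gam n v) =
      ENNReal.ofReal ((Real.sqrt (1+2*l*v))⁻¹^n * Real.exp (-l * ‖z‖^2/(1+2*l*v))) := by
  unfold gam
  rw [lintegral_map (by fun_prop) (by fun_prop), ← map_pi_eq_stdGaussian,
    lintegral_map (by fun_prop) (by fun_prop)]
  have h1 : ∀ x : Fin n → ℝ, Real.exp (-l * ‖z + Real.sqrt v • (WithLp.toLp 2 x : E n)‖^2) =
      ∏ i, Real.exp (-l * (z i + Real.sqrt v * x i)^2) := by
    intro x
    rw [← Real.exp_sum]
    congr 1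
    rw [EuclideanSpace.real_norm_sq_eq, Finset.mul_sum]
    rfl
  simp_rw [h1]
  rw [← ofReal_integral_eq_lintegral_ofReal]
  · rw [integral_fintype_prod_eq_prod (f := fun (i : Fin n) (x : ℝ) =>
      Real.exp (-l * (z i + Real.sqrt v * x)^2))]
    congr 1
    simp_rw [integral_1d l v _ v.2 h]
    rw [Finset.prod_mul_distrib, Finset.prod_const, Finset.card_univ, Fintype.card_fin,
      ← Real.exp_sum, EuclideanSpace.real_norm_sq_eq, Finset.mul_sum, Finset.sum_div]
  · exact Integrable.fintype_prod (f := fun (i : Fin n) (x : ℝ) =>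
      Real.exp (-l * (z i + Real.sqrt v * x)^2)) fun i => integrable_1d l v _ v.2 h
  · exact Filter.Eventually.of_forall fun x => Finset.prod_nonneg fun i _ => (Real.exp_pos _).le

/-- the exponential functional of a sum of cells -/
noncomputable def Φ {n : ℕ} (l : ℝ) (T : Finset ℤ) (z : E n) (x : ℤ → E n) : ℝ≥0∞ :=
  ENNReal.ofReal (Real.exp (-l * ‖z + ∑ i ∈ T, x i‖^2))

theorem measurable_Φ {n : ℕ} (l : ℝ) (T : Finset ℤ) (z : E n) : Measurable (Φ (n := n) l T z) := by
  unfold Φ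
  fun_prop

/-- marginal of the exponential functional, all the cells of `A` belong to `T` -/
theorem lmarginal_Φ {n : ℕ} (v : ℝ≥0) (T : Finset ℤ) : ∀ (A : Finset ℤ), A ⊆ T → ∀ (l : ℝ),
    0 < 1 + 2*l*(A.card * v) → ∀ (x : ℤ → E n) (z : E n),
    (∫⋯∫⁻_A, Φ l T z ∂(fun _ => gam n v)) x = ENNReal.ofReal ((Real.sqrt (1+2*l*(A.card * v)))⁻¹^n) *
      ENNReal.ofReal (Real.exp (-l * ‖z + ∑ i ∈ T \ A, x i‖^2/(1+2*l*(A.card * v)))) := by
  intro A
  induction A using Finset.induction_on with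
  | empty =>
    intro _ l hl x z
    simp [Φ]
  | insert i A hi ih =>
    intro hT l hl x z
    have hAT : A ⊆ T := fun j hj => hT (Finset.mem_insert_of_mem hj)
    have hiT : i ∈ T := hT (Finset.mem_insert_self i A)
    rw [Finset.card_insert_of_notMem hi] at hl ⊢
    push_cast at hl ⊢
    have hv : (0:ℝ) ≤ v := v.2
    obtain ⟨c, hc⟩ : ∃ c : ℝ, c = 1 + 2*l*(A.card * v) := ⟨_, rfl⟩
    have hc0 : 0 < c := by
      rw [hc]
      rcases le_total 0 l with h | h
      · positivity
      · nlinarith [mul_nonneg (Nat.cast_nonneg (α := ℝ) A.card) hv]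
    rw [lmarginal_insert _ (measurable_Φ l T z) hi]
    have hsplit : ∀ y : E n, ∑ j ∈ T \ A, (Function.update x i y) j =
        ∑ j ∈ T \ insert i A, x j + y := by
      intro y
      have h1 : T \ A = insert i (T \ insert i A) := by
        ext j
        simp only [Finset.mem_sdiff, Finset.mem_insert]
        constructor
        · rintro ⟨h1, h2⟩
          by_cases hj : j = i
          · left; exact hj
          · right; exact ⟨h1, by tauto⟩
        · rintro (rfl | ⟨h1, h2⟩)
          · exact ⟨hiT, hi⟩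
          · exact ⟨h1, by tauto⟩
      rw [h1, Finset.sum_insert (by simp), Function.update_self, add_comm]
      congr 1
      apply Finset.sum_congr rfl
      intro j hj
      rw [Function.update_of_ne]
      rintro rfl
      simp at hj
    have h2 : ∀ y : E n, (∫⋯∫⁻_A, Φ l T z ∂(fun _ => gam n v)) (Function.update x i y) =
        ENNReal.ofReal ((Real.sqrt c)⁻¹^n) *
          ENNReal.ofReal (Real.exp (-(l/c) * ‖(z + ∑ j ∈ T \ insert i A, x j) + y‖^2)) := by
      intro y
      rw [ih hAT l (by rw [← hc]; exact hc0) (Function.update x i y) z, ← hc, hsplit, ← add_assoc]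
      congr 3
      ring
    simp_rw [h2]
    rw [lintegral_const_mul _ (by fun_prop)]
    have h3 : 0 < 1 + 2*(l/c)*v := by
      have : 1 + 2*(l/c)*v = (1 + 2*l*((A.card + 1) * v))/c := by
        rw [eq_div_iff hc0.ne']
        have : (1 + 2*(l/c)*v)*c = c + 2*l*v := by field_simp
        rw [this, hc]; ring
      rw [this]
      positivity
    have h4 : c * (1 + 2*(l/c)*v) = 1 + 2*l*((A.card + 1) * v) := by
      have : c * (1 + 2*(l/c)*v) = c + 2*l*v := by field_simp
      rw [this, hc]; ring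
    rw [lintegral_cell n v (l/c) h3, ← ENNReal.ofReal_mul (by positivity),
      ← ENNReal.ofReal_mul (by positivity), ← mul_assoc, ← mul_pow, ← mul_inv,
      ← Real.sqrt_mul hc0.le, h4]
    congr 3
    rw [← h4]
    field_simp

/-- the density of the functional when only a part of the cells is integrated -/
theorem lmarginal_Φ_le {n : ℕ} (v : ℝ≥0) (T A : Finset ℤ) (l : ℝ) (hl : 0 ≤ l) (x : ℤ → E n)
    (z : E n) : (∫⋯∫⁻_(A ∩ T), Φ l T z ∂(fun _ => gam n v)) x ≤
      ENNReal.ofReal ((Real.sqrt (1+2*l*((A ∩ T).card * v)))⁻¹^n) := by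
  rw [lmarginal_Φ v T (A ∩ T) Finset.inter_subset_right l (by positivity)]
  calc _ ≤ ENNReal.ofReal ((Real.sqrt (1+2*l*((A ∩ T).card * v)))⁻¹^n) * 1 := by
        gcongr
        rw [← ENNReal.ofReal_one]
        apply ENNReal.ofReal_le_ofReal
        rw [Real.exp_le_one_iff]
        have : 0 ≤ l * ‖z + ∑ i ∈ T \ (A ∩ T), x i‖^2/(1+2*l*((A ∩ T).card * v)) := by positivity
        have e : -l * ‖z + ∑ i ∈ T \ (A ∩ T), x i‖^2/(1+2*l*((A ∩ T).card * v)) =
          -(l * ‖z + ∑ i ∈ T \ (A ∩ T), x i‖^2/(1+2*l*((A ∩ T).card * v))) := by ring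
        rw [e]
        linarith
    _ = _ := mul_one _

end Pool.Agent.R966.CD
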