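import Pool.Agent.R966.CD.Count
import Pool.Agent.R966.CD.Path

/-!
From the walks to the path.
-/

set_option autoImplicit false

namespace Pool.Agent.R966.CD

open MeasureTheory ProbabilityTheory Filter Topology
open scoped NNReal ENNReal

/-- the parameters along the refinements -/
def PP (β k m : ℕ) (hβ : 20 ≤ β) (a : ℕ) : Par where
  N := 2*β*(k+2) + 2*k + 100 + m + a
  β := β
  k := k
  hβ := hβ
  hN := by omega

/-- the exponent of the resolution -/
def NN (β k m a : ℕ) : ℕ := 2*β*(k+2) + 2*k + 100 + m + a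

theorem S_walk {n : ℕ} (c M : ℕ) (hc : c ≤ M) (f : ℕ → E n) (x : ℤ → E n)
    (hx : ∀ j : ℤ, -(c:ℤ) ≤ j → j < M - c → x j = f ((c+j).toNat + 1) - f ((c+j).toNat)) (u : ℤ)
    (h1 : -(c:ℤ) ≤ u) (h2 : u ≤ M - c) : S x u = f (c+u).toNat - f c := by
  have key : ∀ u : ℤ, -(c:ℤ) ≤ u → (u ≤ M - c → S x u - S x (-(c:ℤ)) = f (c+u).toNat - f 0) := by
    intro u hu
    induction u, hu using Int.leInduction with
    | base =>
      intro _
      simp
    | succ u hu ih =>
      intro h
      have e1 := S_sub x (show u ≤ u + 1 by omega)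
      have e2 : Finset.Ico u (u+1) = {u} := by
        ext z
        rw [Finset.mem_Ico, Finset.mem_singleton]
        omega
      rw [e2, Finset.sum_singleton, hx u hu (by omega)] at e1
      have e3 := ih (by omega)
      have e4 : (c + (u+1)).toNat = (c+u).toNat + 1 := by omega
      rw [e4]
      have : S x (u+1) - S x (-(c:ℤ)) = (S x (u+1) - S x u) + (S x u - S x (-(c:ℤ))) := by abel
      rw [this, e1, e3]
      abel
  have e1 := key u h1 h2
  have e2 := key 0 (by omega) (by omega)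
  rw [S_zero] at e2
  have e3 : ((c:ℤ) + 0).toNat = c := by omega
  rw [e3] at e2
  have : S x u = (S x u - S x (-(c:ℤ))) - (0 - S x (-(c:ℤ))) := by abel
  rw [this, e1, e2]
  abel

/-- truncation towards the centre -/
noncomputable def tr (t u : ℝ) (N : ℕ) : ℤ :=
  if t ≤ u then (⌊(u - t) * 2^N⌋₊ : ℤ) else -(⌊(t - u) * 2^N⌋₊ : ℤ)

theorem tr_abs (t u : ℝ) (N : ℕ) : (|tr t u N| : ℝ) ≤ |u - t| * 2^N := by
  unfold tr
  split
  · rename_i h
    push_cast
    rw [abs_of_nonneg (Nat.cast_nonneg _), abs_of_nonneg (by linarith)]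
    exact Nat.floor_le (by have : 0 ≤ u - t := by linarith
                           positivity)
  · rename_i h
    push_cast
    rw [abs_neg, abs_of_nonneg (Nat.cast_nonneg _), abs_of_neg (by linarith), neg_sub]
    exact Nat.floor_le (by have : 0 ≤ t - u := by linarith
                           positivity)

theorem tr_near (t u : ℝ) (N : ℕ) : |(tr t u N : ℝ) / 2^N - (u - t)| ≤ 1 / 2^N := by
  have h2 : (0:ℝ) < 2^N := by positivity
  unfold tr
  split
  · rename_i h
    have h0 : 0 ≤ (u - t) * 2^N := by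
      have : 0 ≤ u - t := by linarith
      positivity
    have h3 := Nat.floor_le h0
    have h4 := Nat.lt_floor_add_one ((u - t) * 2^N)
    push_cast
    rw [abs_le]
    constructor
    · have e : (⌊(u - t) * 2^N⌋₊ : ℝ) / 2^N - (u - t) = ((⌊(u - t) * 2^N⌋₊ : ℝ) - (u - t) * 2^N) / 2^N := by
        field_simp
      rw [e, ← neg_div]
      apply div_le_div_of_nonneg_right _ h2.le
      linarith
    · have e : (⌊(u - t) * 2^N⌋₊ : ℝ) / 2^N - (u - t) = ((⌊(u - t) * 2^N⌋₊ : ℝ) - (u - t) * 2^N) / 2^N := by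
        field_simp
      rw [e]
      apply div_le_div_of_nonneg_right _ h2.le
      linarith
  · rename_i h
    have h0 : 0 ≤ (t - u) * 2^N := by
      have : 0 ≤ t - u := by linarith
      positivity
    have h3 := Nat.floor_le h0
    have h4 := Nat.lt_floor_add_one ((t - u) * 2^N)
    push_cast
    rw [abs_le]
    constructor
    · have e : -(⌊(t - u) * 2^N⌋₊ : ℝ) / 2^N - (u - t) = ((t - u) * 2^N - (⌊(t - u) * 2^N⌋₊ : ℝ)) / 2^N := by
        field_simp
        ring
      rw [e, ← neg_div]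
      apply div_le_div_of_nonneg_right _ h2.le
      linarith
    · have e : -(⌊(t - u) * 2^N⌋₊ : ℝ) / 2^N - (u - t) = ((t - u) * 2^N - (⌊(t - u) * 2^N⌋₊ : ℝ)) / 2^N := by
        field_simp
        ring
      rw [e]
      apply div_le_div_of_nonneg_right _ h2.le
      linarith

/-- the range of the truncations -/
theorem tr_range {t u : ℝ} (ht1 : t ≤ 1) (hu : u ∈ Set.Icc (0:ℝ) 1) (N c : ℕ)
    (hc : (c : ℝ) = t * 2^N) : -(c:ℤ) ≤ tr t u N ∧ tr t u N ≤ (2^N : ℕ) - (c:ℤ) := by
  have h2 : (0:ℝ) < 2^N := by positivity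
  have h3 := tr_abs t u N
  obtain ⟨hu0, hu1⟩ := hu
  have ht0 : 0 ≤ t := by
    have : (0:ℝ) ≤ c := Nat.cast_nonneg _
    rw [hc] at this
    exact nonneg_of_mul_nonneg_left this h2
  constructor
  · have : (-(c:ℝ)) ≤ (tr t u N : ℝ) := by
      unfold tr
      split
      · push_cast
        have : (0:ℝ) ≤ (⌊(u - t) * 2^N⌋₊ : ℝ) := Nat.cast_nonneg _
        have : (0:ℝ) ≤ (c:ℝ) := Nat.cast_nonneg _
        linarith
      · rename_i h
        push_cast
        have : (⌊(t - u) * 2^N⌋₊ : ℝ) ≤ (t - u) * 2^N := Nat.floor_le (by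
          have : 0 ≤ t - u := by linarith
          positivity)
        have : (t - u) * 2^N ≤ t * 2^N := mul_le_mul_of_nonneg_right (by linarith) h2.le
        rw [hc]
        linarith
    exact_mod_cast this
  · have : (tr t u N : ℝ) ≤ ((2^N : ℕ) : ℝ) - (c:ℝ) := by
      push_cast
      unfold tr
      split
      · rename_i h
        push_cast
        have : (⌊(u - t) * 2^N⌋₊ : ℝ) ≤ (u - t) * 2^N := Nat.floor_le (by
          have : 0 ≤ u - t := by linarith
          positivity)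
        have : (u - t) * 2^N ≤ (1 - t) * 2^N := mul_le_mul_of_nonneg_right (by linarith) h2.le
        rw [hc]
        linarith
      · rename_i h
        push_cast
        have h5 : (0:ℝ) ≤ (⌊(t - u) * 2^N⌋₊ : ℝ) := Nat.cast_nonneg _
        have : t * 2^N ≤ 1 * 2^N := mul_le_mul_of_nonneg_right ht1 h2.le
        rw [hc]
        linarith
    exact_mod_cast this

theorem tr_tendsto (t u : ℝ) (K : ℕ → ℕ) (hK : Tendsto K atTop atTop) :
    Tendsto (fun a => (tr t u (K a) : ℝ) / 2^(K a)) atTop (𝓝 (u - t)) := by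
  rw [tendsto_iff_dist_tendsto_zero]
  have h1 : Tendsto (fun N : ℕ => 1 / (2:ℝ)^N) atTop (𝓝 0) := by
    have := tendsto_pow_atTop_nhds_zero_of_lt_one (r := (1/2:ℝ)) (by norm_num) (by norm_num)
    refine this.congr fun N => ?_
    rw [div_pow, one_pow]
  refine squeeze_zero (fun a => dist_nonneg) (fun a => ?_) (h1.comp hK)
  rw [Real.dist_eq]
  exact tr_near t u (K a)

theorem NN_tendsto (β k m : ℕ) : Tendsto (NN β k m) atTop atTop := by
  refine tendsto_atTop_mono (f := fun a => a) (fun a => ?_) tendsto_id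
  unfold NN
  omega

/-- **a level which is good for the walks infinitely often is good for the path** -/
theorem good_of_frequently {n : ℕ} (γ : ℝ → E n) (hγ : ContinuousOn γ (Set.Icc 0 1)) (β k m i : ℕ)
    (hβ : 20 ≤ β) (hi : i ≤ 2^m) (j : ℕ) (hj : j < k) (x : ℕ → ℤ → E n)
    (hx : ∀ a : ℕ, ∀ u : ℤ, -((i * 2^(NN β k m a - m) : ℕ) : ℤ) ≤ u →
      u ≤ (2^(NN β k m a) : ℕ) - ((i * 2^(NN β k m a - m) : ℕ) : ℤ) →
      S (x a) u = γ ((i:ℝ)/2^m + u / 2^(NN β k m a)) - γ ((i:ℝ)/2^m))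
    (hf : ∃ᶠ a in atTop, (PP β k m hβ a).GG n j (x a)) :
    GoodLevel γ (Real.sqrt n) (2^β) (2^12) (2^33) (1/2^21) j ((i:ℝ)/2^m) := by
  set t : ℝ := (i:ℝ)/2^m with ht
  have ht01 : t ∈ Set.Icc (0:ℝ) 1 := by
    constructor
    · positivity
    · rw [ht, div_le_one (by positivity)]
      exact_mod_cast hi
  have hNm : ∀ a, m ≤ NN β k m a := by intro a; unfold NN; omega
  have hc : ∀ a, ((i * 2^(NN β k m a - m) : ℕ) : ℝ) = t * 2^(NN β k m a) := by
    intro a
    push_cast
    obtain ⟨e, he⟩ : ∃ e, NN β k m a = m + e := ⟨NN β k m a - m, by have := hNm a; omega⟩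
    rw [he, Nat.add_sub_cancel_left, pow_add, ht]
    field_simp
  have hP : ∀ a, (PP β k m hβ a).N = NN β k m a := fun a => rfl
  -- the value of the walk at the truncations
  have hval : ∀ u ∈ Set.Icc (0:ℝ) 1, ∀ a, S (x a) (tr t u (NN β k m a)) =
      γ (t + (tr t u (NN β k m a)) / 2^(NN β k m a)) - γ t := by
    intro u hu a
    obtain ⟨h1, h2⟩ := tr_range ht01.2 hu (NN β k m a) _ (hc a)
    exact hx a _ h1 h2
  have hmem : ∀ u ∈ Set.Icc (0:ℝ) 1, ∀ a, t + (tr t u (NN β k m a)) / 2^(NN β k m a) ∈ Set.Icc (0:ℝ) 1 := by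
    intro u hu a
    obtain ⟨h1, h2⟩ := tr_range ht01.2 hu (NN β k m a) _ (hc a)
    have h1' : -(((i * 2^(NN β k m a - m) : ℕ) : ℝ)) ≤ (tr t u (NN β k m a) : ℝ) := by exact_mod_cast h1
    have h2' : (tr t u (NN β k m a) : ℝ) ≤ ((2^(NN β k m a) : ℕ) : ℝ) - ((i * 2^(NN β k m a - m) : ℕ) : ℝ) := by
      exact_mod_cast h2
    rw [hc a] at h1' h2'
    push_cast at h2'
    have hpos : (0:ℝ) < 2^(NN β k m a) := by positivity
    constructor
    · have : -t ≤ (tr t u (NN β k m a) : ℝ) / 2^(NN β k m a) := by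
        rw [le_div_iff₀ hpos]; linarith
      linarith
    · have : (tr t u (NN β k m a) : ℝ) / 2^(NN β k m a) ≤ 1 - t := by
        rw [div_le_iff₀ hpos]; linarith
      linarith
  have hlim : ∀ u ∈ Set.Icc (0:ℝ) 1, Tendsto (fun a => S (x a) (tr t u (NN β k m a))) atTop
      (𝓝 (γ u - γ t)) := by
    intro u hu
    have h1 : Tendsto (fun a => t + (tr t u (NN β k m a) : ℝ) / 2^(NN β k m a)) atTop
        (𝓝[Set.Icc (0:ℝ) 1] u) := by
      rw [tendsto_nhdsWithin_iff]
      refine ⟨?_, Eventually.of_forall (hmem u hu)⟩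
      have := (tr_tendsto t u _ (NN_tendsto β k m)).const_add t
      rwa [add_sub_cancel] at this
    have h2 := (hγ u hu).tendsto.comp h1
    refine (h2.sub_const (γ t)).congr fun a => ?_
    rw [hval u hu a]
    rfl
  have hbp : ∀ j : ℕ, ((2:ℝ)^β)^(2*j) = 2^(2*β*j) := by
    intro j; rw [← pow_mul]; congr 1; ring
  have hbp1 : ∀ j : ℕ, ((2:ℝ)^β)^j = 2^(β*j) := by
    intro j; rw [← pow_mul]
  have hr : ∀ a j, (PP β k m hβ a).r n j = Real.sqrt n / ((2:ℝ)^β)^j := by
    intro a j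
    rw [hbp1]
    rfl
  -- the windows
  have hw : ∀ a i, i ≤ k + 1 → (((PP β k m hβ a).w i : ℕ) : ℝ) = 2^12 / 2^(2*β*i) * 2^(NN β k m a) := by
    intro a i hi
    have h1 := (PP β k m hβ a).w_real (i := i) hi
    have h2 : (((PP β k m hβ a).v : ℝ≥0) : ℝ) = (2^(NN β k m a))⁻¹ := by
      unfold Par.v
      push_cast
      rfl
    rw [h2] at h1
    have h3 : (0:ℝ) < 2^(NN β k m a) := by positivity
    rw [← div_eq_mul_inv, div_eq_iff h3.ne'] at h1
    exact h1
  have hnormlim : ∀ u ∈ Set.Icc (0:ℝ) 1, ∀ v ∈ Set.Icc (0:ℝ) 1,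
      Tendsto (fun a => ‖S (x a) (tr t u (NN β k m a)) - S (x a) (tr t v (NN β k m a))‖) atTop
      (𝓝 (dist (γ u) (γ v))) := by
    intro u hu v hv
    have h1 := ((hlim u hu).sub (hlim v hv)).norm
    have e : ‖γ u - γ t - (γ v - γ t)‖ = dist (γ u) (γ v) := by
      rw [dist_eq_norm]; congr 1; abel
    rwa [e] at h1
  have hdifflim : ∀ u v : ℝ, Tendsto (fun a => |(tr t u (NN β k m a) : ℝ) / 2^(NN β k m a) -
      (tr t v (NN β k m a) : ℝ) / 2^(NN β k m a)|) atTop (𝓝 |u - v|) := by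
    intro u v
    have h1 := ((tr_tendsto t u _ (NN_tendsto β k m)).sub (tr_tendsto t v _ (NN_tendsto β k m))).abs
    have e : u - t - (v - t) = u - v := by ring
    rwa [e] at h1
  have hwin : ∀ u : ℝ, |u - t| ≤ 2^12 / ((2:ℝ)^β)^(2*j) → ∀ a,
      |tr t u (NN β k m a)| ≤ ((PP β k m hβ a).w j : ℤ) := by
    intro u hu a
    have h1 := tr_abs t u (NN β k m a)
    have h2 := hw a j (by omega)
    have h3 : (0:ℝ) < 2^(NN β k m a) := by positivity
    rw [hbp] at hu
    have h4 : |(tr t u (NN β k m a) : ℝ)| ≤ (((PP β k m hβ a).w j : ℕ) : ℝ) := by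
      rw [h2]
      exact h1.trans (mul_le_mul_of_nonneg_right hu h3.le)
    exact_mod_cast h4
  refine ⟨?_, ?_, ?_⟩
  · intro u hu hd
    refine le_of_tendsto_of_frequently (hdifflim u t) ?_
    have htt : ∀ a, tr t t (NN β k m a) = 0 := by
      intro a; unfold tr; rw [if_pos le_rfl]; simp
    have hev : ∀ᶠ a in atTop, ‖S (x a) (tr t u (NN β k m a)) - S (x a) (tr t t (NN β k m a))‖ <
        5 * (Real.sqrt n / ((2:ℝ)^β)^j) := by
      refine (hnormlim u hu t ht01).eventually_lt_const ?_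
      rwa [dist_comm]
    refine (hf.and_eventually hev).mono ?_
    rintro a ⟨hG, h1⟩
    rw [htt a, S_zero, sub_zero, ← hr a j] at h1
    have h2 := hG.ret _ (by
      have h3 := tr_abs t u (NN β k m a)
      have h4 := hw a 0 (by omega)
      rw [mul_zero, pow_zero, div_one] at h4
      have h5 : |(tr t u (NN β k m a) : ℝ)| ≤ (((PP β k m hβ a).w 0 : ℕ) : ℝ) := by
        rw [h4]
        refine h3.trans (mul_le_mul_of_nonneg_right ?_ (by positivity))
        rw [abs_le]
        obtain ⟨h6, h7⟩ := hu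
        obtain ⟨h8, h9⟩ := ht01
        constructor <;> linarith
      exact_mod_cast h5) h1
    have h3 : |(tr t u (NN β k m a) : ℝ)| ≤ (((PP β k m hβ a).w j : ℕ) : ℝ) := by exact_mod_cast h2
    rw [hw a j (by omega)] at h3
    rw [htt a]
    have h6 : (0:ℝ) < 2^(NN β k m a) := by positivity
    rw [Int.cast_zero, zero_div, sub_zero, abs_div, abs_of_pos h6, div_le_iff₀ h6, hbp]
    exact h3
  · intro u hu v hv hut hvt hd
    refine le_of_tendsto_of_frequently (hdifflim u v) ?_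
    have hev : ∀ᶠ a in atTop, ‖S (x a) (tr t u (NN β k m a)) - S (x a) (tr t v (NN β k m a))‖ <
        5 * (Real.sqrt n / ((2:ℝ)^β)^(j+1)) :=
      (hnormlim u hu v hv).eventually_lt_const hd
    refine (hf.and_eventually hev).mono ?_
    rintro a ⟨hG, h1⟩
    rw [← hr a (j+1)] at h1
    have h2 := hG.sep _ _ (hwin u hut a) (hwin v hvt a) h1
    have h3 : |((tr t u (NN β k m a) : ℝ)) - (tr t v (NN β k m a) : ℝ)| ≤
        2 * (((PP β k m hβ a).sp j : ℕ) : ℝ) := by exact_mod_cast h2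
    have h4 : 2 * (((PP β k m hβ a).sp j : ℕ) : ℝ) = 2^33 / 2^(2*β*(j+1)) * 2^(NN β k m a) := by
      unfold Par.sp
      have h5 := (PP β k m hβ a).exp_le (i := j+1) (by show j + 1 ≤ k + 1; omega)
      obtain ⟨e, he⟩ : ∃ e, NN β k m a = 2*β*(j+1) + e := ⟨NN β k m a - 2*β*(j+1), by
        have : (PP β k m hβ a).β = β := rfl
        rw [this, hP a] at h5
        omega⟩
      have e1 : (PP β k m hβ a).N + 32 - 2*(PP β k m hβ a).β*(j+1) = e + 32 := by
        show NN β k m a + 32 - 2*β*(j+1) = e + 32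
        omega
      rw [e1, he, pow_add, pow_add]
      push_cast
      field_simp
      norm_num
    rw [h4] at h3
    have h6 : (0:ℝ) < 2^(NN β k m a) := by positivity
    rw [← sub_div, abs_div, abs_of_pos h6, div_le_iff₀ h6, hbp]
    exact h3
  · intro u hu v hv hut hvt hd
    refine ge_of_tendsto_of_frequently (hdifflim u v) ?_
    have hev : ∀ᶠ a in atTop, (Real.sqrt n / ((2:ℝ)^β)^j) / 2 <
        ‖S (x a) (tr t u (NN β k m a)) - S (x a) (tr t v (NN β k m a))‖ :=
      (hnormlim u hu v hv).eventually_const_lt hd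
    refine (hf.and_eventually hev).mono ?_
    rintro a ⟨hG, h1⟩
    rw [← hr a j] at h1
    have h2 := hG.osc _ _ (hwin u hut a) (hwin v hvt a) h1
    have h3 : (2:ℝ)^((PP β k m hβ a).Hk j) ≤ |((tr t u (NN β k m a) : ℝ)) - (tr t v (NN β k m a) : ℝ)| := by
      exact_mod_cast h2
    have h4 : (2:ℝ)^((PP β k m hβ a).Hk j) = 1/2^21 / 2^(2*β*j) * 2^(NN β k m a) := by
      unfold Par.Hk
      have h5 := (PP β k m hβ a).exp_le (i := j) (by show j ≤ k + 1; omega)
      obtain ⟨e, he⟩ : ∃ e, NN β k m a = 2*β*j + 21 + e := ⟨NN β k m a - (2*β*j + 21), by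
        have : (PP β k m hβ a).β = β := rfl
        rw [this, hP a] at h5
        omega⟩
      have e1 : (PP β k m hβ a).N - 2*(PP β k m hβ a).β*j - 21 = e := by
        show NN β k m a - 2*β*j - 21 = e
        omega
      rw [e1, he, pow_add, pow_add]
      field_simp
    rw [h4] at h3
    have h6 : (0:ℝ) < 2^(NN β k m a) := by positivity
    rw [← sub_div, abs_div, abs_of_pos h6, le_div_iff₀ h6, hbp]
    exact h3

end Pool.Agent.R966.CD
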