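import Pool.Agent.R966.CD.BM
import Pool.Agent.R966.CD.Energy

/-!
Lower bound of the Hausdorff dimension of the Brownian trace.
-/

set_option autoImplicit false

namespace Pool.Agent.R966.CD

open MeasureTheory ProbabilityTheory Filter Topology Metric
open scoped NNReal ENNReal

/-- small balls -/
theorem small_ball {n : ℕ} (hn : 3 ≤ n) (v : ℝ≥0) (hv : 0 < v) (k : ℕ) :
    gam n v {z | ‖z‖ ≤ Real.sqrt v * (1/4)^k} ≤ ENNReal.ofReal (3 * (1/64)^k) := by
  have hv' : (0:ℝ) < v := hv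
  obtain ⟨ρ, hρ⟩ : ∃ ρ : ℝ, ρ = Real.sqrt v * (1/4)^k := ⟨_, rfl⟩
  have hρ2 : ρ^2 = v * (1/16)^k := by
    rw [hρ, mul_pow, Real.sq_sqrt (NNReal.coe_nonneg v), ← pow_mul, mul_comm k 2, pow_mul]
    norm_num
  have hρpos : 0 < ρ^2 := by rw [hρ2]; positivity
  obtain ⟨l, hl⟩ : ∃ l : ℝ, l = 1 / ρ^2 := ⟨_, rfl⟩
  have hlpos : 0 < l := by rw [hl]; positivity
  have hlv : l * v = 16^k := by
    rw [hl, hρ2, one_div (16:ℝ), inv_pow]
    field_simp
  have h1 := lintegral_cell n v l (by nlinarith) 0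
  have h2 : gam n v {z | ‖z‖ ≤ ρ} ≤ ENNReal.ofReal (Real.exp 1) *
      ∫⁻ y, ENNReal.ofReal (Real.exp (-l * ‖(0 : E n) + y‖^2)) ∂(gam n v) := by
    have hmeas : MeasurableSet {z : E n | ‖z‖ ≤ ρ} := measurableSet_le measurable_norm measurable_const
    rw [← lintegral_indicator_one hmeas, ← lintegral_const_mul _ (by fun_prop)]
    apply lintegral_mono
    intro y
    beta_reduce
    by_cases hy : ‖y‖ ≤ ρ
    · rw [Set.indicator_of_mem (by exact hy), zero_add, ← ENNReal.ofReal_mul (Real.exp_pos _).le,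
        ← Real.exp_add, Pi.one_apply, ← ENNReal.ofReal_one]
      apply ENNReal.ofReal_le_ofReal
      apply Real.one_le_exp
      have h3 : ‖y‖^2 ≤ ρ^2 := pow_le_pow_left₀ (norm_nonneg _) hy 2
      have h4 : l * ‖y‖^2 ≤ 1 := by
        rw [hl, one_div, inv_mul_le_iff₀ hρpos, mul_one]
        exact h3
      linarith
    · rw [Set.indicator_of_notMem (by exact hy)]
      exact zero_le
  rw [← hρ]
  refine h2.trans ?_
  rw [h1, ← ENNReal.ofReal_mul (Real.exp_pos _).le]
  apply ENNReal.ofReal_le_ofReal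
  simp only [norm_zero, ne_eq, OfNat.ofNat_ne_zero, not_false_eq_true, zero_pow, mul_zero,
    zero_div, Real.exp_zero, mul_one]
  have h5 : (Real.sqrt (1 + 2*l*v))⁻¹ ≤ (1/4)^k := by
    rw [one_div, inv_pow]
    apply inv_anti₀ (by positivity)
    apply Real.le_sqrt_of_sq_le
    rw [← pow_mul, mul_comm k 2, pow_mul, mul_assoc, hlv]
    norm_num
    have : (0:ℝ) < 16^k := by positivity
    linarith
  have h6 : (Real.sqrt (1 + 2*l*v))⁻¹^n ≤ (1/64)^k := by
    have h0 : (0:ℝ) ≤ (Real.sqrt (1 + 2*l*v))⁻¹ := by positivity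
    have h1 : (1/4:ℝ)^k ≤ 1 := pow_le_one₀ (by norm_num) (by norm_num)
    calc (Real.sqrt (1 + 2*l*v))⁻¹^n ≤ ((1/4)^k)^n := pow_le_pow_left₀ h0 h5 n
      _ ≤ ((1/4)^k)^3 := pow_le_pow_of_le_one (by positivity) h1 hn
      _ = (1/64)^k := by rw [← pow_mul, mul_comm k 3, pow_mul]; norm_num
  have h7 : Real.exp 1 ≤ 3 := Real.exp_one_lt_d9.le.trans (by norm_num)
  exact mul_le_mul h7 h6 (by positivity) (by norm_num)

/-- the constant of the moment -/
noncomputable def mom : ℝ≥0∞ := 1 + ∑' k : ℕ, 8^(k+1) * ENNReal.ofReal (3 * (1/64)^k)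

theorem mom_ne_top : mom ≠ ∞ := by
  unfold mom
  apply ENNReal.add_ne_top.mpr ⟨ENNReal.one_ne_top, ?_⟩
  have h1 : ∀ k : ℕ, (8:ℝ≥0∞)^(k+1) * ENNReal.ofReal (3 * (1/64)^k) = ENNReal.ofReal (24 * (1/8)^k) := by
    intro k
    have : (8:ℝ≥0∞)^(k+1) = ENNReal.ofReal (8^(k+1)) := by
      rw [ENNReal.ofReal_pow (by norm_num)]
      norm_num
    rw [this, ← ENNReal.ofReal_mul (by positivity)]
    congr 1
    rw [pow_succ]
    have : (8:ℝ)^k * (1/64)^k = (1/8)^k := by rw [← mul_pow]; norm_num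
    linear_combination 24 * this
  simp_rw [h1]
  have hsum : Summable fun k : ℕ => 24 * (1/8:ℝ)^k :=
    (summable_geometric_of_lt_one (by norm_num) (by norm_num)).mul_left _
  exact hsum.tsum_ofReal_ne_top

theorem eight : ((1/4:ℝ))^(-(3/2):ℝ) = 8 := by
  have : (1/4:ℝ) = (2:ℝ)^(-2:ℝ) := by
    rw [Real.rpow_neg (by norm_num)]
    norm_num
  rw [this, ← Real.rpow_mul (by norm_num)]
  norm_num

/-- **moment of order `-3/2`** -/
theorem moment {n : ℕ} (hn : 3 ≤ n) (v : ℝ≥0) :
    ∫⁻ z, ‖z‖ₑ^(-(3/2):ℝ) ∂(gam n v) ≤ mom * (ENNReal.ofReal (Real.sqrt v))^(-(3/2):ℝ) := by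
  rcases eq_or_lt_of_le (zero_le : 0 ≤ v) with hv | hv
  · rw [← hv]
    simp only [NNReal.coe_zero, Real.sqrt_zero, ENNReal.ofReal_zero]
    rw [ENNReal.zero_rpow_of_neg (by norm_num), ENNReal.mul_top]
    · exact _root_.le_top
    · unfold mom
      positivity
  · have hv' : (0:ℝ) < v := hv
    have hs : 0 < Real.sqrt v := Real.sqrt_pos.mpr hv'
    have hpt : ∀ z : E n, ‖z‖ₑ^(-(3/2):ℝ) ≤ (ENNReal.ofReal (Real.sqrt v))^(-(3/2):ℝ) *
        (1 + ∑' k : ℕ, 8^(k+1) * ({z : E n | ‖z‖ ≤ Real.sqrt v * (1/4)^k}.indicator 1 z)) := by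
      intro z
      have hc0 : (ENNReal.ofReal (Real.sqrt v))^(-(3/2):ℝ) ≠ 0 := by
        rw [Ne, ENNReal.rpow_eq_zero_iff]
        simp only [ENNReal.ofReal_ne_top, false_and, or_false, not_and]
        intro _
        norm_num
      rcases lt_or_ge (Real.sqrt v) ‖z‖ with h | h
      · calc ‖z‖ₑ^(-(3/2):ℝ) ≤ (ENNReal.ofReal (Real.sqrt v))^(-(3/2):ℝ) := by
              rw [ENNReal.rpow_neg, ENNReal.rpow_neg]
              apply ENNReal.inv_le_inv.mpr
              apply ENNReal.rpow_le_rpow _ (by norm_num)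
              rw [← ofReal_norm]
              exact ENNReal.ofReal_le_ofReal h.le
          _ = (ENNReal.ofReal (Real.sqrt v))^(-(3/2):ℝ) * 1 := (mul_one _).symm
          _ ≤ _ := mul_le_mul_right le_self_add _
      · rcases eq_or_ne z 0 with rfl | hz
        · have h1 : ∑' k : ℕ, (8:ℝ≥0∞)^(k+1) * ({z : E n | ‖z‖ ≤ Real.sqrt v * (1/4)^k}.indicator 1 (0 : E n)) = ∞ := by
            rw [← top_le_iff, ← ENNReal.tsum_const_eq_top_of_ne_zero (α := ℕ) (c := 1) one_ne_zero]
            apply ENNReal.tsum_le_tsum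
            intro k
            rw [Set.indicator_of_mem (by
              show ‖(0 : E n)‖ ≤ _
              rw [norm_zero]; positivity), Pi.one_apply, mul_one]
            exact one_le_pow₀ (by norm_num)
          rw [h1, add_top, ENNReal.mul_top hc0]
          exact _root_.le_top
        · have hz0 : 0 < ‖z‖ := norm_pos_iff.mpr hz
          obtain ⟨k, hk1, hk2⟩ := exists_nat_pow_near_of_lt_one (x := ‖z‖ / Real.sqrt v)
            (by positivity) (by rw [div_le_one hs]; exact h) (show (0:ℝ) < 1/4 by norm_num) (by norm_num)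
          rw [lt_div_iff₀ hs] at hk1
          rw [div_le_iff₀ hs] at hk2
          have h2 : (8:ℝ≥0∞)^(k+1) ≤ 1 + ∑' k : ℕ, 8^(k+1) *
              ({z : E n | ‖z‖ ≤ Real.sqrt v * (1/4)^k}.indicator 1 z) := by
            refine le_trans ?_ le_add_self
            refine le_trans ?_ (ENNReal.le_tsum k)
            rw [Set.indicator_of_mem (by
              show ‖z‖ ≤ _
              rw [mul_comm]; exact hk2), Pi.one_apply, mul_one]
          refine le_trans ?_ (mul_le_mul_right h2 _)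
          rw [← ofReal_norm, ENNReal.ofReal_rpow_of_pos hz0, ENNReal.ofReal_rpow_of_pos hs]
          have e8 : (8:ℝ≥0∞)^(k+1) = ENNReal.ofReal (8^(k+1)) := by
            rw [ENNReal.ofReal_pow (by norm_num)]
            norm_num
          rw [e8, ← ENNReal.ofReal_mul (by positivity)]
          apply ENNReal.ofReal_le_ofReal
          have e9 : ((8:ℝ))^(k+1) = ((1/4:ℝ)^(k+1))^(-(3/2):ℝ) := by
            rw [← eight, ← Real.rpow_natCast, ← Real.rpow_natCast, ← Real.rpow_mul (by norm_num),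
              ← Real.rpow_mul (by norm_num), mul_comm]
          rw [e9, ← Real.mul_rpow hs.le (by positivity)]
          apply Real.rpow_le_rpow_of_nonpos (by positivity) _ (by norm_num)
          rw [mul_comm]
          exact hk1.le
    refine (lintegral_mono hpt).trans ?_
    have hmeas : ∀ k : ℕ, MeasurableSet {z : E n | ‖z‖ ≤ Real.sqrt v * (1/4)^k} := fun k =>
      measurableSet_le measurable_norm measurable_const
    have hmeas2 : ∀ k : ℕ, Measurable fun z : E n => (8:ℝ≥0∞)^(k+1) *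
        ({z : E n | ‖z‖ ≤ Real.sqrt v * (1/4)^k}.indicator 1 z) := fun k =>
      (measurable_one.indicator (hmeas k)).const_mul _
    have hmeas3 : Measurable fun z : E n => 1 + ∑' k : ℕ, (8:ℝ≥0∞)^(k+1) *
        ({z : E n | ‖z‖ ≤ Real.sqrt v * (1/4)^k}.indicator 1 z) :=
      measurable_const.add (Measurable.tsum hmeas2)
    rw [lintegral_const_mul _ hmeas3, mul_comm]
    apply mul_le_mul_left
    rw [lintegral_add_left measurable_const, lintegral_const, measure_univ, mul_one,
      lintegral_tsum fun k => (hmeas2 k).aemeasurable]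
    unfold mom
    apply add_le_add_right
    apply ENNReal.tsum_le_tsum
    intro k
    rw [lintegral_const_mul _ (measurable_one.indicator (hmeas k)), lintegral_indicator_one (hmeas k)]
    exact mul_le_mul_right (small_ball hn v hv k) _

end Pool.Agent.R966.CD
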