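import Pool.Agent.R966.CD.LowDim

/-!
Lower bound of the Hausdorff dimension of the Brownian trace: the energy.
-/

set_option autoImplicit false

namespace Pool.Agent.R966.CD

open MeasureTheory ProbabilityTheory Filter Topology Metric
open scoped NNReal ENNReal

/-- the kernel of the energy -/
noncomputable def kern (x : ℝ) : ℝ≥0∞ := (ENNReal.ofReal (Real.sqrt x))^(-(3/2):ℝ)

theorem measurable_kern : Measurable kern := by
  unfold kern
  exact (ENNReal.measurable_ofReal.comp Real.continuous_sqrt.measurable).pow_const _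

theorem kern_int : ∫⁻ x in Set.Icc (0:ℝ) 1, kern x ≠ ∞ := by
  have h1 : IntervalIntegrable (fun x : ℝ => x^(-(3/4):ℝ)) volume 0 1 :=
    intervalIntegral.intervalIntegrable_rpow' (by norm_num)
  have h2 := (intervalIntegrable_iff_integrableOn_Ioc_of_le (by norm_num)).mp h1
  have h3 : ∫⁻ x in Set.Icc (0:ℝ) 1, kern x = ∫⁻ x in Set.Ioc (0:ℝ) 1, ‖x^(-(3/4):ℝ)‖ₑ := by
    rw [← setLIntegral_congr (Ioc_ae_eq_Icc (a := (0:ℝ)) (b := 1))]
    apply setLIntegral_congr_fun measurableSet_Ioc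
    intro x hx
    have hx0 : 0 < x := hx.1
    beta_reduce
    unfold kern
    rw [ENNReal.ofReal_rpow_of_pos (Real.sqrt_pos.mpr hx0), Real.sqrt_eq_rpow,
      ← Real.rpow_mul hx0.le, ← ofReal_norm, Real.norm_of_nonneg (by positivity)]
    norm_num
  rw [h3]
  exact h2.2.ne

theorem kern_shift (t : ℝ) (ht : t ∈ Set.Icc (0:ℝ) 1) :
    ∫⁻ u in Set.Icc (0:ℝ) 1, kern |u - t| ≤ 2 * ∫⁻ x in Set.Icc (0:ℝ) 1, kern x := by
  obtain ⟨g, hg⟩ : ∃ g : ℝ → ℝ≥0∞, g = (Set.Icc (0:ℝ) 1).indicator kern := ⟨_, rfl⟩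
  have hgm : Measurable g := by rw [hg]; exact measurable_kern.indicator measurableSet_Icc
  have h1 : ∫⁻ x in Set.Icc (0:ℝ) 1, kern x = ∫⁻ x, g x := by
    rw [hg, lintegral_indicator measurableSet_Icc]
  have h2 : ∫⁻ u in Set.Icc (0:ℝ) 1, kern |u - t| ≤ ∫⁻ u, (g (u - t) + g (t - u)) := by
    rw [← lintegral_indicator measurableSet_Icc]
    apply lintegral_mono
    intro u
    by_cases hu : u ∈ Set.Icc (0:ℝ) 1
    · rw [Set.indicator_of_mem hu]
      obtain ⟨hu0, hu1⟩ := hu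
      obtain ⟨ht0, ht1⟩ := ht
      rcases le_total t u with h | h
      · refine le_trans (le_of_eq ?_) le_self_add
        rw [hg, Set.indicator_of_mem (by constructor <;> linarith), abs_of_nonneg (by linarith)]
      · refine le_trans (le_of_eq ?_) le_add_self
        rw [hg, Set.indicator_of_mem (by constructor <;> linarith), abs_of_nonpos (by linarith), neg_sub]
    · rw [Set.indicator_of_notMem hu]
      exact zero_le
  refine h2.trans (le_of_eq ?_)
  have h3 : Measurable fun u => g (u - t) := hgm.comp (measurable_id.sub_const t)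
  rw [lintegral_add_left h3, h1, two_mul,
    lintegral_sub_right_eq_self (fun x => g x) t, lintegral_sub_left_eq_self (fun x => g x) t]

variable {n : ℕ} {Ω : Type*} [MeasurableSpace Ω] {P : Measure Ω} {B : ℝ≥0 → Ω → E n}

theorem pair_le (hB : IsBM P B) (hn : 3 ≤ n) (s t : ℝ≥0) (h : s ≤ t) :
    ∫⁻ ω, edist (B t ω) (B s ω) ^ (-(3/2):ℝ) ∂P ≤ mom * kern |(t:ℝ) - s| := by
  have h1 : ∫⁻ ω, edist (B t ω) (B s ω) ^ (-(3/2):ℝ) ∂P =
      ∫⁻ z, ‖z‖ₑ^(-(3/2):ℝ) ∂(gam n (t - s)) := by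
    have hm : Measurable fun ω => B t ω - B s ω := (hB.measurable t).sub (hB.measurable s)
    rw [← hB.law s t h, lintegral_map (measurable_enorm.pow_const _) hm]
    simp_rw [edist_eq_enorm_sub]
  rw [h1]
  refine (moment hn (t - s)).trans (le_of_eq ?_)
  unfold kern
  rw [NNReal.coe_sub h, abs_of_nonneg (by
    have : (s:ℝ) ≤ t := by exact_mod_cast h
    linarith)]

theorem pair_le' (hB : IsBM P B) (hn : 3 ≤ n) (s t : ℝ) (hs : 0 ≤ s) (ht : 0 ≤ t) :
    ∫⁻ ω, edist (path B ω t) (path B ω s) ^ (-(3/2):ℝ) ∂P ≤ mom * kern |t - s| := by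
  unfold path
  rcases le_total s t with h | h
  · have := pair_le hB hn s.toNNReal t.toNNReal (Real.toNNReal_le_toNNReal h)
    rwa [Real.coe_toNNReal _ hs, Real.coe_toNNReal _ ht] at this
  · have := pair_le hB hn t.toNNReal s.toNNReal (Real.toNNReal_le_toNNReal h)
    rw [Real.coe_toNNReal _ hs, Real.coe_toNNReal _ ht, abs_sub_comm] at this
    simp_rw [edist_comm (B s.toNNReal _)] at this
    exact this

/-- **lower bound of the Hausdorff dimension** -/
theorem low_dim [IsProbabilityMeasure P] (hB : IsBM P B) (hn : 3 ≤ n) :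
    ∀ᵐ ω ∂P, ((3/2 : ℝ≥0) : ℝ≥0∞) ≤ dimH (path B ω '' Set.Icc (0:ℝ) 1) := by
  classical
  -- a version with continuous paths
  obtain ⟨N, hNsub, hNm, hN0⟩ := exists_measurable_superset_of_null (ae_iff.mp hB.cont)
  have hcont : ∀ ω ∉ N, Continuous fun t => B t ω := by
    intro ω hω
    by_contra h
    exact hω (hNsub h)
  obtain ⟨V, hV⟩ : ∃ V : ℝ≥0 → Ω → E n, V = fun t ω => if ω ∈ N then 0 else B t ω := ⟨_, rfl⟩
  have hVc : ∀ ω, Continuous fun t => V t ω := by
    intro ω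
    rw [hV]
    by_cases h : ω ∈ N
    · simp only [if_pos h]
      exact continuous_const
    · simp only [if_neg h]
      exact hcont ω h
  have hVm : ∀ t, Measurable (V t) := by
    intro t
    rw [hV]
    exact Measurable.ite hNm measurable_const (hB.measurable t)
  have hVu : Measurable (Function.uncurry V) :=
    measurable_uncurry_of_continuous_of_measurable hVc hVm
  have hNae : ∀ᵐ ω ∂P, ω ∉ N := measure_eq_zero_iff_ae_notMem.mp hN0
  have hVB : ∀ᵐ ω ∂P, ∀ t, V t ω = B t ω := by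
    filter_upwards [hNae] with ω hω t
    rw [hV]
    simp only [if_neg hω]
  obtain ⟨ν, hν⟩ : ∃ ν : Measure ℝ, ν = volume.restrict (Set.Icc (0:ℝ) 1) := ⟨_, rfl⟩
  have hνf : IsFiniteMeasure ν := by
    rw [hν]
    exact ⟨by rw [Measure.restrict_apply_univ, Real.volume_Icc]; exact ENNReal.ofReal_lt_top⟩
  obtain ⟨F, hF⟩ : ∃ F : Ω → ℝ × ℝ → ℝ≥0∞, F = fun ω p =>
      edist (V p.2.toNNReal ω) (V p.1.toNNReal ω) ^ (-(3/2):ℝ) := ⟨_, rfl⟩
  have hFm : Measurable (Function.uncurry F) := by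
    rw [hF]
    have h1 : Measurable fun q : Ω × (ℝ × ℝ) => V q.2.2.toNNReal q.1 :=
      hVu.comp ((measurable_real_toNNReal.comp (measurable_snd.comp measurable_snd)).prodMk
        measurable_fst)
    have h2 : Measurable fun q : Ω × (ℝ × ℝ) => V q.2.1.toNNReal q.1 :=
      hVu.comp ((measurable_real_toNNReal.comp (measurable_fst.comp measurable_snd)).prodMk
        measurable_fst)
    exact (h1.edist h2).pow_const _
  have hE : ∫⁻ ω, ∫⁻ p, F ω p ∂(ν.prod ν) ∂P ≠ ∞ := by
    rw [lintegral_lintegral_swap hFm.aemeasurable]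
    have h1 : ∀ᵐ p ∂(ν.prod ν), ∫⁻ ω, F ω p ∂P ≤ mom * kern |p.2 - p.1| := by
      have h2 : ∀ᵐ t ∂ν, t ∈ Set.Icc (0:ℝ) 1 := by
        rw [hν]; exact ae_restrict_mem measurableSet_Icc
      have h3 : ∀ᵐ p ∂(ν.prod ν), p.1 ∈ Set.Icc (0:ℝ) 1 :=
        (Measure.quasiMeasurePreserving_fst (μ := ν) (ν := ν)).ae h2
      have h4 : ∀ᵐ p ∂(ν.prod ν), p.2 ∈ Set.Icc (0:ℝ) 1 :=
        (Measure.quasiMeasurePreserving_snd (μ := ν) (ν := ν)).ae h2
      filter_upwards [h3, h4] with p hp1 hp2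
      refine le_trans (le_of_eq ?_) (pair_le' hB hn p.1 p.2 hp1.1 hp2.1)
      apply lintegral_congr_ae
      filter_upwards [hVB] with ω hω
      rw [hF]
      simp only [hω]
      rfl
    have hkm : Measurable fun p : ℝ × ℝ => kern |p.2 - p.1| := by
      refine measurable_kern.comp ?_
      fun_prop
    have h5 : ∫⁻ p, mom * kern |p.2 - p.1| ∂(ν.prod ν) ≤ mom * (2 * ∫⁻ x in Set.Icc (0:ℝ) 1, kern x) := by
      rw [lintegral_const_mul _ hkm]
      apply mul_le_mul_right
      rw [lintegral_prod _ hkm.aemeasurable]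
      have h6 : ∀ᵐ t ∂ν, ∫⁻ u, kern |u - t| ∂ν ≤ 2 * ∫⁻ x in Set.Icc (0:ℝ) 1, kern x := by
        rw [hν]
        filter_upwards [ae_restrict_mem measurableSet_Icc] with t ht
        exact kern_shift t ht
      refine (lintegral_mono_ae h6).trans ?_
      rw [lintegral_const, hν, Measure.restrict_apply_univ, Real.volume_Icc]
      simp
    refine ne_top_of_le_ne_top ?_ ((lintegral_mono_ae h1).trans h5)
    exact ENNReal.mul_ne_top mom_ne_top (ENNReal.mul_ne_top (by norm_num) kern_int)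
  have hae := ae_lt_top (Measurable.lintegral_prod_right hFm) hE
  filter_upwards [hae, hVB, hB.cont] with ω hω hVω hc
  apply energy_dimH (path B ω) (continuous_path hc) (3/2) (by norm_num)
  have h7 : ∫⁻ p, F ω p ∂(ν.prod ν) = ∫⁻ t in Set.Icc (0:ℝ) 1, ∫⁻ u in Set.Icc (0:ℝ) 1,
      edist (path B ω u) (path B ω t) ^ (-(((3/2 : ℝ≥0)):ℝ)) := by
    have h8 : Measurable (F ω) := hFm.comp measurable_prodMk_left
    rw [lintegral_prod _ h8.aemeasurable, hν]
    apply lintegral_congr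
    intro t
    apply lintegral_congr
    intro u
    rw [hF]
    simp only [hVω]
    unfold path
    norm_num
  rw [← h7]
  exact hω.ne

end Pool.Agent.R966.CD
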