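import Pool.Agent.R966.CD.Chain

/-!
The chain metric of a system of scale weights; quasisymmetry of the identity.
-/

set_option autoImplicit false

namespace Pool.Agent.R966.CD

variable {X : Type*} [MetricSpace X]

namespace Wt

variable (W : Wt X)

open Classical in
/-- level of a distance -/
noncomputable def lvD (δ : ℝ) : ℕ :=
  if h : ∃ l, W.r (l+1) < δ then Nat.find h else 0

/-- level of a pair: the least `l` with `r (l+1) < dist x y` (and `0` if `x = y`) -/
noncomputable def lv (x y : X) : ℕ := W.lvD (dist x y)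

theorem r_le_pow (k : ℕ) : W.r k ≤ W.R * (1/11 : ℝ)^k := by
  unfold r
  rw [div_eq_mul_inv]
  refine mul_le_mul_of_nonneg_left ?_ W.hR.le
  rw [one_div, inv_pow]
  exact inv_anti₀ (by positivity) (pow_le_pow_left₀ (by norm_num) W.hb k)

theorem ex_lv {x y : X} (h : x ≠ y) : ∃ l, W.r (l+1) < dist x y := by
  have h0 : 0 < dist x y := dist_pos.mpr h
  obtain ⟨l, hl⟩ := exists_pow_lt_of_lt_one (div_pos h0 W.hR) (by norm_num : (1/11 : ℝ) < 1)
  refine ⟨l, ?_⟩
  have h1 := W.r_le_pow l
  have h2 := W.r_anti (Nat.le_succ l)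
  have h3 : W.R * (1/11 : ℝ)^l < dist x y := by
    rw [lt_div_iff₀ W.hR] at hl
    linarith
  exact lt_of_le_of_lt (h2.trans h1) h3

theorem lv_spec {x y : X} (h : x ≠ y) : W.r (W.lv x y + 1) < dist x y := by
  classical
  unfold lv lvD
  rw [dif_pos (W.ex_lv h)]
  exact Nat.find_spec (W.ex_lv h)

theorem lv_le {x y : X} (h : x ≠ y) (h1 : 1 ≤ W.lv x y) : dist x y ≤ W.r (W.lv x y) := by
  classical
  by_contra hc
  have h2 : W.lv x y ≤ W.lv x y - 1 := by
    conv_lhs => unfold lv lvD
    rw [dif_pos (W.ex_lv h)]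
    apply Nat.find_min'
    rw [Nat.sub_add_cancel h1]
    exact not_le.mp hc
  omega

theorem lv_ge {x y : X} (h : x ≠ y) {k : ℕ} (hk : dist x y ≤ W.r k) : k ≤ W.lv x y := by
  by_contra hc
  have h1 := W.lv_spec h
  have h2 := W.r_anti (show W.lv x y + 1 ≤ k by omega)
  linarith

theorem lv_comm (x y : X) : W.lv x y = W.lv y x := by
  unfold lv
  rw [dist_comm x y]

open Classical in
/-- weight of a pair -/
noncomputable def w (x y : X) : ℝ := if x = y then 0 else W.p (W.lv x y) x + W.p (W.lv x y) y

theorem w_self (x : X) : W.w x x = 0 := by simp [w]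

theorem w_comm (x y : X) : W.w x y = W.w y x := by
  unfold w
  rw [W.lv_comm x y]
  by_cases h : x = y
  · simp [h]
  · rw [if_neg h, if_neg (Ne.symm h), add_comm]

theorem w_of_ne {x y : X} (h : x ≠ y) : W.w x y = W.p (W.lv x y) x + W.p (W.lv x y) y := by
  unfold w
  rw [if_neg h]

theorem w_nonneg (x y : X) : 0 ≤ W.w x y := by
  by_cases h : x = y
  · rw [h, W.w_self]
  · rw [W.w_of_ne h]
    exact add_nonneg (W.p_pos _ _).le (W.p_pos _ _).le

/-- length of a chain -/
noncomputable def len : X → List X → X → ℝ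
  | x, [], y => W.w x y
  | x, z :: L, y => W.w x z + len z L y

theorem len_nonneg (x : X) (L : List X) (y : X) : 0 ≤ W.len x L y := by
  induction L generalizing x with
  | nil => exact W.w_nonneg x y
  | cons z L ih => exact add_nonneg (W.w_nonneg x z) (ih z)

theorem len_append (x : X) (L : List X) (z : X) (M : List X) (y : X) :
    W.len x (L ++ z :: M) y = W.len x L z + W.len z M y := by
  induction L generalizing x with
  | nil => rfl
  | cons a L ih => simp only [List.cons_append, len]; rw [ih a]; ring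

theorem len_reverse (x : X) (L : List X) (y : X) : W.len x L y = W.len y L.reverse x := by
  induction L generalizing x with
  | nil => exact W.w_comm x y
  | cons a L ih =>
    rw [List.reverse_cons, W.len_append]
    simp only [len]
    rw [ih a, W.w_comm x a]
    ring

/-- tight chains -/
def Ti : X × ℕ → List (X × ℕ) → Prop
  | _, [] => True
  | e, f :: L => dist e.1 f.1 ≤ W.r e.2 ∧ Ti f L

theorem ti_ch (K : ℕ) (e : X × ℕ) (L : List (X × ℕ)) (h : W.Ti e L) : W.Ch K e L := by
  induction L generalizing e with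
  | nil => trivial
  | cons f L ih =>
    refine ⟨?_, ih f h.2⟩
    unfold Adj
    linarith [h.1, W.r_pos f.2, W.r_pos K]

theorem ti_snoc (e : X × ℕ) (E : List (X × ℕ)) (z : X) (j l : ℕ) (y : X) (i : ℕ)
    (h : W.Ti e (E ++ [(z, j)])) (hd : dist z y ≤ W.r l) :
    W.Ti e ((E ++ [(z, l)]) ++ [(y, i)]) := by
  induction E generalizing e with
  | nil =>
    simp only [List.nil_append, List.cons_append, Ti, and_true] at h ⊢
    exact ⟨h, hd⟩
  | cons f E ih =>
    simp only [List.cons_append, Ti] at h ⊢
    exact ⟨h.1, ih f h.2⟩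

omit [MetricSpace X] in
theorem exists_bound (E : List (X × ℕ)) (k : ℕ) : ∃ m, ∀ g ∈ E, g.2 ≤ k + m := by
  induction E with
  | nil => exact ⟨0, by simp⟩
  | cons a E ih =>
    obtain ⟨m, hm⟩ := ih
    refine ⟨max m a.2, ?_⟩
    intro g hg
    rcases List.mem_cons.mp hg with rfl | hg
    · exact (le_max_right m g.2).trans (Nat.le_add_left _ _)
    · have := hm g hg
      have := le_max_left m a.2
      omega

theorem low (k : ℕ) (x y : X) (hy : 4 * W.r k < dist x y) : ∀ (L : List X) (z : X)
    (E : List (X × ℕ)), (∀ g ∈ E, k ≤ g.2) → W.Ti (x, k) (E ++ [(z, k)]) → dist x z ≤ 4 * W.r k →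
    W.p k x ≤ 2 * (W.cost E + W.len z L y) := by
  have key : ∀ (z z' : X) (E : List (X × ℕ)), z ≠ z' → (∀ g ∈ E, k ≤ g.2) →
      W.Ti (x, k) (E ++ [(z, k)]) → dist x z ≤ 4 * W.r k → k < W.lv z z' →
      W.Ti (x, k) ((E ++ [(z, W.lv z z')]) ++ [(z', k)]) ∧
      (4 * W.r k < dist x z' → W.p k x ≤ 2 * (W.cost E + W.w z z')) := by
    intro z z' E hne hE hT hz hl
    have h1 := W.lv_le hne (by omega)
    have h2 := W.ti_snoc (x, k) E z k (W.lv z z') z' k hT h1
    refine ⟨h2, fun hd => ?_⟩
    obtain ⟨m, hm⟩ := exists_bound (E ++ [(z, W.lv z z')]) k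
    have h3 := W.cost_lower k m x z' (E ++ [(z, W.lv z z')]) (by
      intro g hg
      refine ⟨?_, hm g hg⟩
      rw [List.mem_append, List.mem_singleton] at hg
      rcases hg with hg | hg
      · exact hE g hg
      · rw [hg]; exact hl.le) (W.ti_ch _ _ _ h2) hd
    rw [W.cost_append] at h3
    have h4 : W.cost [(z, W.lv z z')] = W.p (W.lv z z') z := by simp [cost]
    rw [h4] at h3
    rw [W.w_of_ne hne]
    linarith [W.p_pos (W.lv z z') z']
  have key2 : ∀ (z z' : X), z ≠ z' → dist x z ≤ 4 * W.r k → W.lv z z' ≤ k →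
      W.p k x ≤ 2 * W.w z z' := by
    intro z z' hne hz hl
    have h1 := W.qc k x z hz
    have h2 := W.p_anti hl z
    rw [W.w_of_ne hne]
    linarith [W.p_pos (W.lv z z') z']
  intro L
  induction L with
  | nil =>
    intro z E hE hT hz
    have hne : z ≠ y := by
      rintro rfl
      linarith
    by_cases hl : W.lv z y ≤ k
    · have := key2 z y hne hz hl
      have := W.cost_nonneg E
      simp only [len]
      linarith
    · exact (key z y E hne hE hT hz (by omega)).2 hy
  | cons z' L ih =>
    intro z E hE hT hz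
    simp only [len]
    by_cases hne : z = z'
    · subst hne
      rw [W.w_self, zero_add]
      exact ih z E hE hT hz
    · by_cases hl : W.lv z z' ≤ k
      · have := key2 z z' hne hz hl
        have := W.cost_nonneg E
        have := W.len_nonneg z' L y
        linarith
      · obtain ⟨k1, k2⟩ := key z z' E hne hE hT hz (by omega)
        by_cases hd : dist x z' ≤ 4 * W.r k
        · have := ih z' (E ++ [(z, W.lv z z')]) (by
            intro g hg
            rw [List.mem_append, List.mem_singleton] at hg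
            rcases hg with hg | hg
            · exact hE g hg
            · rw [hg]; show k ≤ W.lv z z'; omega) k1 hd
          rw [W.cost_append] at this
          have h4 : W.cost [(z, W.lv z z')] = W.p (W.lv z z') z := by simp [cost]
          rw [h4] at this
          rw [W.w_of_ne hne]
          linarith [W.p_pos (W.lv z z') z']
        · have := k2 (not_le.mp hd)
          have := W.len_nonneg z' L y
          linarith

theorem len_lower (k : ℕ) (x y : X) (L : List X) (hy : 4 * W.r k < dist x y) :
    W.p k x ≤ 2 * W.len x L y := by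
  have := W.low k x y hy L x [] (by simp) (by
    simp only [List.nil_append, Ti, and_true, dist_self]
    exact (W.r_pos k).le) (by rw [dist_self]; linarith [W.r_pos k])
  simpa [cost] using this

/-- the chain metric -/
noncomputable def d (x y : X) : ℝ := ⨅ L : List X, W.len x L y

theorem bdd (x y : X) : BddBelow (Set.range fun L : List X => W.len x L y) :=
  ⟨0, by rintro _ ⟨L, rfl⟩; exact W.len_nonneg x L y⟩

theorem d_le (x y : X) (L : List X) : W.d x y ≤ W.len x L y := ciInf_le (W.bdd x y) L

theorem d_le_w (x y : X) : W.d x y ≤ W.w x y := W.d_le x y []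

theorem d_nonneg (x y : X) : 0 ≤ W.d x y := le_ciInf fun L => W.len_nonneg x L y

theorem d_self (x : X) : W.d x x = 0 :=
  le_antisymm ((W.d_le_w x x).trans (W.w_self x).le) (W.d_nonneg x x)

theorem d_comm_le (x y : X) : W.d x y ≤ W.d y x := by
  refine le_ciInf fun L => ?_
  rw [W.len_reverse]
  exact W.d_le x y _

theorem d_comm (x y : X) : W.d x y = W.d y x := le_antisymm (W.d_comm_le x y) (W.d_comm_le y x)

theorem d_triangle (x y z : X) : W.d x z ≤ W.d x y + W.d y z := by
  refine le_of_forall_pos_le_add fun ε hε => ?_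
  obtain ⟨L, hL⟩ := exists_lt_of_ciInf_lt (show W.d x y < W.d x y + ε/2 by linarith)
  obtain ⟨M, hM⟩ := exists_lt_of_ciInf_lt (show W.d y z < W.d y z + ε/2 by linarith)
  have h := W.d_le x z (L ++ y :: M)
  rw [W.len_append] at h
  linarith

theorem lo_le_one [Nonempty X] : W.lo ≤ 1 := by
  obtain ⟨x⟩ := ‹Nonempty X›
  have h1 := W.step_lo 0 x
  have h2 := W.step_hi 0 x
  rw [W.p0] at h1 h2
  linarith [W.hhi]

theorem d_lower {x y : X} (h : x ≠ y) : W.lo^2 / 2 * W.p (W.lv x y) x ≤ W.d x y := by
  refine le_ciInf fun L => ?_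
  have h1 := W.lv_spec h
  have h2 := W.r_11 (W.lv x y + 1)
  have h3 := W.len_lower (W.lv x y + 2) x y L (by
    have := W.r_pos (W.lv x y + 2)
    have e : W.lv x y + 1 + 1 = W.lv x y + 2 := rfl
    rw [e] at h2
    linarith)
  have h4 := W.step_lo (W.lv x y) x
  have h5 := W.step_lo (W.lv x y + 1) x
  have h6 : W.lo * (W.lo * W.p (W.lv x y) x) ≤ W.lo * W.p (W.lv x y + 1) x :=
    mul_le_mul_of_nonneg_left h4 W.hlo.le
  have e : W.lv x y + 1 + 1 = W.lv x y + 2 := rfl
  rw [e] at h5
  nlinarith

theorem d_upper {x y : X} (h : x ≠ y) : W.d x y ≤ 3 * W.p (W.lv x y) x := by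
  refine (W.d_le_w x y).trans ?_
  rw [W.w_of_ne h]
  rcases Nat.eq_zero_or_pos (W.lv x y) with h0 | h0
  · rw [h0, W.p0, W.p0]; norm_num
  · have := W.qc (W.lv x y) y x (by
      rw [dist_comm]
      have h1 := W.lv_le h h0
      have e0 : W.R / W.b^(W.lv x y) = W.r (W.lv x y) := rfl
      rw [e0]
      linarith [W.r_pos (W.lv x y)])
    linarith

theorem eq_of_d {x y : X} (h : W.d x y = 0) : x = y := by
  by_contra hne
  have := W.d_lower hne
  have h2 : 0 < W.lo^2 / 2 * W.p (W.lv x y) x :=
    mul_pos (by have := W.hlo; positivity) (W.p_pos _ _)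
  linarith

/-- the space with the chain metric -/
def Y (_ : Wt X) : Type _ := X

noncomputable instance : MetricSpace W.Y where
  dist := W.d
  dist_self := W.d_self
  dist_comm := W.d_comm
  dist_triangle := W.d_triangle
  eq_of_dist_eq_zero := fun h => W.eq_of_d h

theorem dist_Y (x y : W.Y) : dist x y = W.d x y := rfl

/-- the identity -/
def toY : X ≃ W.Y := Equiv.refl X

theorem dist_toY (x y : X) : dist (W.toY x) (W.toY y) = W.d x y := rfl

theorem p_le_pow (k : ℕ) (x : X) : W.p k x ≤ W.hi^k := by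
  have : Nonempty X := ⟨x⟩
  have hhi := W.hi_pos
  induction k with
  | zero => rw [W.p0, pow_zero]
  | succ k ih =>
    refine (W.step_hi k x).trans ?_
    rw [pow_succ, mul_comm]
    exact mul_le_mul_of_nonneg_right ih hhi.le

theorem p_ge_pow (k : ℕ) (x : X) : W.lo^k ≤ W.p k x := by
  induction k with
  | zero => rw [W.p0, pow_zero]
  | succ k ih =>
    refine le_trans ?_ (W.step_lo k x)
    rw [pow_succ, mul_comm]
    exact mul_le_mul_of_nonneg_left ih W.hlo.le

theorem continuous_toY : Continuous W.toY := by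
  rw [Metric.continuous_iff]
  intro x ε hε
  have : Nonempty X := ⟨x⟩
  obtain ⟨k, hk⟩ := exists_pow_lt_of_lt_one (show 0 < ε/3 by linarith) W.hhi
  refine ⟨W.r k, W.r_pos k, fun a ha => ?_⟩
  rw [W.dist_toY]
  by_cases hne : a = x
  · rw [hne, W.d_self]; exact hε
  · have h1 := W.d_upper hne
    have h2 := W.lv_ge hne ha.le
    have h3 := W.p_anti h2 a
    have h4 := W.p_le_pow k a
    linarith

theorem continuous_toY_symm : Continuous W.toY.symm := by
  rw [Metric.continuous_iff]
  intro x ε hε
  obtain ⟨k, hk⟩ := exists_pow_lt_of_lt_one (div_pos hε W.hR) (by norm_num : (1/11 : ℝ) < 1)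
  have hk' : W.r k < ε := by
    have h1 := W.r_le_pow k
    rw [lt_div_iff₀ W.hR] at hk
    linarith
  refine ⟨W.lo^2 / 2 * W.lo^k, by have := W.hlo; positivity, fun a ha => ?_⟩
  by_contra hc
  have key : ∀ a x : X, ε ≤ dist a x → W.lo^2 / 2 * W.lo^k ≤ W.d a x := by
    intro a x hc'
    have hne : a ≠ x := by
      intro h
      rw [h, dist_self] at hc'
      linarith
    have h1 := W.d_lower hne
    have h2 : W.lv a x ≤ k := by
      by_contra h
      have := W.lv_le hne (by omega)
      have := W.r_anti (show k ≤ W.lv a x by omega)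
      linarith
    have h3 := W.p_anti h2 a
    have h4 := W.p_ge_pow k a
    have h5 : W.lo^2 / 2 * W.lo^k ≤ W.lo^2 / 2 * W.p (W.lv a x) a :=
      mul_le_mul_of_nonneg_left (h4.trans h3) (by positivity)
    linarith
  have h6 := key (W.toY.symm a) (W.toY.symm x) (not_lt.mp hc)
  have h7 : dist a x = W.d (W.toY.symm a) (W.toY.symm x) := rfl
  linarith

/-- the identity as a homeomorphism -/
def homeo : X ≃ₜ W.Y where
  toEquiv := W.toY
  continuous_toFun := W.continuous_toY
  continuous_invFun := W.continuous_toY_symm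

theorem dist_homeo (x y : X) : dist (W.homeo x) (W.homeo y) = W.d x y := rfl

end Wt

end Pool.Agent.R966.CD
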