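import Mathlib

/-!
Oscillation of a sequence from its dyadic increments.
-/

set_option autoImplicit false

namespace Pool.Agent.R966.CD

variable {F : Type*} [NormedAddCommGroup F]

/-- thresholds -/
noncomputable def thr (ρ : ℝ) (H l : ℕ) : ℝ := ρ * (3/4 : ℝ)^(H - l) / 6

/-- the increments over the dyadic intervals of length `< 2 ^ H` inside `[lo, hi]` are small -/
def Small (f : ℕ → F) (lo hi H : ℕ) (ρ : ℝ) : Prop :=
  ∀ l < H, ∀ a : ℕ, lo ≤ a * 2^l → (a + 1) * 2^l ≤ hi →
    ‖f ((a + 1) * 2^l) - f (a * 2^l)‖ ≤ thr ρ H l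

theorem thr_nonneg {ρ : ℝ} (hρ : 0 ≤ ρ) (H l : ℕ) : 0 ≤ thr ρ H l := by
  unfold thr; positivity

/-- sums of the thresholds -/
theorem sum_thr {ρ : ℝ} (hρ : 0 ≤ ρ) (H : ℕ) : ∑ l ∈ Finset.range H, thr ρ H l ≤ ρ / 2 := by
  have h1 : ∑ l ∈ Finset.range H, thr ρ H l = ∑ l ∈ Finset.range H, ρ / 6 * (3/4 : ℝ)^(l+1) := by
    rw [← Finset.sum_range_reflect]
    apply Finset.sum_congr rfl
    intro l hl
    have hl' := Finset.mem_range.mp hl
    unfold thr
    have : H - (H - 1 - l) = l + 1 := by omega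
    rw [this]
    ring
  rw [h1, ← Finset.mul_sum]
  have h2 : ∑ l ∈ Finset.range H, (3/4 : ℝ)^(l+1) ≤ 3 := by
    have h3 : ∑ l ∈ Finset.range H, (3/4 : ℝ)^(l+1) = 3 * (1 - (3/4 : ℝ)^H) := by
      induction H with
      | zero => simp
      | succ H ih =>
        rw [Finset.sum_range_succ, ih (by
          rw [← Finset.sum_range_reflect]
          apply Finset.sum_congr rfl
          intro l hl
          have hl' := Finset.mem_range.mp hl
          unfold thr
          have : H - (H - 1 - l) = l + 1 := by omega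
          rw [this]
          ring)]
        ring
    rw [h3]
    have : (0:ℝ) ≤ (3/4 : ℝ)^H := by positivity
    linarith
  nlinarith

theorem sum_thr_sub {ρ : ℝ} (hρ : 0 ≤ ρ) (H : ℕ) (s : Finset ℕ) (hs : s ⊆ Finset.range H) :
    ∑ l ∈ s, thr ρ H l ≤ ρ / 2 :=
  (Finset.sum_le_sum_of_subset_of_nonneg hs fun l _ _ => thr_nonneg hρ H l).trans (sum_thr hρ H)

theorem trunc_succ (u l : ℕ) : u / 2^l * 2^l = u / 2^(l+1) * 2^(l+1) ∨
    (u / 2^(l+1) * 2 + 1 = u / 2^l ∧ u / 2^(l+1) * 2^(l+1) = (u / 2^(l+1) * 2) * 2^l) := by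
  have h1 : u / 2^(l+1) = u / 2^l / 2 := by rw [pow_succ, Nat.div_div_eq_div_mul]
  rw [h1]
  rcases Nat.even_or_odd' (u / 2^l) with ⟨c, hc | hc⟩
  · left
    have : u / 2^l / 2 = c := by omega
    rw [this, hc, pow_succ]; ring
  · right
    have : u / 2^l / 2 = c := by omega
    rw [this, hc]
    exact ⟨by ring, by rw [pow_succ]; ring⟩

/-- going down by binary digits -/
theorem down {f : ℕ → F} {lo hi H : ℕ} {ρ : ℝ} (hρ : 0 ≤ ρ) (h : Small f lo hi H ρ) (u : ℕ)
    (hu : u ≤ hi) : ∀ m ≤ H, lo ≤ u / 2^m * 2^m →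
    ‖f u - f (u / 2^m * 2^m)‖ ≤ ∑ l ∈ Finset.range m, thr ρ H l := by
  intro m
  induction m with
  | zero => intro _ _; simp
  | succ m ih =>
    intro hm hlo
    rw [Finset.sum_range_succ]
    have hle : u / 2^(m+1) * 2^(m+1) ≤ u / 2^m * 2^m := by
      rcases trunc_succ u m with h1 | ⟨h1, h2⟩
      · exact h1.ge
      · rw [h2, ← h1]
        exact Nat.mul_le_mul_right _ (by omega)
    have h3 := ih (by omega) (hlo.trans hle)
    have h4 : ‖f (u / 2^m * 2^m) - f (u / 2^(m+1) * 2^(m+1))‖ ≤ thr ρ H m := by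
      rcases trunc_succ u m with h1 | ⟨h1, h2⟩
      · rw [h1, sub_self, norm_zero]
        exact thr_nonneg hρ H m
      · rw [h2, ← h1]
        apply h m (by omega)
        · rw [← h2]; exact hlo
        · rw [h1]; exact (Nat.div_mul_le_self u (2^m)).trans hu
    have h5 : ‖f u - f (u / 2^(m+1) * 2^(m+1))‖ ≤ ‖f u - f (u / 2^m * 2^m)‖ +
        ‖f (u / 2^m * 2^m) - f (u / 2^(m+1) * 2^(m+1))‖ := by
      have : f u - f (u / 2^(m+1) * 2^(m+1)) = (f u - f (u / 2^m * 2^m)) +
        (f (u / 2^m * 2^m) - f (u / 2^(m+1) * 2^(m+1))) := by abel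
      rw [this]
      exact norm_add_le _ _
    linarith

/-- going down by halving -/
theorem halve {f : ℕ → F} {h0 hi H : ℕ} {ρ : ℝ} (h : Small f (2^h0) hi H ρ) :
    ∀ g, h0 ≤ g → g ≤ H → 2^g ≤ hi →
    ‖f (2^g) - f (2^h0)‖ ≤ ∑ l ∈ Finset.Ico h0 g, thr ρ H l := by
  intro g hg
  induction g, hg using Nat.le_induction with
  | base => intro _ _; simp
  | succ g hg ih =>
    intro hgH hghi
    have h1 : (2:ℕ)^g ≤ 2^(g+1) := Nat.pow_le_pow_right (by norm_num) (by omega)
    have h2 := ih (by omega) (h1.trans hghi)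
    have h3 := h g (by omega) 1 (by
      rw [one_mul]; exact Nat.pow_le_pow_right (by norm_num) hg) (by
      have : (1 + 1) * 2^g = 2^(g+1) := by rw [pow_succ]; ring
      rw [this]; exact hghi)
    have e1 : (1 + 1) * 2^g = 2^(g+1) := by rw [pow_succ]; ring
    rw [e1, one_mul] at h3
    rw [Finset.sum_Ico_succ_top hg]
    have h5 : ‖f (2^(g+1)) - f (2^h0)‖ ≤ ‖f (2^(g+1)) - f (2^g)‖ + ‖f (2^g) - f (2^h0)‖ := by
      have : f (2^(g+1)) - f (2^h0) = (f (2^(g+1)) - f (2^g)) + (f (2^g) - f (2^h0)) := by abel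
      rw [this]
      exact norm_add_le _ _
    linarith

/-- lower ends of the shells -/
def LoOK (lo : ℕ) : Prop := lo = 0 ∨ ∃ h0, lo = 2^h0

/-- **oscillation in a cell** -/
theorem osc_cell {f : ℕ → F} {lo hi H : ℕ} {ρ : ℝ} (hρ : 0 ≤ ρ) (hlo : LoOK lo)
    (h : Small f lo hi H ρ) (u : ℕ) (h1 : lo ≤ u) (h2 : u ≤ hi) :
    ‖f u - f (max (u / 2^H * 2^H) lo)‖ ≤ ρ := by
  by_cases hc : lo ≤ u / 2^H * 2^H
  · rw [max_eq_left hc]
    have := down hρ h u h2 H le_rfl hc
    have := sum_thr hρ H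
    linarith
  · rw [max_eq_right (by omega)]
    rcases hlo with rfl | ⟨h0, rfl⟩
    · omega
    · -- the dyadic size of `u`
      have hu0 : u ≠ 0 := by
        have : 0 < 2^h0 := by positivity
        omega
      obtain ⟨g, hg⟩ : ∃ g, g = Nat.log2 u := ⟨_, rfl⟩
      have hg1 : 2^g ≤ u := by rw [hg]; exact Nat.log2_self_le hu0
      have hg2 : u < 2^(g+1) := by rw [hg]; exact Nat.lt_log2_self
      have hh0g : h0 ≤ g := by
        by_contra hcc
        have : 2^(g+1) ≤ 2^h0 := Nat.pow_le_pow_right (by norm_num) (by omega)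
        omega
      have hgH : g < H := by
        by_contra hcc
        apply hc
        have hHg : H ≤ g := by omega
        rcases Nat.lt_or_ge H h0 with h3 | h3
        · -- `2^H ∣ 2^h0`
          obtain ⟨c, hc'⟩ : ∃ c, h0 = H + c := ⟨h0 - H, by omega⟩
          have h4 : 2^c ≤ u / 2^H := by
            rw [Nat.le_div_iff_mul_le (by positivity), ← pow_add, add_comm c H, ← hc']
            exact h1
          calc 2^h0 = 2^c * 2^H := by rw [hc', pow_add, mul_comm]
            _ ≤ u / 2^H * 2^H := Nat.mul_le_mul_right _ h4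
        · obtain ⟨c, hc'⟩ : ∃ c, g = H + c := ⟨g - H, by omega⟩
          have h4 : 2^c ≤ u / 2^H := by
            rw [Nat.le_div_iff_mul_le (by positivity), ← pow_add, add_comm c H, ← hc']
            exact hg1
          calc 2^h0 ≤ 2^g := Nat.pow_le_pow_right (by norm_num) hh0g
            _ = 2^c * 2^H := by rw [hc', pow_add, mul_comm]
            _ ≤ u / 2^H * 2^H := Nat.mul_le_mul_right _ h4
      have hdiv : u / 2^g = 1 := by
        apply Nat.div_eq_of_lt_le
        · rw [one_mul]; exact hg1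
        · have : (1 + 1) * 2^g = 2^(g+1) := by rw [pow_succ]; ring
          rw [this]; exact hg2
      have e1 := down hρ h u h2 g hgH.le (by
        rw [hdiv, one_mul]; exact Nat.pow_le_pow_right (by norm_num) hh0g)
      rw [hdiv, one_mul] at e1
      have e2 := halve h g hh0g hgH.le (hg1.trans h2)
      have e3 := sum_thr_sub hρ H (Finset.range g) (Finset.range_subset_range.mpr hgH.le)
      have e4 := sum_thr_sub hρ H (Finset.Ico h0 g) (by
        intro l hl
        rw [Finset.mem_Ico] at hl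
        rw [Finset.mem_range]; omega)
      have h5 : ‖f u - f (2^h0)‖ ≤ ‖f u - f (2^g)‖ + ‖f (2^g) - f (2^h0)‖ := by
        have : f u - f (2^h0) = (f u - f (2^g)) + (f (2^g) - f (2^h0)) := by abel
        rw [this]
        exact norm_add_le _ _
      linarith

/-- increments over a whole cell -/
theorem osc_edge {f : ℕ → F} {lo hi H : ℕ} {ρ : ℝ} (hρ : 0 ≤ ρ) (hlo : LoOK lo) (hH : 1 ≤ H)
    (h : Small f lo hi H ρ) (a : ℕ) (h1 : lo ≤ (a + 1) * 2^H) (h2 : (a + 1) * 2^H ≤ hi) :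
    ‖f ((a + 1) * 2^H) - f (max (a * 2^H) lo)‖ ≤ ρ := by
  obtain ⟨G, rfl⟩ : ∃ G, H = G + 1 := ⟨H - 1, by omega⟩
  by_cases hc : lo ≤ a * 2^(G+1)
  · rw [max_eq_left hc]
    have e1 : a * 2^(G+1) = (2 * a) * 2^G := by rw [pow_succ]; ring
    have e2 : (a + 1) * 2^(G+1) = ((2*a + 1) + 1) * 2^G := by rw [pow_succ]; ring
    have i1 := h G (by omega) (2*a) (by rw [← e1]; exact hc) (by
      refine le_trans ?_ h2
      rw [e2]; exact Nat.mul_le_mul_right _ (by omega))
    have i2 := h G (by omega) (2*a+1) (by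
      refine hc.trans ?_
      rw [e1]; exact Nat.mul_le_mul_right _ (by omega)) (by rw [← e2]; exact h2)
    rw [e1, e2]
    have h5 : ‖f (((2*a + 1) + 1) * 2^G) - f ((2 * a) * 2^G)‖ ≤
        ‖f (((2*a + 1) + 1) * 2^G) - f ((2*a + 1) * 2^G)‖ + ‖f ((2*a + 1) * 2^G) - f ((2 * a) * 2^G)‖ := by
      have : f (((2*a + 1) + 1) * 2^G) - f ((2 * a) * 2^G) =
        (f (((2*a + 1) + 1) * 2^G) - f ((2*a + 1) * 2^G)) + (f ((2*a + 1) * 2^G) - f ((2 * a) * 2^G)) := by abel
      rw [this]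
      exact norm_add_le _ _
    have e3 : thr ρ (G+1) G = ρ / 8 := by
      unfold thr
      have : G + 1 - G = 1 := by omega
      rw [this]; ring
    rw [e3] at i1 i2
    linarith
  · rw [max_eq_right (by omega)]
    rcases hlo with rfl | ⟨h0, rfl⟩
    · omega
    · -- `2^h0` lies in the cell, hence `a = 0`
      by_cases heq : 2^h0 = (a+1) * 2^(G+1)
      · rw [heq, sub_self, norm_zero]; exact hρ
      have ha : a = 0 := by
        by_contra ha0
        apply hc
        rcases Nat.lt_or_ge (G+1) h0 with h3 | h3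
        · -- then `2^h0` is a multiple of `2^(G+1)`, strictly inside: impossible
          obtain ⟨c, hc'⟩ : ∃ c, h0 = (G+1) + c := ⟨h0 - (G+1), by omega⟩
          exfalso
          have e0 : 2^h0 = 2^c * 2^(G+1) := by rw [hc', pow_add 2 (G+1) c, mul_comm]
          have h4 : a * 2^(G+1) < 2^h0 := by omega
          have h4' : 2^h0 < (a+1) * 2^(G+1) := by omega
          rw [e0] at h4 h4'
          have h5 : a < 2^c := Nat.lt_of_mul_lt_mul_right h4
          have h6 : 2^c < a + 1 := Nat.lt_of_mul_lt_mul_right h4'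
          omega
        · calc 2^h0 ≤ 2^(G+1) := Nat.pow_le_pow_right (by norm_num) h3
            _ = 1 * 2^(G+1) := (one_mul _).symm
            _ ≤ a * 2^(G+1) := Nat.mul_le_mul_right _ (by omega)
      subst ha
      rw [zero_add, one_mul] at h1 h2 ⊢
      have hh : h0 ≤ G + 1 := (Nat.pow_le_pow_iff_right (by norm_num)).mp h1
      have e2 := halve h (G+1) hh le_rfl h2
      have e4 := sum_thr_sub hρ (G+1) (Finset.Ico h0 (G+1)) (by
        intro l hl
        rw [Finset.mem_Ico] at hl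
        rw [Finset.mem_range]; omega)
      linarith

/-- **modulus of continuity at the scale of the cells** -/
theorem near {f : ℕ → F} {lo hi H : ℕ} {ρ : ℝ} (hρ : 0 ≤ ρ) (hlo : LoOK lo) (hH : 1 ≤ H)
    (h : Small f lo hi H ρ) (u v : ℕ) (h1 : lo ≤ u) (huv : u ≤ v) (h2 : v ≤ hi)
    (hd : v ≤ u + 2^H) : ‖f v - f u‖ ≤ 3 * ρ := by
  have hpos : 0 < 2^H := by positivity
  have i1 := osc_cell hρ hlo h u h1 (huv.trans h2)
  have i2 := osc_cell hρ hlo h v (h1.trans huv) h2
  have hmono : u / 2^H ≤ v / 2^H := Nat.div_le_div_right huv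
  have hle : v / 2^H ≤ u / 2^H + 1 := by
    calc v / 2^H ≤ (u + 2^H) / 2^H := Nat.div_le_div_right hd
      _ = u / 2^H + 1 := Nat.add_div_right u hpos
  rcases Nat.lt_or_ge (u / 2^H) (v / 2^H) with h3 | h3
  · have h4 : v / 2^H = u / 2^H + 1 := by omega
    rw [h4] at i2
    have h5 : lo ≤ (u / 2^H + 1) * 2^H := by
      have := Nat.lt_div_mul_add (a := u) hpos
      have e : (u / 2^H + 1) * 2^H = u / 2^H * 2^H + 2^H := by ring
      omega
    have h6 : (u / 2^H + 1) * 2^H ≤ hi := by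
      rw [← h4]; exact (Nat.div_mul_le_self v _).trans h2
    have i3 := osc_edge hρ hlo hH h (u / 2^H) h5 h6
    rw [max_eq_left h5] at i2
    have e : f v - f u = (f v - f ((u / 2^H + 1) * 2^H)) +
      (f ((u / 2^H + 1) * 2^H) - f (max (u / 2^H * 2^H) lo)) - (f u - f (max (u / 2^H * 2^H) lo)) := by abel
    rw [e]
    refine (norm_sub_le _ _).trans ?_
    have := norm_add_le (f v - f ((u / 2^H + 1) * 2^H)) (f ((u / 2^H + 1) * 2^H) - f (max (u / 2^H * 2^H) lo))
    linarith
  · have h4 : v / 2^H = u / 2^H := by omega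
    rw [h4] at i2
    have e : f v - f u = (f v - f (max (u / 2^H * 2^H) lo)) - (f u - f (max (u / 2^H * 2^H) lo)) := by abel
    rw [e]
    refine (norm_sub_le _ _).trans ?_
    linarith

end Pool.Agent.R966.CD
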