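import Pool.Agent.R966.CD.Cells
import Pool.Agent.R966.CD.Osc

/-!
Probability of large oscillations.
-/

set_option autoImplicit false

namespace Pool.Agent.R966.CD

open MeasureTheory ProbabilityTheory
open scoped NNReal ENNReal

variable {n : ℕ}

/-- large oscillations in the shell `lo ≤ |u| ≤ hi`, at the scale `2 ^ H` -/
def OE (n : ℕ) (lo hi H : ℕ) (ρ : ℝ) : Set (ℤ → E n) :=
  {x | ¬ Small (fun u : ℕ => S x u) lo hi H ρ ∨ ¬ Small (fun u : ℕ => S x (-(u : ℤ))) lo hi H ρ}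

/-- elementary events -/
def EV (n : ℕ) (H : ℕ) (ρ : ℝ) (σ : Bool) (l a : ℕ) : Set (ℤ → E n) :=
  if σ then {x | thr ρ H l ≤ ‖S x (((a + 1) * 2^l : ℕ) : ℤ) - S x ((a * 2^l : ℕ) : ℤ)‖}
  else {x | thr ρ H l ≤ ‖S x (-((a * 2^l : ℕ) : ℤ)) - S x (-(((a + 1) * 2^l : ℕ) : ℤ))‖}

theorem measurable_EV (n H : ℕ) (ρ : ℝ) (σ : Bool) (l a : ℕ) : MeasurableSet (EV n H ρ σ l a) := by
  unfold EV
  split
  · exact measurableSet_le measurable_const ((measurable_S _).sub (measurable_S _)).norm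
  · exact measurableSet_le measurable_const ((measurable_S _).sub (measurable_S _)).norm

/-- indices of the elementary events -/
def idx (lo hi H : ℕ) : Finset (Bool × ℕ × ℕ) :=
  ((Finset.univ : Finset Bool) ×ˢ (Finset.range H) ×ˢ (Finset.range hi)).filter
    fun p => lo ≤ p.2.2 * 2^p.2.1 ∧ (p.2.2 + 1) * 2^p.2.1 ≤ hi

theorem OE_eq (n lo hi H : ℕ) (ρ : ℝ) : OE n lo hi H ρ ⊆ ⋃ p ∈ idx lo hi H, EV n H ρ p.1 p.2.1 p.2.2 := by
  intro x hx
  rcases hx with hx | hx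
  · unfold Small at hx
    push Not at hx
    obtain ⟨l, hl, a, h1, h2, h3⟩ := hx
    rw [Set.mem_iUnion₂]
    refine ⟨(true, l, a), ?_, ?_⟩
    · unfold idx
      rw [Finset.mem_filter, Finset.mem_product, Finset.mem_product]
      refine ⟨⟨Finset.mem_univ _, Finset.mem_range.mpr hl, Finset.mem_range.mpr ?_⟩, h1, h2⟩
      have : 1 ≤ 2^l := Nat.one_le_two_pow
      calc a < (a+1) * 1 := by omega
        _ ≤ (a+1) * 2^l := Nat.mul_le_mul_left _ this
        _ ≤ hi := h2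
    · unfold EV
      rw [if_pos rfl]
      exact h3.le
  · unfold Small at hx
    push Not at hx
    obtain ⟨l, hl, a, h1, h2, h3⟩ := hx
    rw [Set.mem_iUnion₂]
    refine ⟨(false, l, a), ?_, ?_⟩
    · unfold idx
      rw [Finset.mem_filter, Finset.mem_product, Finset.mem_product]
      refine ⟨⟨Finset.mem_univ _, Finset.mem_range.mpr hl, Finset.mem_range.mpr ?_⟩, h1, h2⟩
      have : 1 ≤ 2^l := Nat.one_le_two_pow
      calc a < (a+1) * 1 := by omega
        _ ≤ (a+1) * 2^l := Nat.mul_le_mul_left _ this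
        _ ≤ hi := h2
    · unfold EV
      rw [if_neg (by simp)]
      rw [norm_sub_rev] at h3
      exact h3.le

theorem measurable_OE (n lo hi H : ℕ) (ρ : ℝ) : MeasurableSet (OE n lo hi H ρ) := by
  unfold OE Small
  simp only [not_forall]
  have key : ∀ (u v : ℤ) (c : ℝ), MeasurableSet {x : ℤ → E n | ¬ ‖S x u - S x v‖ ≤ c} := fun u v c =>
    (measurableSet_le ((measurable_S _).sub (measurable_S _)).norm measurable_const).compl
  have h1 : {x : ℤ → E n | (∃ l, ∃ (_ : l < H), ∃ a, ∃ (_ : lo ≤ a * 2^l), ∃ (_ : (a+1) * 2^l ≤ hi),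
      ¬ ‖S x (((a + 1) * 2^l : ℕ) : ℤ) - S x ((a * 2^l : ℕ) : ℤ)‖ ≤ thr ρ H l) ∨
      ∃ l, ∃ (_ : l < H), ∃ a, ∃ (_ : lo ≤ a * 2^l), ∃ (_ : (a+1) * 2^l ≤ hi),
      ¬ ‖S x (-(((a + 1) * 2^l : ℕ) : ℤ)) - S x (-((a * 2^l : ℕ) : ℤ))‖ ≤ thr ρ H l} =
      (⋃ l, ⋃ (_ : l < H), ⋃ a, ⋃ (_ : lo ≤ a * 2^l), ⋃ (_ : (a+1) * 2^l ≤ hi),
      {x | ¬ ‖S x (((a + 1) * 2^l : ℕ) : ℤ) - S x ((a * 2^l : ℕ) : ℤ)‖ ≤ thr ρ H l}) ∪
      (⋃ l, ⋃ (_ : l < H), ⋃ a, ⋃ (_ : lo ≤ a * 2^l), ⋃ (_ : (a+1) * 2^l ≤ hi),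
      {x | ¬ ‖S x (-(((a + 1) * 2^l : ℕ) : ℤ)) - S x (-((a * 2^l : ℕ) : ℤ))‖ ≤ thr ρ H l}) := by
    ext x
    simp only [Set.mem_ofPred_eq, Set.mem_union, Set.mem_iUnion]
  refine MeasurableSet.congr ?_ h1.symm
  apply MeasurableSet.union
  · exact MeasurableSet.iUnion fun l => MeasurableSet.iUnion fun _ => MeasurableSet.iUnion fun a =>
      MeasurableSet.iUnion fun _ => MeasurableSet.iUnion fun _ => key _ _ _
  · exact MeasurableSet.iUnion fun l => MeasurableSet.iUnion fun _ => MeasurableSet.iUnion fun a =>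
      MeasurableSet.iUnion fun _ => MeasurableSet.iUnion fun _ => key _ _ _

/-- one elementary event -/
theorem Q_EV {v : ℝ≥0} (hv : 0 < v) {A : Finset ℤ} {lo hi H : ℕ} {ρ : ℝ} (hρ : 0 ≤ ρ)
    (hA : ∀ i : ℤ, (lo : ℤ) ≤ i ∧ i < hi ∨ -(hi : ℤ) ≤ i ∧ i < -(lo : ℤ) → i ∈ A) (y : ℝ)
    (hy : 1 ≤ y) (h : 1152 * y * n * (2^H * v) ≤ ρ^2) (σ : Bool) (l a : ℕ) (hl : l < H)
    (h1 : lo ≤ a * 2^l) (h2 : (a+1) * 2^l ≤ hi) (x : ℤ → E n) :
    Q n v A (EV n H ρ σ l a) x ≤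
      ENNReal.ofReal (Real.exp (-(7.5 * y * n)) * (Real.exp (-(y * n)))^(H - l)) := by
  have hv' : (0:ℝ) < v := hv
  obtain ⟨m, hm⟩ : ∃ m, m = H - l := ⟨_, rfl⟩
  have hHl : H = l + m := by omega
  have key : ∀ u w : ℤ, w - u = 2^l → Finset.Ico u w ⊆ A →
      Q n v A {x | thr ρ H l ≤ ‖S x w - S x u‖} x ≤
        ENNReal.ofReal (Real.exp (-(7.5 * y * n)) * (Real.exp (-(y * n)))^(H - l)) := by
    intro u w huw hsub
    have hpos : (0:ℤ) < 2^l := by positivity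
    refine (Q_large v hv A (by omega) hsub _ (thr_nonneg hρ H l) x).trans ?_
    apply ENNReal.ofReal_le_ofReal
    rw [← Real.exp_add, ← Real.exp_nat_mul, ← Real.exp_add]
    apply Real.exp_le_exp.mpr
    rw [huw]
    push_cast
    have e1 : thr ρ H l ^ 2 / (4 * (2^l * v)) = ρ^2 * (9/8 : ℝ)^m / (144 * (2^H * v)) := by
      unfold thr
      rw [← hm, hHl, pow_add]
      have e2 : ((3/4 : ℝ)^m)^2 = (9/8 : ℝ)^m / 2^m := by
        rw [← pow_mul, mul_comm m 2, pow_mul, ← div_pow]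
        norm_num
      rw [div_pow, mul_pow, e2]
      field_simp
      ring
    rw [e1, ← hm]
    have e3 : 8 * y * n * (9/8 : ℝ)^m ≤ ρ^2 * (9/8 : ℝ)^m / (144 * (2^H * v)) := by
      rw [le_div_iff₀ (by positivity)]
      have : (8 * y * n * (9/8 : ℝ)^m) * (144 * (2^H * v)) = (1152 * y * n * (2^H * v)) * (9/8 : ℝ)^m := by
        ring
      rw [this]
      exact mul_le_mul_of_nonneg_right h (by positivity)
    have e4 : 1 + (m : ℝ) / 8 ≤ (9/8 : ℝ)^m := by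
      have := one_add_mul_le_pow (show (-2 : ℝ) ≤ 1/8 by norm_num) m
      calc 1 + (m : ℝ)/8 = 1 + m * (1/8) := by ring
        _ ≤ (1 + 1/8)^m := this
        _ = _ := by norm_num
    have hn0 : (0:ℝ) ≤ n := Nat.cast_nonneg n
    have e5 : 8 * y * n * (1 + (m : ℝ)/8) ≤ 8 * y * n * (9/8 : ℝ)^m :=
      mul_le_mul_of_nonneg_left e4 (by positivity)
    have e6 : (n : ℝ)/2 ≤ 0.5 * y * n := by nlinarith
    nlinarith
  unfold EV
  split
  · apply key
    · push_cast; ring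
    · intro i hi'
      rw [Finset.mem_Ico] at hi'
      apply hA
      left
      constructor
      · have : (lo : ℤ) ≤ ((a * 2^l : ℕ) : ℤ) := by exact_mod_cast h1
        omega
      · have : (((a+1) * 2^l : ℕ) : ℤ) ≤ (hi : ℤ) := by exact_mod_cast h2
        omega
  · apply key
    · push_cast; ring
    · intro i hi'
      rw [Finset.mem_Ico] at hi'
      apply hA
      right
      constructor
      · have : (((a+1) * 2^l : ℕ) : ℤ) ≤ (hi : ℤ) := by exact_mod_cast h2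
        omega
      · have : (lo : ℤ) ≤ ((a * 2^l : ℕ) : ℤ) := by exact_mod_cast h1
        omega

/-- **probability of large oscillations** -/
theorem Q_OE {v : ℝ≥0} (hv : 0 < v) {A : Finset ℤ} {lo hi H : ℕ} {ρ : ℝ} (hρ : 0 ≤ ρ)
    (hA : ∀ i : ℤ, (lo : ℤ) ≤ i ∧ i < hi ∨ -(hi : ℤ) ≤ i ∧ i < -(lo : ℤ) → i ∈ A) (y : ℝ)
    (hy : 1 ≤ y) (hn : 2 ≤ n) (h : 1152 * y * n * (2^H * v) ≤ ρ^2) (x : ℤ → E n) :
    Q n v A (OE n lo hi H ρ) x ≤ ENNReal.ofReal (2 * (hi / 2^H) * Real.exp (-(7 * y * n))) := by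
  refine (Q_mono v A (OE_eq n lo hi H ρ) x).trans ?_
  refine (Q_biUnion v A _ _ x).trans ?_
  have hstep : ∀ p ∈ idx lo hi H, Q n v A (EV n H ρ p.1 p.2.1 p.2.2) x ≤
      ENNReal.ofReal (Real.exp (-(7.5 * y * n)) * (Real.exp (-(y * n)))^(H - p.2.1)) := by
    intro p hp
    unfold idx at hp
    rw [Finset.mem_filter, Finset.mem_product, Finset.mem_product] at hp
    exact Q_EV hv hρ hA y hy h p.1 p.2.1 p.2.2 (Finset.mem_range.mp hp.1.2.1) hp.2.1 hp.2.2 x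
  refine (Finset.sum_le_sum hstep).trans ?_
  rw [← ENNReal.ofReal_sum_of_nonneg (fun p _ => by positivity)]
  apply ENNReal.ofReal_le_ofReal
  -- enlarge the index set
  have hsub : idx lo hi H ⊆ (Finset.univ : Finset Bool) ×ˢ
      ((Finset.range H).sigma fun l => Finset.range (hi / 2^l)).image (fun s => (s.1, s.2)) := by
    intro p hp
    unfold idx at hp
    rw [Finset.mem_filter, Finset.mem_product, Finset.mem_product] at hp
    rw [Finset.mem_product]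
    refine ⟨Finset.mem_univ _, ?_⟩
    rw [Finset.mem_image]
    refine ⟨⟨p.2.1, p.2.2⟩, ?_, rfl⟩
    rw [Finset.mem_sigma]
    refine ⟨hp.1.2.1, Finset.mem_range.mpr ?_⟩
    have : p.2.2 + 1 ≤ hi / 2^p.2.1 := by
      rw [Nat.le_div_iff_mul_le (by positivity)]
      exact hp.2.2
    exact this
  refine (Finset.sum_le_sum_of_subset_of_nonneg hsub (fun p _ _ => by positivity)).trans ?_
  rw [Finset.sum_product]
  simp only [Finset.sum_const, Finset.card_univ, Fintype.card_bool, nsmul_eq_mul, Nat.cast_ofNat]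
  rw [Finset.sum_image (by
    rintro ⟨a, b⟩ _ ⟨c, d⟩ _ hab
    simp only [Prod.mk.injEq] at hab
    obtain ⟨rfl, rfl⟩ := hab
    rfl), Finset.sum_sigma]
  simp only [Finset.sum_const, Finset.card_range, nsmul_eq_mul]
  have hyn : 2 ≤ y * n := by
    have : (2:ℝ) ≤ n := by exact_mod_cast hn
    nlinarith
  have hexp : Real.exp (-(y * n)) ≤ 1/4 := by
    have h1 : Real.exp (-(y * n)) ≤ Real.exp (-2) := Real.exp_le_exp.mpr (by linarith)
    rw [Real.exp_neg 2] at h1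
    have h2 : (4:ℝ) ≤ Real.exp 2 := by
      have h3 : Real.exp 2 = (Real.exp 1)^2 := by rw [← Real.exp_nat_mul]; norm_num
      rw [h3]
      have := Real.exp_one_gt_d9
      nlinarith
    refine h1.trans ?_
    rw [one_div]
    exact inv_anti₀ (by norm_num) h2
  have hterm : ∀ l ∈ Finset.range H, (((hi / 2^l : ℕ) : ℝ)) *
      (Real.exp (-(7.5 * y * n)) * (Real.exp (-(y * n)))^(H - l)) ≤
      (hi / 2^H * Real.exp (-(7 * y * n))) * (1/2 : ℝ)^(H - l) := by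
    intro l hl
    have hl' := Finset.mem_range.mp hl
    obtain ⟨m, hm⟩ : ∃ m, m = H - l := ⟨_, rfl⟩
    have hHl : H = l + m := by omega
    rw [← hm]
    have h1 : ((hi / 2^l : ℕ) : ℝ) ≤ hi / 2^l := by
      have := @Nat.cast_div_le ℝ _ _ _ hi (2^l)
      push_cast at this
      exact this
    have h2 : (hi : ℝ) / 2^l = hi / 2^H * 2^m := by
      rw [hHl, pow_add]; field_simp
    have h3 : (Real.exp (-(y * n)))^m ≤ (1/4 : ℝ)^m := pow_le_pow_left₀ (Real.exp_pos _).le hexp m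
    have h4 : Real.exp (-(7.5 * y * n)) ≤ Real.exp (-(7 * y * n)) := Real.exp_le_exp.mpr (by
      nlinarith)
    calc (((hi / 2^l : ℕ) : ℝ)) * (Real.exp (-(7.5 * y * n)) * (Real.exp (-(y * n)))^m)
        ≤ (hi / 2^H * 2^m) * (Real.exp (-(7 * y * n)) * (1/4 : ℝ)^m) := by
          rw [← h2]
          apply mul_le_mul h1 _ (by positivity) (by positivity)
          exact mul_le_mul h4 h3 (by positivity) (Real.exp_pos _).le
      _ = (hi / 2^H * Real.exp (-(7 * y * n))) * ((2:ℝ)^m * (1/4 : ℝ)^m) := by ring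
      _ = _ := by rw [← mul_pow]; norm_num
  have hsum := Finset.sum_le_sum hterm
  rw [← Finset.mul_sum] at hsum
  have hgeom : ∑ l ∈ Finset.range H, (1/2 : ℝ)^(H - l) ≤ 1 := by
    have h1 : ∑ l ∈ Finset.range H, (1/2 : ℝ)^(H - l) = ∑ l ∈ Finset.range H, (1/2 : ℝ)^(l+1) := by
      rw [← Finset.sum_range_reflect]
      apply Finset.sum_congr rfl
      intro l hl
      have hl' := Finset.mem_range.mp hl
      congr 1
      omega
    rw [h1]
    have h2 : ∀ K : ℕ, ∑ l ∈ Finset.range K, (1/2 : ℝ)^(l+1) = 1 - (1/2 : ℝ)^K := by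
      intro K
      induction K with
      | zero => simp
      | succ K ih => rw [Finset.sum_range_succ, ih]; ring
    rw [h2]
    have : (0:ℝ) ≤ (1/2 : ℝ)^H := by positivity
    linarith
  have hnn : (0:ℝ) ≤ hi / 2^H * Real.exp (-(7 * y * n)) := by positivity
  nlinarith

end Pool.Agent.R966.CD
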