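import Pool.Agent.R966.CD.Metric

/-!
Quasisymmetry and dimension of the chain metric.
-/

set_option autoImplicit false

namespace Pool.Agent.R966.CD

open scoped NNReal ENNReal
open MeasureTheory Filter Topology

/-- a homeomorphism of `[0, ∞)` of power type -/
theorem exists_homeo (C L : ℝ≥0) (hC : 0 < C) (hL : 0 < L) (α β : ℝ) (hα : 0 < α) (hβ : 0 < β) :
    ∃ η : ℝ≥0 ≃ₜ ℝ≥0, ∀ t, η t = C * ((L * t)^α + (L * t)^β) := by
  have hmono : StrictMono fun t : ℝ≥0 => C * ((L * t)^α + (L * t)^β) := by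
    intro s t hst
    have h1 : L * s < L * t := mul_lt_mul_of_pos_left hst hL
    have h2 := NNReal.rpow_lt_rpow h1 hα
    have h3 := NNReal.rpow_lt_rpow h1 hβ
    exact mul_lt_mul_of_pos_left (add_lt_add h2 h3) hC
  have hcont : Continuous fun t : ℝ≥0 => C * ((L * t)^α + (L * t)^β) := by
    have h1 : ∀ γ : ℝ, 0 < γ → Continuous fun t : ℝ≥0 => (L * t)^γ := fun γ hγ =>
      (NNReal.continuous_rpow_const hγ.le).comp (continuous_const.mul continuous_id)
    exact continuous_const.mul ((h1 α hα).add (h1 β hβ))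
  have hsurj : Function.Surjective fun t : ℝ≥0 => C * ((L * t)^α + (L * t)^β) := by
    intro y
    refine mem_range_of_exists_le_of_exists_ge hcont ⟨0, ?_⟩ ⟨(y / C)^(α⁻¹) / L, ?_⟩
    · rw [mul_zero, NNReal.zero_rpow hα.ne', NNReal.zero_rpow hβ.ne', add_zero, mul_zero]
      exact zero_le
    · have h1 : L * ((y / C)^(α⁻¹) / L) = (y / C)^(α⁻¹) := by
        rw [mul_div_cancel₀]
        exact hL.ne'
      have h2 : ((y / C)^(α⁻¹))^α = y / C := by
        rw [← NNReal.rpow_mul, inv_mul_cancel₀ hα.ne', NNReal.rpow_one]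
      show y ≤ C * ((L * ((y / C)^(α⁻¹) / L))^α + (L * ((y / C)^(α⁻¹) / L))^β)
      rw [h1, h2, mul_add, mul_div_cancel₀ _ hC.ne']
      exact le_add_of_nonneg_right zero_le
  exact ⟨(hmono.orderIsoOfSurjective _ hsurj).toHomeomorph, fun t => rfl⟩

variable {X : Type*} [MetricSpace X]

namespace Wt

variable (W : Wt X)

theorem p_shift_hi (k m : ℕ) (x : X) : W.p (k + m) x ≤ W.hi^m * W.p k x := by
  have : Nonempty X := ⟨x⟩
  have hhi := W.hi_pos
  induction m with
  | zero => simp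
  | succ m ih =>
    refine (W.step_hi (k+m) x).trans ?_
    rw [pow_succ, mul_comm (W.hi^m), mul_assoc]
    exact mul_le_mul_of_nonneg_left ih hhi.le

theorem p_shift_lo (k m : ℕ) (x : X) : W.lo^m * W.p k x ≤ W.p (k + m) x := by
  induction m with
  | zero => simp
  | succ m ih =>
    refine le_trans ?_ (W.step_lo (k+m) x)
    rw [pow_succ, mul_comm (W.lo^m), mul_assoc]
    exact mul_le_mul_of_nonneg_left ih W.hlo.le

theorem r_shift (k m : ℕ) : W.r k = W.b^m * W.r (k+m) := by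
  induction m with
  | zero => simp
  | succ m ih =>
    rw [ih, W.r_succ (k+m), pow_succ]
    ring_nf

/-- quasisymmetry of the identity -/
theorem qs (D : ℝ) (hD : ∀ x y : X, dist x y ≤ D) :
    ∃ η : ℝ≥0 ≃ₜ ℝ≥0, ∀ (x a b : X) (t : ℝ≥0), dist x a ≤ t * dist x b →
      W.d x a ≤ η t * W.d x b := by
  by_cases hX : Nonempty X
  swap
  · exact ⟨Homeomorph.refl _, fun x => (hX ⟨x⟩).elim⟩
  have hhi0 := W.hi_pos
  have hlo0 := W.hlo
  have hhi1 := W.hhi
  have hlo1 : W.lo < 1 := by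
    obtain ⟨x⟩ := hX
    have h1 := W.step_lo 0 x
    have h2 := W.step_hi 0 x
    rw [W.p0] at h1 h2
    linarith
  have hb := W.hb
  have hb1 : 1 < W.b := by linarith
  have hlogb : 0 < Real.log W.b := Real.log_pos hb1
  obtain ⟨α, hα⟩ : ∃ α : ℝ, α = Real.log (1 / W.hi) / Real.log W.b := ⟨_, rfl⟩
  obtain ⟨β, hβ⟩ : ∃ β : ℝ, β = Real.log (1 / W.lo) / Real.log W.b := ⟨_, rfl⟩
  have hα0 : 0 < α := by
    rw [hα]
    exact div_pos (Real.log_pos (by rw [lt_div_iff₀ hhi0]; linarith)) hlogb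
  have hβ0 : 0 < β := by
    rw [hβ]
    exact div_pos (Real.log_pos (by rw [lt_div_iff₀ hlo0]; linarith)) hlogb
  have hbα : W.b^α = 1 / W.hi := by
    rw [hα, Real.rpow_def_of_pos (by linarith), mul_div_cancel₀ _ hlogb.ne', Real.exp_log]
    positivity
  have hbβ : W.b^β = 1 / W.lo := by
    rw [hβ, Real.rpow_def_of_pos (by linarith), mul_div_cancel₀ _ hlogb.ne', Real.exp_log]
    positivity
  obtain ⟨Λ, hΛ⟩ : ∃ Λ : ℝ, Λ = max 1 (D / W.R) := ⟨_, rfl⟩
  have hΛ1 : 1 ≤ Λ := by rw [hΛ]; exact le_max_left _ _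
  have hDΛ : D ≤ Λ * W.r 0 := by
    have : W.r 0 = W.R := by unfold r; simp
    rw [this]
    have h1 : D / W.R ≤ Λ := by rw [hΛ]; exact le_max_right _ _
    rwa [div_le_iff₀ W.hR] at h1
  obtain ⟨η, hη⟩ := exists_homeo (Real.toNNReal (6 / W.lo^2)) (Real.toNNReal (Λ * W.b))
    (by rw [Real.toNNReal_pos]; positivity) (by rw [Real.toNNReal_pos]; positivity) α β hα0 hβ0
  refine ⟨η, fun x a b t ht => ?_⟩
  have hηt : (η t : ℝ) = 6 / W.lo^2 * ((Λ * W.b * t)^α + (Λ * W.b * t)^β) := by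
    rw [hη]
    push_cast
    rw [Real.coe_toNNReal _ (by positivity), Real.coe_toNNReal _ (by positivity)]
  by_cases hxa : x = a
  · rw [hxa, W.d_self]
    exact mul_nonneg (NNReal.coe_nonneg _) (W.d_nonneg _ _)
  by_cases hxb : x = b
  · exfalso
    rw [hxb, dist_self, mul_zero] at ht
    exact hxa (hxb ▸ dist_le_zero.mp ht)
  have h1 := W.d_upper hxa
  have h2 := W.d_lower hxb
  -- distances
  have e1 := W.lv_spec hxa
  have e2 : dist x b ≤ Λ * W.r (W.lv x b) := by
    rcases Nat.eq_zero_or_pos (W.lv x b) with h0 | h0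
    · rw [h0]; exact (hD x b).trans hDΛ
    · have := W.lv_le hxb h0
      have h3 := W.r_pos (W.lv x b)
      nlinarith
  obtain ⟨u, hu⟩ : ∃ u : ℝ, u = Λ * W.b * t := ⟨_, rfl⟩
  have hu0 : 0 ≤ u := by rw [hu]; positivity
  have e3 : W.r (W.lv x a) ≤ u * W.r (W.lv x b) := by
    rw [W.r_succ (W.lv x a), hu]
    have h3 : W.b * W.r (W.lv x a + 1) ≤ W.b * (t * (Λ * W.r (W.lv x b))) := by
      apply mul_le_mul_of_nonneg_left _ (by linarith)
      exact e1.le.trans (ht.trans (mul_le_mul_of_nonneg_left e2 (NNReal.coe_nonneg _)))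
    calc _ ≤ _ := h3
      _ = _ := by ring
  -- comparison of the weights
  have key : W.p (W.lv x a) x ≤ (u^α + u^β) * W.p (W.lv x b) x := by
    rcases le_total (W.lv x a) (W.lv x b) with hl | hl
    · obtain ⟨m, hm⟩ := Nat.exists_eq_add_of_le hl
      rw [hm] at e3 ⊢
      rw [W.r_shift (W.lv x a) m] at e3
      have h5 : W.b^m ≤ u := le_of_mul_le_mul_right e3 (W.r_pos _)
      have h6 : (1 / W.lo)^m ≤ u^β := by
        calc (1 / W.lo)^m = (W.b^m)^β := by
              rw [← hbβ, ← Real.rpow_natCast (W.b^β), ← Real.rpow_mul (by linarith), mul_comm,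
                Real.rpow_mul (by linarith), Real.rpow_natCast]
          _ ≤ u^β := Real.rpow_le_rpow (by positivity) h5 hβ0.le
      have h7 := W.p_shift_lo (W.lv x a) m x
      have h8 : W.p (W.lv x a) x ≤ (1 / W.lo)^m * W.p (W.lv x a + m) x := by
        rw [one_div, inv_pow, ← div_eq_inv_mul, le_div_iff₀ (by positivity), mul_comm]
        exact h7
      have h9 : 0 ≤ u^α := Real.rpow_nonneg hu0 _
      have h10 := W.p_pos (W.lv x a + m) x
      calc _ ≤ _ := h8
        _ ≤ u^β * W.p (W.lv x a + m) x := mul_le_mul_of_nonneg_right h6 h10.le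
        _ ≤ _ := by
          rw [add_mul]
          have := mul_nonneg h9 h10.le
          linarith
    · obtain ⟨m, hm⟩ := Nat.exists_eq_add_of_le hl
      rw [hm] at e3 ⊢
      rw [W.r_shift (W.lv x b) m, ← mul_assoc] at e3
      have h5 : 1 ≤ u * W.b^m := by
        have := W.r_pos (W.lv x b + m)
        by_contra hc
        have : u * W.b^m * W.r (W.lv x b + m) < 1 * W.r (W.lv x b + m) :=
          mul_lt_mul_of_pos_right (not_le.mp hc) this
        linarith
      have h5' : (W.b^m)⁻¹ ≤ u := by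
        rw [inv_eq_one_div, div_le_iff₀ (by positivity)]
        exact h5
      have h6 : W.hi^m ≤ u^α := by
        calc W.hi^m = ((W.b^m)⁻¹)^α := by
              rw [Real.inv_rpow (by positivity), ← Real.rpow_natCast W.b, ← Real.rpow_mul
                (by linarith), mul_comm, Real.rpow_mul (by linarith), hbα, Real.rpow_natCast,
                one_div, inv_pow, inv_inv]
          _ ≤ u^α := Real.rpow_le_rpow (by positivity) h5' hα0.le
      have h7 := W.p_shift_hi (W.lv x b) m x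
      have h9 : 0 ≤ u^β := Real.rpow_nonneg hu0 _
      have h10 := W.p_pos (W.lv x b) x
      calc _ ≤ _ := h7
        _ ≤ u^α * W.p (W.lv x b) x := mul_le_mul_of_nonneg_right h6 h10.le
        _ ≤ _ := by
          rw [add_mul]
          have := mul_nonneg h9 h10.le
          linarith
  rw [hηt, ← hu]
  have h11 : 0 ≤ u^α + u^β := add_nonneg (Real.rpow_nonneg hu0 _) (Real.rpow_nonneg hu0 _)
  have h12 : W.p (W.lv x b) x ≤ 2 / W.lo^2 * W.d x b := by
    have h13 : 0 < W.lo^2 := by positivity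
    rw [div_mul_eq_mul_div, le_div_iff₀ h13]
    linarith
  calc W.d x a ≤ 3 * W.p (W.lv x a) x := h1
    _ ≤ 3 * ((u^α + u^β) * (2 / W.lo^2 * W.d x b)) := by
        apply mul_le_mul_of_nonneg_left _ (by norm_num)
        exact key.trans (mul_le_mul_of_nonneg_left h12 h11)
    _ = _ := by ring

/-- small balls have small diameter -/
theorem ediam_ball (k : ℕ) (y : X) :
    Metric.ediam ((fun z => W.toY z) '' {z | dist y z ≤ W.r k}) ≤ ENNReal.ofReal (6 * W.p k y) := by
  apply Metric.ediam_le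
  rintro _ ⟨z1, h1, rfl⟩ _ ⟨z2, h2, rfl⟩
  have key : ∀ z, dist y z ≤ W.r k → W.d y z ≤ 3 * W.p k y := by
    intro z hz
    by_cases hne : y = z
    · rw [← hne, W.d_self]
      have := W.p_pos k y
      linarith
    · have h3 := W.d_upper hne
      have h4 := W.p_anti (W.lv_ge hne hz) y
      linarith
  rw [edist_dist]
  apply ENNReal.ofReal_le_ofReal
  rw [W.dist_toY]
  have h3 := W.d_triangle z1 y z2
  rw [W.d_comm z1 y] at h3
  linarith [key z1 h1, key z2 h2]

/-- upper bound for the dimension of the new space -/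
theorem dimH_le (q : ℝ≥0) (h : ∀ (ε : ℝ) (k0 : ℕ), 0 < ε → ∃ k, k0 ≤ k ∧
    ∃ F : Finset X, (∀ x, ∃ y ∈ F, dist y x ≤ W.r k) ∧ ∑ y ∈ F, W.p k y ^ (q : ℝ) ≤ ε) :
    dimH (Set.univ : Set W.Y) ≤ q := by
  classical
  by_cases hX : Nonempty X
  swap
  · have : IsEmpty W.Y := ⟨fun y => hX ⟨W.toY.symm y⟩⟩
    rw [Set.univ_eq_empty_iff.mpr this, dimH_empty]
    exact zero_le
  obtain ⟨x0⟩ := hX
  have : Nonempty X := ⟨x0⟩
  borelize W.Y
  choose! k hk F hF hS using h
  have hk' := fun n : ℕ => hk (1 / ((n : ℝ) + 1)) n (by positivity)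
  have hF' := fun n : ℕ => hF (1 / ((n : ℝ) + 1)) n (by positivity)
  have hS' := fun n : ℕ => hS (1 / ((n : ℝ) + 1)) n (by positivity)
  set kk : ℕ → ℕ := fun n => k (1 / ((n : ℝ) + 1)) n with hkk
  set FF : ℕ → Finset X := fun n => F (1 / ((n : ℝ) + 1)) n with hFF
  have hkn : ∀ n, n ≤ kk n := fun n => hk' n
  have hcov : ∀ n x, ∃ y ∈ FF n, dist y x ≤ W.r (kk n) := fun n => hF' n
  have hsum : ∀ n, ∑ y ∈ FF n, W.p (kk n) y ^ (q : ℝ) ≤ 1 / ((n : ℝ) + 1) := fun n => hS' n
  clear_value kk FF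
  set t : ∀ n : ℕ, (FF n) → Set W.Y := fun n y =>
    (fun z => W.toY z) '' {z | dist (y : X) z ≤ W.r (kk n)} with ht
  have hd : ∀ n (y : FF n), Metric.ediam (t n y) ≤ ENNReal.ofReal (6 * W.p (kk n) y) :=
    fun n y => W.ediam_ball (kk n) y
  have hH : μH[(q : ℝ)] (Set.univ : Set W.Y) ≤
      liminf (fun n => ∑ y : FF n, Metric.ediam (t n y) ^ (q : ℝ)) atTop := by
    refine Measure.hausdorffMeasure_le_liminf_sum (q : ℝ) Set.univ
      (fun n => ENNReal.ofReal (6 * W.hi^n)) ?_ t ?_ ?_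
    · rw [← ENNReal.ofReal_zero]
      apply ENNReal.tendsto_ofReal
      have := (tendsto_pow_atTop_nhds_zero_of_lt_one W.hi_pos.le W.hhi).const_mul 6
      rwa [mul_zero] at this
    · refine Eventually.of_forall fun n y => (hd n y).trans (ENNReal.ofReal_le_ofReal ?_)
      have h1 := W.p_le_pow (kk n) y
      have h2 : W.hi^(kk n) ≤ W.hi^n := pow_le_pow_of_le_one W.hi_pos.le W.hhi.le (hkn n)
      linarith
    · refine Eventually.of_forall fun n z _ => ?_
      obtain ⟨y, hy, hyz⟩ := hcov n (W.toY.symm z)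
      rw [Set.mem_iUnion]
      exact ⟨⟨y, hy⟩, W.toY.symm z, hyz, rfl⟩
  have hlim : liminf (fun n => ∑ y : FF n, Metric.ediam (t n y) ^ (q : ℝ)) atTop ≤ 0 := by
    have hb : ∀ n, ∑ y : FF n, Metric.ediam (t n y) ^ (q : ℝ) ≤
        ENNReal.ofReal (6^(q:ℝ) * (1 / ((n : ℝ) + 1))) := by
      intro n
      calc ∑ y : FF n, Metric.ediam (t n y) ^ (q : ℝ)
          ≤ ∑ y : FF n, ENNReal.ofReal (6^(q:ℝ) * W.p (kk n) y ^ (q : ℝ)) := by
            apply Finset.sum_le_sum
            intro y _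
            refine (ENNReal.rpow_le_rpow (hd n y) q.2).trans ?_
            rw [ENNReal.ofReal_rpow_of_nonneg (by have := W.p_pos (kk n) (y : X); positivity) q.2,
              Real.mul_rpow (by norm_num) (W.p_pos _ _).le]
            exact le_rfl
        _ = ENNReal.ofReal (∑ y : FF n, 6^(q:ℝ) * W.p (kk n) y ^ (q : ℝ)) := by
            rw [ENNReal.ofReal_sum_of_nonneg]
            intro y _
            have := W.p_pos (kk n) (y : X)
            positivity
        _ ≤ _ := by
            apply ENNReal.ofReal_le_ofReal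
            rw [← Finset.mul_sum]
            apply mul_le_mul_of_nonneg_left _ (by positivity)
            rw [Finset.sum_coe_sort (FF n) (fun y => W.p (kk n) y ^ (q : ℝ))]
            exact hsum n
    have hz : Tendsto (fun n : ℕ => ENNReal.ofReal (6^(q:ℝ) * (1 / ((n : ℝ) + 1)))) atTop (𝓝 0) := by
      rw [← ENNReal.ofReal_zero]
      apply ENNReal.tendsto_ofReal
      have := (tendsto_one_div_add_atTop_nhds_zero_nat (𝕜 := ℝ)).const_mul (6^(q:ℝ))
      rwa [mul_zero] at this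
    calc _ ≤ liminf (fun n : ℕ => ENNReal.ofReal (6^(q:ℝ) * (1 / ((n : ℝ) + 1)))) atTop :=
          liminf_le_liminf (Eventually.of_forall hb)
      _ = 0 := hz.liminf_eq
  have h0 : μH[(q : ℝ)] (Set.univ : Set W.Y) = 0 := le_antisymm (hH.trans hlim) zero_le
  exact dimH_le_of_hausdorffMeasure_ne_top (by rw [h0]; exact ENNReal.zero_ne_top)

end Wt

end Pool.Agent.R966.CD
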