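import Pool.Agent.R966.CD.QS

/-!
Scale weights from bad sets.
-/

set_option autoImplicit false

namespace Pool.Agent.R966.CD

variable {X : Type*} [MetricSpace X]

/-- data for the construction of weights -/
structure BD (X : Type*) [MetricSpace X] where
  R : ℝ
  b : ℝ
  s : ℝ
  τ : ℝ
  Bad : ℕ → Set X
  hR : 0 < R
  hb : 11 ≤ b
  hs : 0 < s
  hsτ : s ≤ τ
  hτ : τ < 1
  hτb : 8 ≤ τ * b
  hlog : 4 * Real.log (τ / s) ≤ (b - 1) * Real.log 2
  good : ∀ k x (L : List X), x ∉ Bad k → Steps (4 * (R/b^(k+1))) x L →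
    (∀ z ∈ L, dist x z ≤ 2 * (R/b^k)) → R/b^k ≤ dist x (lst x L) → 2 / s ≤ L.length + 1

namespace BD

variable (D : BD X)

/-- radii -/
noncomputable def r (k : ℕ) : ℝ := D.R / D.b^k

theorem b_pos : 0 < D.b := by linarith [D.hb]

theorem r_pos (k : ℕ) : 0 < D.r k := div_pos D.hR (pow_pos D.b_pos k)

theorem r_succ (k : ℕ) : D.r k = D.b * D.r (k+1) := by
  unfold r
  have := D.b_pos
  rw [pow_succ]
  field_simp

open Classical in
/-- cut-off function of the bad set of level `k` -/
noncomputable def φ (k : ℕ) (x : X) : ℝ :=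
  if D.Bad k = ∅ then 0 else max 0 (min 1 (3 - Metric.infDist x (D.Bad k) / D.r k))

theorem φ_nonneg (k : ℕ) (x : X) : 0 ≤ D.φ k x := by
  unfold φ; split
  · exact le_rfl
  · exact le_max_left _ _

theorem φ_le_one (k : ℕ) (x : X) : D.φ k x ≤ 1 := by
  unfold φ; split
  · exact zero_le_one
  · exact max_le zero_le_one (min_le_left _ _)

theorem φ_lip (k : ℕ) (x y : X) : D.φ k x ≤ D.φ k y + dist x y / D.r k := by
  unfold φ
  split
  · exact add_nonneg le_rfl (div_nonneg dist_nonneg (D.r_pos k).le)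
  · have h0 : 0 ≤ dist x y / D.r k := div_nonneg dist_nonneg (D.r_pos k).le
    have h1 : Metric.infDist y (D.Bad k) ≤ Metric.infDist x (D.Bad k) + dist y x :=
      Metric.infDist_le_infDist_add_dist
    have h2 : Metric.infDist y (D.Bad k) / D.r k ≤
        Metric.infDist x (D.Bad k) / D.r k + dist x y / D.r k := by
      rw [← add_div, dist_comm x y]
      exact div_le_div_of_nonneg_right h1 (D.r_pos k).le
    refine max_le (add_nonneg (le_max_left _ _) h0) ?_
    rcases le_total 1 (3 - Metric.infDist y (D.Bad k) / D.r k) with h3 | h3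
    · have : (1:ℝ) ≤ max 0 (min 1 (3 - Metric.infDist y (D.Bad k) / D.r k)) := by
        rw [min_eq_left h3]; exact le_max_right _ _
      have h4 : min 1 (3 - Metric.infDist x (D.Bad k) / D.r k) ≤ 1 := min_le_left _ _
      linarith
    · have h5 : 3 - Metric.infDist y (D.Bad k) / D.r k ≤
          max 0 (min 1 (3 - Metric.infDist y (D.Bad k) / D.r k)) := by
        rw [min_eq_right h3]; exact le_max_right _ _
      have h4 : min 1 (3 - Metric.infDist x (D.Bad k) / D.r k) ≤
        3 - Metric.infDist x (D.Bad k) / D.r k := min_le_right _ _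
      linarith

theorem φ_eq_one {k : ℕ} {x y : X} (hy : y ∈ D.Bad k) (h : dist x y ≤ 2 * D.r k) :
    D.φ k x = 1 := by
  unfold φ
  rw [if_neg (Set.Nonempty.ne_empty ⟨y, hy⟩)]
  have h1 : Metric.infDist x (D.Bad k) ≤ 2 * D.r k := (Metric.infDist_le_dist_of_mem hy).trans h
  have h2 : Metric.infDist x (D.Bad k) / D.r k ≤ 2 := by
    rw [div_le_iff₀ (D.r_pos k)]; exact h1
  rw [min_eq_left (by linarith), max_eq_right zero_le_one]

theorem φ_eq_zero {k : ℕ} {x : X} (h : ∀ y ∈ D.Bad k, 3 * D.r k ≤ dist x y) : D.φ k x = 0 := by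
  unfold φ
  split
  · rfl
  · rename_i hne
    have hne' : (D.Bad k).Nonempty := Set.nonempty_iff_ne_empty.mpr hne
    have h1 : 3 * D.r k ≤ Metric.infDist x (D.Bad k) := (Metric.le_infDist hne').mpr h
    have h2 : 3 ≤ Metric.infDist x (D.Bad k) / D.r k := by
      rw [le_div_iff₀ (D.r_pos k)]; exact h1
    exact max_eq_left ((min_le_right _ _).trans (by linarith))

/-- ratio of consecutive weights -/
noncomputable def ρ (k : ℕ) (x : X) : ℝ := D.s * (D.τ / D.s)^(D.φ k x)

theorem ratio_one_le : 1 ≤ D.τ / D.s := by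
  rw [le_div_iff₀ D.hs, one_mul]; exact D.hsτ

theorem ρ_ge (k : ℕ) (x : X) : D.s ≤ D.ρ k x := by
  unfold ρ
  have h := Real.one_le_rpow D.ratio_one_le (D.φ_nonneg k x)
  nlinarith [D.hs]

theorem ρ_le (k : ℕ) (x : X) : D.ρ k x ≤ D.τ := by
  unfold ρ
  have h := Real.rpow_le_rpow_of_exponent_le D.ratio_one_le (D.φ_le_one k x)
  rw [Real.rpow_one] at h
  calc D.s * (D.τ / D.s)^(D.φ k x) ≤ D.s * (D.τ / D.s) := mul_le_mul_of_nonneg_left h D.hs.le
    _ = D.τ := by have := D.hs; field_simp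

theorem ρ_eq_τ {k : ℕ} {x : X} (h : D.φ k x = 1) : D.ρ k x = D.τ := by
  unfold ρ
  rw [h, Real.rpow_one]
  have := D.hs
  field_simp

theorem ρ_eq_s {k : ℕ} {x : X} (h : D.φ k x = 0) : D.ρ k x = D.s := by
  unfold ρ
  rw [h, Real.rpow_zero, mul_one]

/-- the weights -/
noncomputable def p (k : ℕ) (x : X) : ℝ := ∏ j ∈ Finset.range k, D.ρ j x

theorem p_succ (k : ℕ) (x : X) : D.p (k+1) x = D.ρ k x * D.p k x := by
  unfold p
  rw [Finset.prod_range_succ, mul_comm]

theorem ρ_pos (k : ℕ) (x : X) : 0 < D.ρ k x := lt_of_lt_of_le D.hs (D.ρ_ge k x)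

theorem p_pos (k : ℕ) (x : X) : 0 < D.p k x := Finset.prod_pos fun j _ => D.ρ_pos j x

theorem sum_inv_r (k : ℕ) : ∑ j ∈ Finset.range k, (D.r j)⁻¹ ≤ (D.r k * (D.b - 1))⁻¹ := by
  have hb1 : 0 < D.b - 1 := by linarith [D.hb]
  induction k with
  | zero => simp only [Finset.range_zero, Finset.sum_empty]; have := D.r_pos 0; positivity
  | succ k ih =>
    rw [Finset.sum_range_succ]
    have h1 : (D.r (k+1) * (D.b - 1))⁻¹ = (D.r k * (D.b - 1))⁻¹ + (D.r k)⁻¹ := by
      rw [D.r_succ k]
      have := D.r_pos (k+1)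
      have := D.b_pos
      field_simp
      ring
    rw [h1]
    linarith

theorem p_compare (k : ℕ) (x y : X) :
    D.p k x ≤ D.p k y * Real.exp (Real.log (D.τ / D.s) * (dist x y * ∑ j ∈ Finset.range k, (D.r j)⁻¹)) := by
  induction k with
  | zero => simp [p]
  | succ k ih =>
    rw [D.p_succ, D.p_succ, Finset.sum_range_succ]
    have hpos : 0 < D.τ / D.s := lt_of_lt_of_le one_pos D.ratio_one_le
    have h1 : D.ρ k x ≤ D.ρ k y * Real.exp (Real.log (D.τ / D.s) * (dist x y * (D.r k)⁻¹)) := by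
      unfold ρ
      rw [mul_assoc]
      apply mul_le_mul_of_nonneg_left _ D.hs.le
      rw [Real.rpow_def_of_pos hpos, Real.rpow_def_of_pos hpos, ← Real.exp_add]
      apply Real.exp_le_exp.mpr
      rw [← mul_add]
      apply mul_le_mul_of_nonneg_left _ (Real.log_nonneg D.ratio_one_le)
      have := D.φ_lip k x y
      rwa [div_eq_mul_inv] at this
    have h2 : Real.exp (Real.log (D.τ / D.s) * (dist x y * (∑ j ∈ Finset.range k, (D.r j)⁻¹ + (D.r k)⁻¹)))
        = Real.exp (Real.log (D.τ / D.s) * (dist x y * ∑ j ∈ Finset.range k, (D.r j)⁻¹)) *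
          Real.exp (Real.log (D.τ / D.s) * (dist x y * (D.r k)⁻¹)) := by
      rw [← Real.exp_add]
      congr 1
      ring
    rw [h2]
    calc D.ρ k x * D.p k x ≤ (D.ρ k y * Real.exp (Real.log (D.τ / D.s) * (dist x y * (D.r k)⁻¹))) *
          (D.p k y * Real.exp (Real.log (D.τ / D.s) * (dist x y * ∑ j ∈ Finset.range k, (D.r j)⁻¹))) :=
          mul_le_mul h1 ih (D.p_pos k x).le (mul_nonneg (D.ρ_pos k y).le (Real.exp_pos _).le)
      _ = _ := by ring

theorem qc (k : ℕ) (x y : X) (h : dist x y ≤ 4 * D.r k) : D.p k x ≤ 2 * D.p k y := by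
  have h1 := D.p_compare k x y
  have hb1 : 0 < D.b - 1 := by linarith [D.hb]
  have hr := D.r_pos k
  have hL : 0 ≤ Real.log (D.τ / D.s) := Real.log_nonneg D.ratio_one_le
  have h2 : dist x y * ∑ j ∈ Finset.range k, (D.r j)⁻¹ ≤ 4 / (D.b - 1) := by
    calc dist x y * ∑ j ∈ Finset.range k, (D.r j)⁻¹
        ≤ (4 * D.r k) * (D.r k * (D.b - 1))⁻¹ := by
          apply mul_le_mul h (D.sum_inv_r k)
          · apply Finset.sum_nonneg; intro j _; have := D.r_pos j; positivity
          · positivity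
      _ = _ := by field_simp
  have h3 : Real.log (D.τ / D.s) * (dist x y * ∑ j ∈ Finset.range k, (D.r j)⁻¹) ≤ Real.log 2 := by
    calc _ ≤ Real.log (D.τ / D.s) * (4 / (D.b - 1)) := mul_le_mul_of_nonneg_left h2 hL
      _ = (4 * Real.log (D.τ / D.s)) / (D.b - 1) := by ring
      _ ≤ Real.log 2 := by
        rw [div_le_iff₀ hb1, mul_comm (Real.log 2)]
        exact D.hlog
  have h4 := Real.exp_le_exp.mpr h3
  rw [Real.exp_log (by norm_num)] at h4
  have := D.p_pos k y
  nlinarith

theorem dist_lst_le (a : ℝ) (x : X) (L : List X) (h : Steps a x L) :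
    dist x (lst x L) ≤ L.length * a := by
  induction L generalizing x with
  | nil => simp [lst]
  | cons y L ih =>
    have h1 := ih y h.2
    have h2 := dist_triangle x y (lst y L)
    simp only [lst, List.length_cons]
    push_cast
    linarith [h.1]

theorem sum_ge (k : ℕ) (c : ℝ) (L : List X) (h : ∀ z ∈ L, c ≤ D.p (k+1) z) :
    L.length * c ≤ (L.map (D.p (k+1))).sum := by
  induction L with
  | nil => simp
  | cons y L ih =>
    have h1 := ih fun z hz => h z (List.mem_cons_of_mem _ hz)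
    have h2 := h y List.mem_cons_self
    rw [List.map_cons, List.sum_cons, List.length_cons]
    push_cast
    linarith

theorem ch (k : ℕ) (x : X) (L : List X) (hS : Steps (4 * D.r (k+1)) x L)
    (hz : ∀ z ∈ L, dist x z ≤ 2 * D.r k) (hr : D.r k ≤ dist x (lst x L)) :
    D.p k x ≤ D.p (k+1) x + (L.map (D.p (k+1))).sum := by
  have hrk := D.r_pos k
  have hhalf : ∀ z ∈ L, D.p k x ≤ 2 * D.p k z := fun z hzL => D.qc k x z (by linarith [hz z hzL])
  have hpx := D.p_pos k x
  have hs := D.hs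
  by_cases hB : x ∈ D.Bad k
  · have hlen : D.b / 4 ≤ L.length := by
      have h1 := dist_lst_le _ x L hS
      have h2 := D.r_succ k
      have h3 := D.r_pos (k+1)
      have h4 : D.b * D.r (k+1) ≤ (4 * (L.length : ℝ)) * D.r (k+1) := by linarith
      have := le_of_mul_le_mul_right h4 h3
      linarith
    have h1 := D.sum_ge k (D.τ / 2 * D.p k x) L (fun z hzL => by
      rw [D.p_succ, D.ρ_eq_τ (D.φ_eq_one hB (by rw [dist_comm]; exact hz z hzL))]
      have := hhalf z hzL
      nlinarith [lt_of_lt_of_le D.hs D.hsτ])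
    have h2 : 0 < D.p (k+1) x := D.p_pos _ _
    have h3 : (D.b / 4) * (D.τ / 2 * D.p k x) ≤ L.length * (D.τ / 2 * D.p k x) := by
      apply mul_le_mul_of_nonneg_right hlen
      have : 0 < D.τ := lt_of_lt_of_le D.hs D.hsτ
      positivity
    have h4 : 1 * D.p k x ≤ (D.τ * D.b / 8) * D.p k x :=
      mul_le_mul_of_nonneg_right (by linarith [D.hτb]) hpx.le
    nlinarith
  · have hlen := D.good k x L hB hS hz hr
    have h1 := D.sum_ge k (D.s / 2 * D.p k x) L (fun z hzL => by
      rw [D.p_succ]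
      have h2 := D.ρ_ge k z
      have h3 := hhalf z hzL
      have h4 := D.p_pos k z
      nlinarith)
    have h2 : D.s / 2 * D.p k x ≤ D.p (k+1) x := by
      rw [D.p_succ]
      have h2 := D.ρ_ge k x
      nlinarith
    have h3 : (2 / D.s) * (D.s / 2 * D.p k x) ≤ (L.length + 1) * (D.s / 2 * D.p k x) :=
      mul_le_mul_of_nonneg_right hlen (by positivity)
    have h4 : (2 / D.s) * (D.s / 2 * D.p k x) = D.p k x := by field_simp
    linarith

/-- the system of weights -/
noncomputable def wt : Wt X where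
  R := D.R
  b := D.b
  p := D.p
  lo := D.s
  hi := D.τ
  hR := D.hR
  hb := D.hb
  hlo := D.hs
  hhi := D.hτ
  p0 := fun x => by simp [p]
  step_lo := fun k x => by
    rw [D.p_succ]; exact mul_le_mul_of_nonneg_right (D.ρ_ge k x) (D.p_pos k x).le
  step_hi := fun k x => by
    rw [D.p_succ]; exact mul_le_mul_of_nonneg_right (D.ρ_le k x) (D.p_pos k x).le
  qc := D.qc
  ch := D.ch

open Classical in
/-- the weights in terms of the number of bad levels -/
theorem p_le (k : ℕ) (x : X) (N : ℕ)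
    (hN : ((Finset.range k).filter fun j => ∃ y ∈ D.Bad j, dist x y < 3 * D.r j).card ≤ N) :
    D.p k x ≤ D.s^k * (D.τ / D.s)^N := by
  have h1 : ∀ j, D.ρ j x ≤ D.s * (if ∃ y ∈ D.Bad j, dist x y < 3 * D.r j then D.τ / D.s else 1) := by
    intro j
    split
    · refine (D.ρ_le j x).trans (le_of_eq ?_)
      have := D.hs
      field_simp
    · rename_i h
      push Not at h
      rw [D.ρ_eq_s (D.φ_eq_zero h), mul_one]
  unfold p
  calc ∏ j ∈ Finset.range k, D.ρ j x
      ≤ ∏ j ∈ Finset.range k, (D.s * (if ∃ y ∈ D.Bad j, dist x y < 3 * D.r j then D.τ / D.s else 1)) :=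
        Finset.prod_le_prod (fun j _ => (D.ρ_pos j x).le) (fun j _ => h1 j)
    _ = D.s^k * (D.τ / D.s)^((Finset.range k).filter fun j => ∃ y ∈ D.Bad j, dist x y < 3 * D.r j).card := by
        rw [Finset.prod_mul_distrib, Finset.prod_const, Finset.card_range, Finset.prod_ite,
          Finset.prod_const, Finset.prod_const_one, mul_one]
    _ ≤ _ := by
        apply mul_le_mul_of_nonneg_left _ (by have := D.hs; positivity)
        exact pow_le_pow_right₀ D.ratio_one_le hN

end BD

end Pool.Agent.R966.CD
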